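import Mathlib
import Pool.Agent.Q85.ZE.A

set_option autoImplicit false

/-!
# Entropy of maps on a finite set with weights
-/

namespace Q85.ZR

open Finset Q85.ZE

/-- the mass of the fibre of `f` through `x` -/
noncomputable def mass {ι α : Type*} (F : Finset ι) (p : ι → ℝ) (f : ι → α) (x : ι) : ℝ :=
  ∑ y ∈ fib F f (f x), p y

/-- the entropy of `f` -/
noncomputable def ent {ι α : Type*} (F : Finset ι) (p : ι → ℝ) (f : ι → α) : ℝ :=
  - ∑ x ∈ F, p x * Real.log (mass F p f x)

/-- `g` determines `f` on `F` -/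
def Det {ι α β : Type*} (F : Finset ι) (g : ι → β) (f : ι → α) : Prop :=
  ∀ x ∈ F, ∀ y ∈ F, g x = g y → f x = f y

/-- probability weights -/
def Wt {ι : Type*} (F : Finset ι) (p : ι → ℝ) : Prop := (∀ x ∈ F, 0 < p x) ∧ ∑ x ∈ F, p x = 1

section

variable {ι α β γ : Type*} {F : Finset ι} {p : ι → ℝ}

theorem le_mass (hp : ∀ x ∈ F, 0 < p x) (f : ι → α) {x : ι} (hx : x ∈ F) : p x ≤ mass F p f x := by
  unfold mass
  refine Finset.single_le_sum (f := p) (fun y hy => (hp y (mem_fib.1 hy).1).le) ?_
  rw [mem_fib]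
  exact ⟨hx, rfl⟩

theorem mass_pos (hp : ∀ x ∈ F, 0 < p x) (f : ι → α) {x : ι} (hx : x ∈ F) : 0 < mass F p f x :=
  (hp x hx).trans_le (le_mass hp f hx)

theorem mass_le_total (hp : ∀ x ∈ F, 0 < p x) (f : ι → α) (x : ι) :
    mass F p f x ≤ ∑ y ∈ F, p y := by
  unfold mass
  exact Finset.sum_le_sum_of_subset_of_nonneg (fun y hy => (mem_fib.1 hy).1)
    fun y hy _ => (hp y hy).le

theorem sum_div_mass (hp : ∀ x ∈ F, 0 < p x) (f : ι → α) (g : α → ℝ) :
    ∑ x ∈ F, p x * (g (f x) / mass F p f x) = ∑ a ∈ img F f, g a := by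
  rw [sum_fib F f]
  refine Finset.sum_congr rfl fun a ha => ?_
  obtain ⟨x, hx, rfl⟩ := mem_img.1 ha
  have h1 : ∀ y ∈ fib F f (f x), p y * (g (f y) / mass F p f y)
      = p y * (g (f x) / mass F p f x) := by
    intro y hy
    rw [mem_fib] at hy
    unfold mass
    rw [hy.2]
  rw [Finset.sum_congr rfl h1, ← Finset.sum_mul]
  have h2 := mass_pos hp f hx
  have h3 : ∑ y ∈ fib F f (f x), p y = mass F p f x := rfl
  rw [h3]
  field_simp

theorem sum_mass (f : ι → α) :
    ∑ a ∈ img F f, ∑ y ∈ fib F f a, p y = ∑ x ∈ F, p x := (sum_fib F f p).symm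

/-- Jensen's inequality for the logarithm -/
theorem jensen (hp : Wt F p) (u : ι → ℝ) (h0 : ∀ x ∈ F, 0 < u x) (h1 : ∑ x ∈ F, p x * u x ≤ 1) :
    ∑ x ∈ F, p x * Real.log (u x) ≤ 0 := by
  have h2 : ∑ x ∈ F, p x * Real.log (u x) ≤ ∑ x ∈ F, p x * (u x - 1) :=
    Finset.sum_le_sum fun x hx => mul_le_mul_of_nonneg_left
      (Real.log_le_sub_one_of_pos (h0 x hx)) (hp.1 x hx).le
  have h3 : ∑ x ∈ F, p x * (u x - 1) = ∑ x ∈ F, p x * u x - ∑ x ∈ F, p x := by
    rw [← Finset.sum_sub_distrib]
    exact Finset.sum_congr rfl fun x _ => by ring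
  rw [h3, hp.2] at h2
  linarith

theorem mass_le_of_det (hp : ∀ x ∈ F, 0 < p x) {f : ι → α} {g : ι → β} (h : Det F g f) {x : ι}
    (hx : x ∈ F) : mass F p g x ≤ mass F p f x := by
  unfold mass
  refine Finset.sum_le_sum_of_subset_of_nonneg (fun y hy => ?_) fun y hy _ => ?_
  · rw [mem_fib] at hy ⊢
    exact ⟨hy.1, h y hy.1 x hx hy.2⟩
  · exact (hp y (mem_fib.1 hy).1).le

theorem ent_le_of_det (hp : ∀ x ∈ F, 0 < p x) {f : ι → α} {g : ι → β} (h : Det F g f) :
    ent F p f ≤ ent F p g := by
  unfold ent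
  rw [neg_le_neg_iff]
  exact Finset.sum_le_sum fun x hx => mul_le_mul_of_nonneg_left
    (Real.log_le_log (mass_pos hp g hx) (mass_le_of_det hp h hx)) (hp x hx).le

theorem ent_congr (hp : ∀ x ∈ F, 0 < p x) {f : ι → α} {g : ι → β} (h : Det F g f)
    (h' : Det F f g) : ent F p f = ent F p g :=
  le_antisymm (ent_le_of_det hp h) (ent_le_of_det hp h')

theorem ent_nonneg (hp : Wt F p) (f : ι → α) : 0 ≤ ent F p f := by
  unfold ent
  rw [neg_nonneg]
  refine Finset.sum_nonpos fun x hx => ?_
  refine mul_nonpos_of_nonneg_of_nonpos (hp.1 x hx).le ?_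
  refine Real.log_nonpos (mass_pos hp.1 f hx).le ?_
  exact (mass_le_total hp.1 f x).trans hp.2.le

/-- conditional number of values -/
theorem ent_le_add_log (hp : Wt F p) {f : ι → α} {g : ι → β} (h : Det F g f) (K : ℕ)
    (hK : ∀ x ∈ F, (img (fib F f (f x)) g).card ≤ K) :
    ent F p g ≤ ent F p f + Real.log K := by
  have hF : F.Nonempty := by
    rw [Finset.nonempty_iff_ne_empty]
    rintro rfl
    have := hp.2
    simp at this
  obtain ⟨z, hz⟩ := hF
  have hK0 : (0:ℝ) < K := by
    have : 0 < (img (fib F f (f z)) g).card :=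
      Finset.card_pos.2 ⟨g z, mem_img.2 ⟨z, mem_fib.2 ⟨hz, rfl⟩, rfl⟩⟩
    exact_mod_cast this.trans_le (hK z hz)
  have h1 := jensen hp (fun x => mass F p f x / mass F p g x / K) (fun x hx => by
    have := mass_pos hp.1 f hx
    have := mass_pos hp.1 g hx
    positivity) (by
      rw [sum_fib F f]
      have : ∀ a ∈ img F f, ∑ x ∈ fib F f a, p x * (mass F p f x / mass F p g x / K)
          ≤ ∑ y ∈ fib F f a, p y := by
        intro a ha
        obtain ⟨x, hx, rfl⟩ := mem_img.1 ha
        set G := fib F f (f x) with hG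
        have hpG : ∀ y ∈ G, 0 < p y := fun y hy => hp.1 y (mem_fib.1 hy).1
        have e1 : ∀ y ∈ G, p y * (mass F p f y / mass F p g y / K)
            = mass F p f x / K * (p y * (1 / mass G p g y)) := by
          intro y hy
          have hy' := mem_fib.1 hy
          have e2 : mass F p f y = mass F p f x := by
            unfold mass
            rw [hy'.2]
          have e3 : mass F p g y = mass G p g y := by
            unfold mass
            refine Finset.sum_congr ?_ fun _ _ => rfl
            ext w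
            rw [mem_fib, mem_fib, hG, mem_fib]
            constructor
            · rintro ⟨h2, h3⟩
              exact ⟨⟨h2, by rw [h w h2 y hy'.1 h3, hy'.2]⟩, h3⟩
            · rintro ⟨⟨h2, -⟩, h3⟩
              exact ⟨h2, h3⟩
          rw [e2, e3]
          ring
        rw [Finset.sum_congr rfl e1, ← Finset.mul_sum, sum_div_mass hpG g (fun _ => 1)]
        have e4 : ∑ y ∈ G, p y = mass F p f x := rfl
        rw [e4, Finset.sum_const, nsmul_eq_mul, mul_one]
        have h5 : ((img G g).card : ℝ) ≤ K := by exact_mod_cast hK x hx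
        have h6 := mass_pos hp.1 f hx
        rw [div_mul_eq_mul_div, div_le_iff₀ hK0]
        exact mul_le_mul_of_nonneg_left h5 h6.le
      refine (Finset.sum_le_sum this).trans ?_
      rw [sum_mass, hp.2])
  have e : ∀ x ∈ F, p x * Real.log (mass F p f x / mass F p g x / K)
      = p x * Real.log (mass F p f x) - p x * Real.log (mass F p g x) - p x * Real.log K := by
    intro x hx
    have h2 := mass_pos hp.1 f hx
    have h3 := mass_pos hp.1 g hx
    rw [Real.log_div (by positivity) hK0.ne', Real.log_div h2.ne' h3.ne']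
    ring
  rw [Finset.sum_congr rfl e, Finset.sum_sub_distrib, Finset.sum_sub_distrib, ← Finset.sum_mul,
    hp.2, one_mul] at h1
  unfold ent
  linarith

theorem ent_le_log (hp : Wt F p) (g : ι → β) (K : ℕ) (hK : (img F g).card ≤ K) :
    ent F p g ≤ Real.log K := by
  have h1 := ent_le_add_log hp (f := fun _ : ι => ()) (g := g) (fun _ _ _ _ _ => rfl) K
    (fun x _ => by
      refine le_trans (Finset.card_le_card ?_) hK
      intro a ha
      rw [mem_img] at ha ⊢
      obtain ⟨y, hy, rfl⟩ := ha
      exact ⟨y, (mem_fib.1 hy).1, rfl⟩)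
  have h2 : ent F p (fun _ : ι => ()) = 0 := by
    unfold ent
    rw [neg_eq_zero]
    refine Finset.sum_eq_zero fun x _ => ?_
    have : mass F p (fun _ : ι => ()) x = 1 := by
      unfold mass
      rw [← hp.2]
      refine Finset.sum_congr ?_ fun _ _ => rfl
      ext y
      rw [mem_fib]
      simp
    rw [this, Real.log_one, mul_zero]
  linarith

theorem prod_mass {G : Finset ι} (hp : ∀ x ∈ G, 0 < p x) (f : ι → α) (g : ι → β) :
    ∑ x ∈ G, p x * (mass G p f x * mass G p g x / mass G p (fun y => (f y, g y)) x)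
      ≤ (∑ x ∈ G, p x) ^ 2 := by
  have h1 := sum_div_mass hp (fun y => (f y, g y))
    (fun q => (∑ y ∈ fib G f q.1, p y) * (∑ y ∈ fib G g q.2, p y))
  have e : ∑ x ∈ G, p x * (mass G p f x * mass G p g x / mass G p (fun y => (f y, g y)) x)
      = ∑ q ∈ img G (fun y => (f y, g y)), (∑ y ∈ fib G f q.1, p y) * (∑ y ∈ fib G g q.2, p y) :=
    h1
  rw [e]
  have h5 : img G (fun x => (f x, g x)) ⊆ (img G f) ×ˢ (img G g) := by
    intro q hq
    obtain ⟨x, hx, rfl⟩ := mem_img.1 hq
    simp only [Finset.mem_product]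
    exact ⟨mem_img.2 ⟨x, hx, rfl⟩, mem_img.2 ⟨x, hx, rfl⟩⟩
  refine (Finset.sum_le_sum_of_subset_of_nonneg h5 (fun q _ _ => mul_nonneg
    (Finset.sum_nonneg fun y hy => (hp y (mem_fib.1 hy).1).le)
    (Finset.sum_nonneg fun y hy => (hp y (mem_fib.1 hy).1).le))).trans ?_
  rw [Finset.sum_product]
  simp only
  rw [← Finset.sum_mul_sum, sum_mass, sum_mass, sq]

/-- conditional entropy decreases when the condition becomes finer -/
theorem ent_sub (hp : Wt F p) {R : ι → α} {Z : ι → β} {Z' : ι → γ} (h : Det F Z' Z) :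
    ent F p (fun y => (R y, Z' y)) - ent F p Z' ≤ ent F p (fun y => (R y, Z y)) - ent F p Z := by
  have m1 : ∀ x ∈ F, 0 < mass F p Z x := fun x hx => mass_pos hp.1 Z hx
  have m2 : ∀ x ∈ F, 0 < mass F p Z' x := fun x hx => mass_pos hp.1 Z' hx
  have m3 : ∀ x ∈ F, 0 < mass F p (fun y => (R y, Z y)) x := fun x hx => mass_pos hp.1 _ hx
  have m4 : ∀ x ∈ F, 0 < mass F p (fun y => (R y, Z' y)) x := fun x hx => mass_pos hp.1 _ hx
  have h1 := jensen hp (fun x => mass F p (fun y => (R y, Z y)) x * mass F p Z' x /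
      mass F p (fun y => (R y, Z' y)) x / mass F p Z x) (fun x hx => by
    have := m1 x hx
    have := m2 x hx
    have := m3 x hx
    have := m4 x hx
    positivity) (by
      rw [sum_fib F Z, ← hp.2, ← sum_mass (F := F) (p := p) Z]
      refine Finset.sum_le_sum fun a ha => ?_
      obtain ⟨x, hx, rfl⟩ := mem_img.1 ha
      set G := fib F Z (Z x) with hG
      have hpG : ∀ y ∈ G, 0 < p y := fun y hy => hp.1 y (mem_fib.1 hy).1
      have e1 : ∀ y ∈ G, p y * (mass F p (fun y => (R y, Z y)) y * mass F p Z' y /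
          mass F p (fun y => (R y, Z' y)) y / mass F p Z y)
          = p y * (mass G p R y * mass G p Z' y / mass G p (fun y => (R y, Z' y)) y)
            / mass F p Z x := by
        intro y hy
        have hy' := mem_fib.1 hy
        have f1 : mass F p Z y = mass F p Z x := by
          unfold mass
          rw [hy'.2]
        have f2 : mass F p (fun y => (R y, Z y)) y = mass G p R y := by
          unfold mass
          refine Finset.sum_congr ?_ fun _ _ => rfl
          ext w
          rw [mem_fib, mem_fib, hG, mem_fib, ← hy'.2]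
          simp only [Prod.mk.injEq]
          tauto
        have f3 : mass F p Z' y = mass G p Z' y := by
          unfold mass
          refine Finset.sum_congr ?_ fun _ _ => rfl
          ext w
          rw [mem_fib, mem_fib, hG, mem_fib]
          constructor
          · rintro ⟨h2, h3⟩
            exact ⟨⟨h2, by rw [h w h2 y hy'.1 h3, hy'.2]⟩, h3⟩
          · rintro ⟨⟨h2, -⟩, h3⟩
            exact ⟨h2, h3⟩
        have f4 : mass F p (fun y => (R y, Z' y)) y = mass G p (fun y => (R y, Z' y)) y := by
          unfold mass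
          refine Finset.sum_congr ?_ fun _ _ => rfl
          ext w
          rw [mem_fib, mem_fib, hG, mem_fib]
          simp only [Prod.mk.injEq]
          constructor
          · rintro ⟨h2, h4, h3⟩
            exact ⟨⟨h2, by rw [h w h2 y hy'.1 h3, hy'.2]⟩, h4, h3⟩
          · rintro ⟨⟨h2, -⟩, h3⟩
            exact ⟨h2, h3⟩
        rw [f1, f2, f3, f4]
        ring
      rw [Finset.sum_congr rfl e1, ← Finset.sum_div]
      have h2 := prod_mass hpG R Z'
      have h3 : ∑ y ∈ G, p y = mass F p Z x := rfl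
      rw [h3] at h2 ⊢
      have h4 := m1 x hx
      rw [div_le_iff₀ h4, ← sq]
      exact h2)
  have e : ∀ x ∈ F, p x * Real.log (mass F p (fun y => (R y, Z y)) x * mass F p Z' x /
      mass F p (fun y => (R y, Z' y)) x / mass F p Z x)
      = p x * Real.log (mass F p (fun y => (R y, Z y)) x) + p x * Real.log (mass F p Z' x)
        - p x * Real.log (mass F p (fun y => (R y, Z' y)) x) - p x * Real.log (mass F p Z x) := by
    intro x hx
    have h1 := m1 x hx
    have h2 := m2 x hx
    have h3 := m3 x hx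
    have h4 := m4 x hx
    rw [Real.log_div (by positivity) (by positivity), Real.log_div (by positivity) (by positivity),
      Real.log_mul h3.ne' h2.ne']
    ring
  rw [Finset.sum_congr rfl e] at h1
  simp only [Finset.sum_add_distrib, Finset.sum_sub_distrib] at h1
  unfold ent
  linarith

/-- Gibbs' inequality on a tree -/
theorem gibbs (hp : Wt F p) (T : ι → α) (R : ι → β) (w : α → ℝ) (w' : α → β → ℝ)
    (hw : ∀ x ∈ F, 0 < w (T x)) (hw' : ∀ x ∈ F, 0 < w' (T x) (R x))
    (hle : ∀ x ∈ F, ∑ r ∈ img (fib F T (T x)) R, w' (T x) r ≤ w (T x)) :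
    ∑ x ∈ F, p x * Real.log (w' (T x) (R x)) - ∑ x ∈ F, p x * Real.log (w (T x))
      ≤ ent F p T - ent F p (fun y => (T y, R y)) := by
  have m1 : ∀ x ∈ F, 0 < mass F p T x := fun x hx => mass_pos hp.1 T hx
  have m2 : ∀ x ∈ F, 0 < mass F p (fun y => (T y, R y)) x := fun x hx => mass_pos hp.1 _ hx
  have h1 := jensen hp (fun x => w' (T x) (R x) * mass F p T x /
      mass F p (fun y => (T y, R y)) x / w (T x)) (fun x hx => by
    have := m1 x hx
    have := m2 x hx
    have := hw x hx
    have := hw' x hx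
    positivity) (by
      rw [sum_fib F T, ← hp.2, ← sum_mass (F := F) (p := p) T]
      refine Finset.sum_le_sum fun a ha => ?_
      obtain ⟨x, hx, rfl⟩ := mem_img.1 ha
      set G := fib F T (T x) with hG
      have hpG : ∀ y ∈ G, 0 < p y := fun y hy => hp.1 y (mem_fib.1 hy).1
      have e1 : ∀ y ∈ G, p y * (w' (T y) (R y) * mass F p T y /
          mass F p (fun y => (T y, R y)) y / w (T y))
          = mass F p T x / w (T x) * (p y * (w' (T x) (R y) / mass G p R y)) := by
        intro y hy
        have hy' := mem_fib.1 hy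
        have f1 : mass F p T y = mass F p T x := by
          unfold mass
          rw [hy'.2]
        have f2 : mass F p (fun y => (T y, R y)) y = mass G p R y := by
          unfold mass
          refine Finset.sum_congr ?_ fun _ _ => rfl
          ext w
          rw [mem_fib, mem_fib, hG, mem_fib, ← hy'.2]
          simp only [Prod.mk.injEq]
          tauto
        rw [f1, f2, hy'.2]
        ring
      rw [Finset.sum_congr rfl e1, ← Finset.mul_sum, sum_div_mass hpG R (fun r => w' (T x) r)]
      have h2 := hle x hx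
      have h3 : ∑ y ∈ G, p y = mass F p T x := rfl
      rw [h3]
      have h4 := m1 x hx
      have h5 := hw x hx
      rw [div_mul_eq_mul_div, div_le_iff₀ h5]
      exact mul_le_mul_of_nonneg_left h2 h4.le)
  have e : ∀ x ∈ F, p x * Real.log (w' (T x) (R x) * mass F p T x /
      mass F p (fun y => (T y, R y)) x / w (T x))
      = p x * Real.log (w' (T x) (R x)) + p x * Real.log (mass F p T x)
        - p x * Real.log (mass F p (fun y => (T y, R y)) x) - p x * Real.log (w (T x)) := by
    intro x hx
    have h1 := m1 x hx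
    have h2 := m2 x hx
    have h3 := hw x hx
    have h4 := hw' x hx
    rw [Real.log_div (by positivity) (by positivity), Real.log_div (by positivity) (by positivity),
      Real.log_mul h4.ne' h1.ne']
    ring
  rw [Finset.sum_congr rfl e] at h1
  simp only [Finset.sum_add_distrib, Finset.sum_sub_distrib] at h1
  unfold ent
  linarith

end

end Q85.ZR
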