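import Mathlib
import Pool.Agent.Q85.ZR.A
import Pool.Agent.Q85.ZE.B

set_option autoImplicit false

/-!
# The chain of windows
-/

namespace Q85.ZR

open Finset Q85.ZE

theorem ent_const {ι α : Type*} {F : Finset ι} {p : ι → ℝ} (hp : Wt F p) {f : ι → α}
    (h : ∀ x ∈ F, ∀ y ∈ F, f x = f y) : ent F p f = 0 := by
  unfold ent
  rw [neg_eq_zero]
  refine Finset.sum_eq_zero fun x hx => ?_
  have : mass F p f x = 1 := by
    unfold mass
    rw [← hp.2]
    refine Finset.sum_congr ?_ fun _ _ => rfl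
    ext y
    rw [mem_fib]
    exact ⟨fun h1 => h1.1, fun h1 => ⟨h1, h y h1 x hx⟩⟩
  rw [this, Real.log_one, mul_zero]

theorem chain {ι ρ κ : Type*} {F : Finset ι} {p : ι → ℝ} (hp : Wt F p) (R : ι → ρ)
    (C E : ℕ → ι → κ) (K : ℕ) : ∀ (q : ℕ) (X : ι → κ),
    (∀ k < q, Det F (E k) (C k)) → (∀ k, k + 1 < q → Det F (C (k + 1)) (E k)) →
    (∀ k, k + 1 = q → Det F X (E k)) →
    (∀ k < q, ∀ x ∈ F, (img (fib F (fun y => (R y, C k y)) (R x, C k x)) (E k)).card ≤ K) →
    ∑ k ∈ Finset.range q, (ent F p (E k) - ent F p (C k) - Real.log K) ≤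
      ent F p R - (ent F p (fun y => (R y, X y)) - ent F p X) := by
  intro q
  induction q with
  | zero =>
    intro X _ _ _ _
    have h1 := ent_sub hp (R := R) (Z := fun _ : ι => ()) (Z' := X) (fun _ _ _ _ _ => rfl)
    have h2 : ent F p (fun _ : ι => ()) = 0 := ent_const hp fun _ _ _ _ => rfl
    have h3 : ent F p (fun y => (R y, ())) = ent F p R :=
      ent_congr hp.1 (fun x _ y _ h => by simp [h]) (fun x _ y _ h => by simpa using h)
    rw [Finset.range_zero, Finset.sum_empty]
    linarith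
  | succ q ih =>
    intro X h1 h2 h3 hK
    have i1 := ih (C q) (fun k hk => h1 k (by omega)) (fun k hk => h2 k (by omega))
      (fun k hk => by
        subst hk
        exact h2 k (by omega)) (fun k hk => hK k (by omega))
    have i2 := ent_le_add_log hp (f := fun y => (R y, C q y)) (g := fun y => (R y, E q y))
      (fun x hx y hy h => by
        simp only [Prod.mk.injEq] at h ⊢
        exact ⟨h.1, h1 q (by omega) x hx y hy h.2⟩) K (fun x hx => by
        refine le_trans ?_ (hK q (by omega) x hx)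
        classical
        have : img (fib F (fun y => (R y, C q y)) (R x, C q x)) (fun y => (R y, E q y))
            ⊆ (img (fib F (fun y => (R y, C q y)) (R x, C q x)) (E q)).image
              (fun e => (R x, e)) := by
          intro a ha
          rw [mem_img] at ha
          obtain ⟨y, hy, rfl⟩ := ha
          rw [Finset.mem_image]
          refine ⟨E q y, mem_img.2 ⟨y, hy, rfl⟩, ?_⟩
          have := (mem_fib.1 hy).2
          simp only [Prod.mk.injEq] at this ⊢
          exact ⟨this.1.symm, trivial⟩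
        exact (Finset.card_le_card this).trans Finset.card_image_le)
    have i3 := ent_sub hp (R := R) (Z := E q) (Z' := X) (h3 q rfl)
    rw [Finset.sum_range_succ]
    linarith

/-- blocks of the levels -/
def X {ι : Type*} {d : ℕ} (b N : ℕ) (x : ι → Fin d → ℤ) (t : ℕ) (i : ι) : Fin d → ℤ :=
  blk (b ^ (N - t)) (x i)

/-- relative positions between the levels `t` and `t'` -/
def Rl {ι : Type*} {d : ℕ} (b N : ℕ) (x : ι → Fin d → ℤ) (t t' : ℕ) (i : ι) : Fin d → ℤ :=
  rel (b ^ (t' - t)) (b ^ (N - t')) (x i)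

theorem side {b N t t' : ℕ} (h : t ≤ t') (h' : t' ≤ N) :
    b ^ (N - t) = b ^ (t' - t) * b ^ (N - t') := by
  rw [← pow_add]
  congr 1
  omega

theorem X_det {ι : Type*} {d : ℕ} {b N : ℕ} {x : ι → Fin d → ℤ} {F : Finset ι} {t t' : ℕ}
    (h : t ≤ t') : Det F (X b N x t') (X b N x t) := by
  intro i _ j _ hij
  unfold X at hij ⊢
  have e : b ^ (N - t) = b ^ (N - t') * b ^ ((N - t) - (N - t')) := by
    rw [← pow_add]
    congr 1
    omega
  rw [e, ← blk_blk, ← blk_blk, hij]

theorem Rl_det {ι : Type*} {d : ℕ} {b N : ℕ} {x : ι → Fin d → ℤ} {F : Finset ι} {t t' : ℕ}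
    (h : t ≤ t') (h' : t' ≤ N) : Det F (X b N x t') (Rl b N x t t') := by
  intro i hi j hj hij
  have h1 := X_det (F := F) (b := b) (N := N) (x := x) h i hi j hj hij
  unfold X at hij h1
  rw [side h h'] at h1
  funext l
  simp only [Rl, rel]
  rw [congrFun hij l, congrFun h1 l]

theorem Rl_X_det {ι : Type*} {d : ℕ} {b N : ℕ} {x : ι → Fin d → ℤ} {F : Finset ι} {t t' : ℕ}
    (h : t ≤ t') (h' : t' ≤ N) :
    Det F (fun i => (Rl b N x t t' i, X b N x t i)) (X b N x t') := by
  intro i hi j hj hij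
  simp only [Prod.mk.injEq] at hij
  obtain ⟨h1, h2⟩ := hij
  unfold X at h2 ⊢
  rw [side h h'] at h2
  funext l
  have h3 := congrFun h1 l
  simp only [Rl, rel] at h3
  rw [congrFun h2 l] at h3
  linarith

/-- the entropy of the relative position -/
theorem ent_Rl {ι : Type*} {d : ℕ} {b N : ℕ} {x : ι → Fin d → ℤ} {F : Finset ι} {p : ι → ℝ}
    (hp : Wt F p) {t t' : ℕ} (h : t ≤ t') (h' : t' ≤ N) (q K : ℕ) (lo hi : ℕ → ℕ)
    (hlh : ∀ k < q, lo k ≤ hi k) (hhl : ∀ k, k + 1 < q → hi (k + 1) ≤ lo k)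
    (hK : ∀ k < q, ∀ i ∈ F, (img (fib F (fun y => (Rl b N x t t' y, X b N x (t - hi k) y))
      (Rl b N x t t' i, X b N x (t - hi k) i)) (X b N x (t - lo k))).card ≤ K) :
    ent F p (X b N x t') - ent F p (X b N x t) +
      ∑ k ∈ Finset.range q, (ent F p (X b N x (t - lo k)) - ent F p (X b N x (t - hi k))
        - Real.log K) ≤ ent F p (Rl b N x t t') := by
  have h1 := chain hp (Rl b N x t t') (fun k => X b N x (t - hi k)) (fun k => X b N x (t - lo k)) K
    q (X b N x t) (fun k hk => X_det (by have := hlh k hk; omega))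
    (fun k hk => X_det (by have := hhl k hk; omega)) (fun k hk => X_det (by omega)) hK
  have h2 : ent F p (fun y => (Rl b N x t t' y, X b N x t y)) = ent F p (X b N x t') :=
    ent_congr hp.1 (fun i hi j hj hij => by
      simp only [Prod.mk.injEq]
      exact ⟨Rl_det h h' i hi j hj hij, X_det h i hi j hj hij⟩) (Rl_X_det h h')
  rw [h2] at h1
  linarith

end Q85.ZR
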