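import Mathlib
import Pool.Agent.Q85.ZR.B

set_option autoImplicit false

/-!
# Functions of low multiscale rank
-/

namespace Q85.ZR

open Finset Q85.ZE

/-- A function on the cells of the cube of side `b ^ N` has multiscale rank at most `r`: at every
level `j` there are `r` nonnegative functions `ψ j i` on the cube of side `b ^ (N - j)` such that the
function is a nonnegative combination of the `ψ 0 i`, and the restriction of every `ψ j i` to each of
the `b ^ d` subcubes of side `b ^ (N - (j + 1))` is a nonnegative combination of the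
`ψ (j + 1) i'`. -/
def RankLE {d : ℕ} (b N r : ℕ) (g : (Fin d → ℤ) → ℝ) : Prop :=
  ∃ (ψ : ℕ → Fin r → (Fin d → ℤ) → ℝ) (c : Fin r → ℝ)
    (m : ℕ → Fin r → (Fin d → ℤ) → Fin r → ℝ),
    (∀ j i z, 0 ≤ ψ j i z) ∧ (∀ i, 0 ≤ c i) ∧ (∀ j i ρ i', 0 ≤ m j i ρ i') ∧
    (∀ z ∈ box d (b ^ N), g z = ∑ i, c i * ψ 0 i z) ∧
    ∀ j < N, ∀ i, ∀ ρ ∈ box d b, ∀ z ∈ box d (b ^ (N - (j + 1))),
      ψ j i (fun l => ((b ^ (N - (j + 1)) : ℕ) : ℤ) * ρ l + z l) =
        ∑ i', m j i ρ i' * ψ (j + 1) i' z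

theorem box_comb {d s q : ℕ} {ρ z : Fin d → ℤ} (hρ : ρ ∈ box d q) (hz : z ∈ box d s) :
    (fun l => (s:ℤ) * ρ l + z l) ∈ box d (q * s) := by
  rw [mem_box] at hρ hz ⊢
  intro l
  obtain ⟨a1, a2⟩ := hρ l
  obtain ⟨b1, b2⟩ := hz l
  have hs : (0:ℤ) ≤ s := by positivity
  constructor
  · have := mul_nonneg hs a1
    linarith
  · push_cast
    nlinarith

theorem multi {d b N r : ℕ} (hb : 0 < b) {ψ : ℕ → Fin r → (Fin d → ℤ) → ℝ}
    {m : ℕ → Fin r → (Fin d → ℤ) → Fin r → ℝ} (hm : ∀ j i ρ i', 0 ≤ m j i ρ i')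
    (hstep : ∀ j < N, ∀ i, ∀ ρ ∈ box d b, ∀ z ∈ box d (b ^ (N - (j + 1))),
      ψ j i (fun l => ((b ^ (N - (j + 1)) : ℕ) : ℤ) * ρ l + z l) =
        ∑ i', m j i ρ i' * ψ (j + 1) i' z) :
    ∀ (k t : ℕ), t + k ≤ N → ∀ (i : Fin r), ∀ ρ ∈ box d (b ^ k), ∃ a : Fin r → ℝ,
      (∀ i', 0 ≤ a i') ∧ ∀ z ∈ box d (b ^ (N - (t + k))),
        ψ t i (fun l => ((b ^ (N - (t + k)) : ℕ) : ℤ) * ρ l + z l) =
          ∑ i', a i' * ψ (t + k) i' z := by
  classical
  intro k
  induction k with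
  | zero =>
    intro t ht i ρ hρ
    refine ⟨fun i' => if i' = i then 1 else 0, fun i' => by positivity, fun z hz => ?_⟩
    have h0 : ρ = fun _ => 0 := by
      funext l
      rw [mem_box] at hρ
      have := hρ l
      simp only [pow_zero, Nat.cast_one] at this
      omega
    simp [h0]
  | succ k ih =>
    intro t ht i ρ hρ
    have hb' : (0:ℤ) < b := by exact_mod_cast hb
    set ρ' : Fin d → ℤ := fun l => ρ l / b with hρ'
    set ρ'' : Fin d → ℤ := fun l => ρ l % b with hρ''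
    have h1 : ρ' ∈ box d (b ^ k) := by
      rw [mem_box] at hρ ⊢
      intro l
      obtain ⟨a1, a2⟩ := hρ l
      constructor
      · exact Int.ediv_nonneg a1 hb'.le
      · simp only [hρ']
        rw [Int.ediv_lt_iff_lt_mul hb']
        rw [pow_succ] at a2
        push_cast at a2 ⊢
        exact a2
    have h2 : ρ'' ∈ box d b := by
      rw [mem_box]
      intro l
      exact ⟨Int.emod_nonneg _ hb'.ne', Int.emod_lt_of_pos _ hb'⟩
    have h3 : ∀ l, ρ l = b * ρ' l + ρ'' l := fun l => by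
      simp only [hρ', hρ'']
      have := Int.emod_add_mul_ediv (ρ l) b
      linarith
    obtain ⟨a, ha0, ha⟩ := ih t (by omega) i ρ' h1
    refine ⟨fun i' => ∑ i₁, a i₁ * m (t + k) i₁ ρ'' i', fun i' => Finset.sum_nonneg fun i₁ _ =>
      mul_nonneg (ha0 i₁) (hm _ _ _ _), fun z hz => ?_⟩
    have e0 : N - (t + (k + 1)) = N - (t + k + 1) := by omega
    have e1 : b * b ^ (N - (t + k + 1)) = b ^ (N - (t + k)) := by
      rw [← pow_succ']
      congr 1
      omega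
    rw [e0] at hz ⊢
    have hz' : (fun l => ((b ^ (N - (t + k + 1)) : ℕ) : ℤ) * ρ'' l + z l)
        ∈ box d (b ^ (N - (t + k))) := by
      rw [← e1]
      exact box_comb h2 hz
    have e2 : (fun l => ((b ^ (N - (t + k + 1)) : ℕ) : ℤ) * ρ l + z l)
        = fun l => ((b ^ (N - (t + k)) : ℕ) : ℤ) * ρ' l
          + (((b ^ (N - (t + k + 1)) : ℕ) : ℤ) * ρ'' l + z l) := by
      funext l
      rw [h3 l, ← e1]
      push_cast
      ring
    rw [e2]
    have h4 := ha _ hz'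
    rw [h4]
    have h5 : ∀ i₁, ψ (t + k) i₁ (fun l => ((b ^ (N - (t + k + 1)) : ℕ) : ℤ) * ρ'' l + z l)
        = ∑ i', m (t + k) i₁ ρ'' i' * ψ (t + k + 1) i' z :=
      fun i₁ => hstep (t + k) (by omega) i₁ ρ'' h2 z hz
    simp only [h5]
    have e3 : t + (k + 1) = t + k + 1 := by omega
    rw [e3]
    simp only [Finset.mul_sum, Finset.sum_mul]
    rw [Finset.sum_comm]
    refine Finset.sum_congr rfl fun i' _ => Finset.sum_congr rfl fun i₁ _ => ?_
    ring

/-- a largest term -/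
theorem exists_best {r : ℕ} (a : Fin r → ℝ) (h : 0 < ∑ i, a i) : ∃ i, ∑ j, a j ≤ r * a i := by
  have hne : (Finset.univ : Finset (Fin r)).Nonempty := by
    by_contra hcon
    rw [Finset.not_nonempty_iff_eq_empty] at hcon
    rw [hcon, Finset.sum_empty] at h
    exact lt_irrefl _ h
  obtain ⟨i, -, hi⟩ := Finset.exists_max_image Finset.univ a hne
  refine ⟨i, ?_⟩
  calc ∑ j, a j ≤ ∑ _j : Fin r, a i := Finset.sum_le_sum fun j hj => hi j hj
    _ = r * a i := by simp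

/-- relative position of a cell in its block of side `s` -/
def res {d : ℕ} (s : ℕ) (x : Fin d → ℤ) : Fin d → ℤ := fun l => x l % s

theorem res_mem {d s : ℕ} (hs : 0 < s) (x : Fin d → ℤ) : res s x ∈ box d s := by
  have hs' : (0:ℤ) < s := by exact_mod_cast hs
  rw [mem_box]
  exact fun l => ⟨Int.emod_nonneg _ hs'.ne', Int.emod_lt_of_pos _ hs'⟩

theorem res_eq {d s q : ℕ} (x : Fin d → ℤ) :
    res (q * s) x = fun l => (s:ℤ) * rel q s x l + res s x l := by
  funext l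
  simp only [res, rel, blk]
  rw [Int.emod_def, Int.emod_def]
  push_cast
  ring

theorem sum_pow_le {ι : Type*} (s : Finset ι) (a : ι → ℝ) (ha : ∀ i ∈ s, 0 ≤ a i) {D : ℕ}
    (hD : 1 ≤ D) : ∑ i ∈ s, a i ^ D ≤ (∑ i ∈ s, a i) ^ D := by
  obtain ⟨k, rfl⟩ : ∃ k, D = k + 1 := ⟨D - 1, by omega⟩
  have h1 : ∀ i ∈ s, a i ^ (k + 1) ≤ (∑ j ∈ s, a j) ^ k * a i := by
    intro i hi
    rw [pow_succ]
    exact mul_le_mul_of_nonneg_right (pow_le_pow_left₀ (ha i hi)
      (Finset.single_le_sum ha hi) k) (ha i hi)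
  calc ∑ i ∈ s, a i ^ (k + 1) ≤ ∑ i ∈ s, (∑ j ∈ s, a j) ^ k * a i := Finset.sum_le_sum h1
    _ = (∑ j ∈ s, a j) ^ (k + 1) := by rw [← Finset.mul_sum, pow_succ]

/-- splitting a sum over a cube into subcubes -/
theorem sum_sub_le {d s q : ℕ} (g : (Fin d → ℤ) → ℝ) (hg : ∀ z, 0 ≤ g z) :
    ∑ ρ ∈ box d q, ∑ z ∈ box d s, g (fun l => (s:ℤ) * ρ l + z l) ≤ ∑ z ∈ box d (q * s), g z := by
  classical
  rw [← Finset.sum_product']
  have hinj : Set.InjOn (fun p : (Fin d → ℤ) × (Fin d → ℤ) => fun l => (s:ℤ) * p.1 l + p.2 l)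
      ((box d q ×ˢ box d s : Finset _) : Set ((Fin d → ℤ) × (Fin d → ℤ))) := by
    rintro ⟨r, w⟩ hp ⟨r', w'⟩ hp' h
    rw [Finset.mem_coe, Finset.mem_product] at hp hp'
    have h1 := mem_box.1 hp.2
    have h2 := mem_box.1 hp'.2
    have h3 : ∀ l, r l = r' l ∧ w l = w' l := by
      intro l
      have h4 : (s:ℤ) * r l + w l = (s:ℤ) * r' l + w' l := congrFun h l
      obtain ⟨a1, a2⟩ := h1 l
      obtain ⟨b1, b2⟩ := h2 l
      simp only at a1 a2 b1 b2
      have hs : (0:ℤ) < s := lt_of_le_of_lt a1 a2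
      have h5 : r l = r' l := by
        have e1 : ((s:ℤ) * r l + w l) / s = r l := by
          rw [add_comm, Int.add_mul_ediv_left _ _ hs.ne', Int.ediv_eq_zero_of_lt a1 a2, zero_add]
        have e2 : ((s:ℤ) * r' l + w' l) / s = r' l := by
          rw [add_comm, Int.add_mul_ediv_left _ _ hs.ne', Int.ediv_eq_zero_of_lt b1 b2, zero_add]
        rw [← e1, ← e2, h4]
      refine ⟨h5, ?_⟩
      rw [h5] at h4
      linarith
    have e1 : r = r' := funext fun l => (h3 l).1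
    have e2 : w = w' := funext fun l => (h3 l).2
    rw [e1, e2]
  have e : ∑ p ∈ box d q ×ˢ box d s, g (fun l => (s:ℤ) * p.1 l + p.2 l)
      = ∑ z ∈ (box d q ×ˢ box d s).image
        (fun p : (Fin d → ℤ) × (Fin d → ℤ) => fun l => (s:ℤ) * p.1 l + p.2 l), g z := by
    rw [Finset.sum_image hinj]
  rw [e]
  refine Finset.sum_le_sum_of_subset_of_nonneg ?_ fun z _ _ => hg z
  intro z hz
  rw [Finset.mem_image] at hz
  obtain ⟨p, hp, rfl⟩ := hz
  rw [Finset.mem_product] at hp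
  exact box_comb hp.1 hp.2

end Q85.ZR
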