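import Mathlib
import Pool.Agent.Q85.ZR.C

set_option autoImplicit false

/-!
# The inequality for functions of low multiscale rank along a sequence of levels
-/

namespace Q85.ZR

open Finset Q85.ZE

theorem star {ι : Type*} {d D b N r K : ℕ} (hb : 0 < b) (hD : 1 ≤ D) (g : (Fin d → ℤ) → ℝ)
    (hg : RankLE b N r g) (F : Finset ι) (x : ι → Fin d → ℤ)
    (hpos : ∀ i ∈ F, 0 < g (res (b ^ N) (x i))) (τ : ℕ → ℕ) (h0 : τ 0 = 0)
    (hm : ∀ j < K, τ j ≤ τ (j + 1)) (hN : τ K = N) (Z : ℝ) (hZ : Z = ∑ i ∈ F, g (res (b ^ N) (x i)))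
    (p : ι → ℝ) (hpdef : p = fun i => g (res (b ^ N) (x i)) / Z) (hp : Wt F p) :
    D * Real.log Z ≤ D * ent F p (fun i => i)
      - ∑ j ∈ Finset.range K, ent F p (Rl b N x (τ j) (τ (j + 1)))
      + Real.log (∑ z ∈ box d (b ^ N), g z ^ D) + (D * (K + 1) + K) * Real.log r := by
  classical
  have hF : F.Nonempty := by
    rw [Finset.nonempty_iff_ne_empty]
    rintro rfl
    have := hp.2
    simp at this
  obtain ⟨i₀, hi₀⟩ := hF
  have hZ0 : 0 < Z := by
    rw [hZ]
    exact Finset.sum_pos hpos ⟨i₀, hi₀⟩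
  obtain ⟨ψ, c, m, hψ, hc, hm0, hg, hstep⟩ := hg
  have hτ : ∀ j ≤ K, τ j ≤ N := by
    intro j hj
    rw [← hN]
    obtain ⟨k, rfl⟩ := Nat.exists_eq_add_of_le hj
    clear hj
    have : ∀ k', j + k' ≤ j + k → τ j ≤ τ (j + k') := by
      intro k'
      induction k' with
      | zero => exact fun _ => le_rfl
      | succ k' ih => exact fun h => (ih (by omega)).trans (hm (j + k') (by omega))
    exact this k le_rfl
  have hposb : ∀ t, 0 < b ^ t := fun t => pow_pos hb _
  -- nonempty index set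
  have hr0 : 0 < r := by
    rcases Nat.eq_zero_or_pos r with h | h
    · subst h
      have h1 := hpos i₀ hi₀
      rw [hg _ (res_mem (hposb N) _), Finset.univ_eq_empty, Finset.sum_empty] at h1
      exact absurd h1 (lt_irrefl _)
    · exact h
  have hr : (1:ℝ) ≤ r := by exact_mod_cast hr0
  have : Nonempty (Fin r) := ⟨⟨0, hr0⟩⟩
  -- relative positions
  set y : ℕ → ι → (Fin d → ℤ) := fun j i => res (b ^ (N - τ j)) (x i) with hy
  set ρ : ℕ → ι → (Fin d → ℤ) := fun j => Rl b N x (τ j) (τ (j + 1)) with hρ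
  have hymem : ∀ j i, y j i ∈ box d (b ^ (N - τ j)) := fun j i => res_mem (hposb _) _
  have hρmem : ∀ j i, ρ j i ∈ box d (b ^ (τ (j + 1) - τ j)) := fun j i => rel_mem (hposb _) _
  have hyρ : ∀ j < K, ∀ i, y j i
      = fun l => ((b ^ (N - τ (j + 1)) : ℕ) : ℤ) * ρ j i l + y (j + 1) i l := by
    intro j hj i
    simp only [hy, hρ, Rl]
    rw [side (hm j hj) (hτ (j + 1) (by omega)), res_eq]
  -- matrices between the levels
  have hex : ∀ (j : ℕ) (T : Fin r) (ρ' : Fin d → ℤ), ∃ a : Fin r → ℝ, (∀ i', 0 ≤ a i') ∧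
      (j < K → ρ' ∈ box d (b ^ (τ (j + 1) - τ j)) → ∀ z ∈ box d (b ^ (N - τ (j + 1))),
        ψ (τ j) T (fun l => ((b ^ (N - τ (j + 1)) : ℕ) : ℤ) * ρ' l + z l) =
          ∑ i', a i' * ψ (τ (j + 1)) i' z) := by
    intro j T ρ'
    by_cases h1 : j < K ∧ ρ' ∈ box d (b ^ (τ (j + 1) - τ j))
    · have e : τ j + (τ (j + 1) - τ j) = τ (j + 1) := by
        have := hm j h1.1
        omega
      obtain ⟨a, ha0, ha⟩ := multi hb hm0 hstep (τ (j + 1) - τ j) (τ j)
        (by rw [e]; exact hτ _ (by omega)) T ρ' h1.2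
      rw [e] at ha
      exact ⟨a, ha0, fun _ _ => ha⟩
    · exact ⟨fun _ => 0, fun _ => le_rfl, fun h2 h3 => absurd ⟨h2, h3⟩ h1⟩
  choose mm hmm0 hmm using hex
  -- the path
  have hbst : ∀ a : Fin r → ℝ, ∃ i, 0 < ∑ j, a j → ∑ j, a j ≤ r * a i := by
    intro a
    by_cases h : 0 < ∑ j, a j
    · obtain ⟨i, hi⟩ := exists_best a h
      exact ⟨i, fun _ => hi⟩
    · exact ⟨Classical.arbitrary _, fun h' => absurd h' h⟩
  choose bst hbst using hbst
  set s : ι → ℕ → Fin r := fun i j => Nat.rec (bst (fun i' => c i' * ψ 0 i' (y 0 i)))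
    (fun j sj => bst (fun i' => mm j sj (ρ j i) i' * ψ (τ (j + 1)) i' (y (j + 1) i))) j with hs
  have hs0 : ∀ i, s i 0 = bst (fun i' => c i' * ψ 0 i' (y 0 i)) := fun i => rfl
  have hsS : ∀ i j, s i (j + 1)
      = bst (fun i' => mm j (s i j) (ρ j i) i' * ψ (τ (j + 1)) i' (y (j + 1) i)) :=
    fun i j => rfl
  have hy0 : ∀ i, y 0 i = res (b ^ N) (x i) := by
    intro i
    simp only [hy, h0, Nat.sub_zero]
  have hg0 : ∀ i, g (res (b ^ N) (x i)) = ∑ i', c i' * ψ 0 i' (y 0 i) := by
    intro i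
    rw [hg _ (res_mem (hposb N) _), hy0]
  have hbase : ∀ i ∈ F, g (res (b ^ N) (x i)) ≤ r * (c (s i 0) * ψ 0 (s i 0) (y 0 i)) := by
    intro i hi
    have h1 := hpos i hi
    rw [hg0] at h1 ⊢
    have := hbst _ h1
    rw [← hs0] at this
    exact this
  have hbase' : ∀ i ∈ F, 0 < c (s i 0) ∧ 0 < ψ (τ 0) (s i 0) (y 0 i) := by
    intro i hi
    have h1 := (hpos i hi).trans_le (hbase i hi)
    have h2 : 0 < c (s i 0) * ψ 0 (s i 0) (y 0 i) := by
      by_contra hcon
      push Not at hcon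
      have := mul_nonpos_of_nonneg_of_nonpos (by linarith : (0:ℝ) ≤ r) hcon
      linarith
    rw [h0]
    constructor
    · refine lt_of_le_of_ne (hc _) fun h => ?_
      rw [← h, zero_mul] at h2
      exact lt_irrefl _ h2
    · refine lt_of_le_of_ne (hψ _ _ _) fun h => ?_
      rw [← h, mul_zero] at h2
      exact lt_irrefl _ h2
  have hstep1 : ∀ i, ∀ j < K, 0 < ψ (τ j) (s i j) (y j i) →
      0 < mm j (s i j) (ρ j i) (s i (j + 1)) ∧ 0 < ψ (τ (j + 1)) (s i (j + 1)) (y (j + 1) i) ∧
      ψ (τ j) (s i j) (y j i) ≤ r * (mm j (s i j) (ρ j i) (s i (j + 1))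
        * ψ (τ (j + 1)) (s i (j + 1)) (y (j + 1) i)) := by
    intro i j hj h1
    have h2 : ψ (τ j) (s i j) (y j i)
        = ∑ i', mm j (s i j) (ρ j i) i' * ψ (τ (j + 1)) i' (y (j + 1) i) := by
      rw [← hmm j (s i j) (ρ j i) hj (hρmem j i) (y (j + 1) i) (hymem (j + 1) i)]
      rw [← hyρ j hj i]
    rw [h2] at h1 ⊢
    have h3 := hbst _ h1
    rw [← hsS] at h3
    have h4 := h1.trans_le h3
    have h5 : 0 < mm j (s i j) (ρ j i) (s i (j + 1))
        * ψ (τ (j + 1)) (s i (j + 1)) (y (j + 1) i) := by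
      by_contra hcon
      push Not at hcon
      have := mul_nonpos_of_nonneg_of_nonpos (by linarith : (0:ℝ) ≤ r) hcon
      linarith
    refine ⟨?_, ?_, h3⟩
    · refine lt_of_le_of_ne (hmm0 _ _ _ _) fun h => ?_
      rw [← h, zero_mul] at h5
      exact lt_irrefl _ h5
    · refine lt_of_le_of_ne (hψ _ _ _) fun h => ?_
      rw [← h, mul_zero] at h5
      exact lt_irrefl _ h5
  have hψpos : ∀ i ∈ F, ∀ j ≤ K, 0 < ψ (τ j) (s i j) (y j i) := by
    intro i hi j
    induction j with
    | zero => exact fun _ => (hbase' i hi).2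
    | succ j ih => exact fun hj => (hstep1 i j (by omega) (ih (by omega))).2.1
  have hmmpos : ∀ i ∈ F, ∀ j < K, 0 < mm j (s i j) (ρ j i) (s i (j + 1)) :=
    fun i hi j hj => (hstep1 i j hj (hψpos i hi j (by omega))).1
  have hpath : ∀ i ∈ F, ∀ j ≤ K, Real.log (g (res (b ^ N) (x i))) ≤
      (j + 1) * Real.log r + Real.log (c (s i 0))
        + ∑ k ∈ Finset.range j, Real.log (mm k (s i k) (ρ k i) (s i (k + 1)))
        + Real.log (ψ (τ j) (s i j) (y j i)) := by
    intro i hi j
    induction j with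
    | zero =>
      intro _
      have h1 := Real.log_le_log (hpos i hi) (hbase i hi)
      have h2 := hbase' i hi
      rw [h0] at h2
      rw [Real.log_mul (by positivity) (by have := mul_pos h2.1 h2.2; positivity),
        Real.log_mul h2.1.ne' h2.2.ne'] at h1
      rw [h0, Finset.range_zero, Finset.sum_empty]
      push_cast
      linarith
    | succ j ih =>
      intro hj
      have h1 := ih (by omega)
      have h2 := hstep1 i j (by omega) (hψpos i hi j (by omega))
      have h3 := Real.log_le_log (hψpos i hi j (by omega)) h2.2.2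
      rw [Real.log_mul (by positivity) (by have := mul_pos h2.1 h2.2.1; positivity),
        Real.log_mul h2.1.ne' h2.2.1.ne'] at h3
      rw [Finset.sum_range_succ]
      push_cast
      linarith
  -- the `D`-th power sums
  set V : ℕ → Fin r → ℝ := fun t T => ∑ z ∈ box d (b ^ (N - t)), ψ t T z ^ D with hV
  have hVge : ∀ t T, ∀ z ∈ box d (b ^ (N - t)), ψ t T z ^ D ≤ V t T := fun t T z hz =>
    Finset.single_le_sum (f := fun z => ψ t T z ^ D) (fun z _ => pow_nonneg (hψ _ _ _) _) hz
  have hVpos : ∀ i ∈ F, ∀ j ≤ K, 0 < V (τ j) (s i j) := fun i hi j hj =>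
    (pow_pos (hψpos i hi j hj) D).trans_le (hVge _ _ _ (hymem j i))
  have hVstep : ∀ j < K, ∀ T, ∑ ρ' ∈ box d (b ^ (τ (j + 1) - τ j)), ∑ i',
      mm j T ρ' i' ^ D * V (τ (j + 1)) i' ≤ V (τ j) T := by
    intro j hj T
    have h1 := sum_sub_le (d := d) (s := b ^ (N - τ (j + 1))) (q := b ^ (τ (j + 1) - τ j))
      (fun z => ψ (τ j) T z ^ D) (fun z => pow_nonneg (hψ _ _ _) _)
    rw [← side (hm j hj) (hτ (j + 1) (by omega))] at h1
    refine le_trans (Finset.sum_le_sum fun ρ' hρ' => ?_) h1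
    calc ∑ i', mm j T ρ' i' ^ D * V (τ (j + 1)) i'
        = ∑ z ∈ box d (b ^ (N - τ (j + 1))), ∑ i', (mm j T ρ' i' * ψ (τ (j + 1)) i' z) ^ D := by
          rw [Finset.sum_comm]
          refine Finset.sum_congr rfl fun i' _ => ?_
          simp only [hV]
          rw [Finset.mul_sum]
          exact Finset.sum_congr rfl fun z _ => (mul_pow _ _ _).symm
      _ ≤ _ := Finset.sum_le_sum fun z hz => by
          rw [hmm j T ρ' hj hρ' z hz]
          exact sum_pow_le _ _ (fun i' _ => mul_nonneg (hmm0 _ _ _ _) (hψ _ _ _)) hD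
  -- one step
  have hone : ∀ j < K, D * ∑ i ∈ F, p i * Real.log (mm j (s i j) (ρ j i) (s i (j + 1)))
      + ∑ i ∈ F, p i * Real.log (V (τ (j + 1)) (s i (j + 1)))
      - ∑ i ∈ F, p i * Real.log (V (τ j) (s i j)) ≤ Real.log r - ent F p (ρ j) := by
    intro j hj
    have h1 := gibbs hp (fun i => s i j) (fun i => (ρ j i, s i (j + 1))) (fun T => V (τ j) T)
      (fun T R => mm j T R.1 R.2 ^ D * V (τ (j + 1)) R.2) (fun i hi => hVpos i hi j (by omega))
      (fun i hi => mul_pos (pow_pos (hmmpos i hi j hj) _) (hVpos i hi (j + 1) (by omega)))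
      (fun i hi => by
        refine le_trans ?_ (hVstep j hj (s i j))
        rw [← Finset.sum_product']
        refine Finset.sum_le_sum_of_subset_of_nonneg ?_ fun R _ _ => mul_nonneg
          (pow_nonneg (hmm0 _ _ _ _) _) (Finset.sum_nonneg fun z _ => pow_nonneg (hψ _ _ _) _)
        intro R hR
        rw [mem_img] at hR
        obtain ⟨i', -, rfl⟩ := hR
        rw [Finset.mem_product]
        exact ⟨hρmem j i', Finset.mem_univ _⟩)
    have h2 : ∑ i ∈ F, p i * Real.log (mm j (s i j) (ρ j i) (s i (j + 1)) ^ D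
        * V (τ (j + 1)) (s i (j + 1)))
        = D * ∑ i ∈ F, p i * Real.log (mm j (s i j) (ρ j i) (s i (j + 1)))
          + ∑ i ∈ F, p i * Real.log (V (τ (j + 1)) (s i (j + 1))) := by
      rw [Finset.mul_sum, ← Finset.sum_add_distrib]
      refine Finset.sum_congr rfl fun i hi => ?_
      have a1 := hmmpos i hi j hj
      have a2 := hVpos i hi (j + 1) (by omega)
      rw [Real.log_mul (by positivity) a2.ne', Real.log_pow]
      ring
    have h3 : ent F p (fun i => s i j) ≤ Real.log r := by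
      refine ent_le_log hp _ r ?_
      refine (Finset.card_le_univ _).trans ?_
      simp
    have h4 : ent F p (ρ j) ≤ ent F p (fun i => (s i j, (ρ j i, s i (j + 1)))) :=
      ent_le_of_det hp.1 fun i _ i' _ h => by
        simp only [Prod.mk.injEq] at h
        exact h.2.1
    simp only at h1
    rw [h2] at h1
    linarith
  have hsum : ∀ k ≤ K, D * ∑ j ∈ Finset.range k,
        ∑ i ∈ F, p i * Real.log (mm j (s i j) (ρ j i) (s i (j + 1)))
      + ∑ i ∈ F, p i * Real.log (V (τ k) (s i k))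
      - ∑ i ∈ F, p i * Real.log (V (τ 0) (s i 0))
      ≤ k * Real.log r - ∑ j ∈ Finset.range k, ent F p (ρ j) := by
    intro k
    induction k with
    | zero =>
      intro _
      rw [Finset.range_zero, Finset.sum_empty, Finset.sum_empty]
      push_cast
      linarith
    | succ k ih =>
      intro hk
      have h1 := ih (by omega)
      have h2 := hone k (by omega)
      rw [Finset.sum_range_succ, Finset.sum_range_succ]
      push_cast
      linarith
  have hK := hsum K le_rfl
  -- the last level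
  have hlast : D * ∑ i ∈ F, p i * Real.log (ψ (τ K) (s i K) (y K i))
      ≤ ∑ i ∈ F, p i * Real.log (V (τ K) (s i K)) := by
    rw [Finset.mul_sum]
    refine Finset.sum_le_sum fun i hi => ?_
    have a1 := hψpos i hi K le_rfl
    have a2 := Real.log_le_log (pow_pos a1 D) (hVge _ _ _ (hymem K i))
    rw [Real.log_pow] at a2
    have := mul_le_mul_of_nonneg_left a2 (hp.1 i hi).le
    linarith
  -- the first level
  have hfirst : D * ∑ i ∈ F, p i * Real.log (c (s i 0)) + ∑ i ∈ F, p i * Real.log (V (τ 0) (s i 0))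
      ≤ Real.log (∑ z ∈ box d (b ^ N), g z ^ D) := by
    have h1 : ∀ i ∈ F, p i * (D * Real.log (c (s i 0)) + Real.log (V (τ 0) (s i 0)))
        ≤ p i * Real.log (∑ z ∈ box d (b ^ N), g z ^ D) := by
      intro i hi
      refine mul_le_mul_of_nonneg_left ?_ (hp.1 i hi).le
      have a1 := (hbase' i hi).1
      have a2 := hVpos i hi 0 (by omega)
      have a3 : c (s i 0) ^ D * V (τ 0) (s i 0) ≤ ∑ z ∈ box d (b ^ N), g z ^ D := by
        simp only [hV]
        rw [h0, Nat.sub_zero, Finset.mul_sum]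
        refine Finset.sum_le_sum fun z hz => ?_
        rw [← mul_pow, hg z hz]
        exact pow_le_pow_left₀ (mul_nonneg (hc _) (hψ _ _ _))
          (Finset.single_le_sum (f := fun i' => c i' * ψ 0 i' z)
            (fun i' _ => mul_nonneg (hc _) (hψ _ _ _)) (Finset.mem_univ _)) D
      have a4 := Real.log_le_log (by positivity) a3
      rw [Real.log_mul (by positivity) a2.ne', Real.log_pow] at a4
      exact a4
    have h2 := Finset.sum_le_sum h1
    rw [← Finset.sum_mul, hp.2, one_mul] at h2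
    refine le_trans (le_of_eq ?_) h2
    rw [Finset.mul_sum, ← Finset.sum_add_distrib]
    exact Finset.sum_congr rfl fun i _ => by ring
  -- the logarithm of the function
  have hlog : ∑ i ∈ F, p i * Real.log (g (res (b ^ N) (x i)))
      = Real.log Z - ent F p (fun i => i) := by
    have h1 : ∀ i ∈ F, p i * Real.log (g (res (b ^ N) (x i)))
        = p i * Real.log Z + p i * Real.log (mass F p (fun i => i) i) := by
      intro i hi
      have e1 : mass F p (fun i => i) i = p i := by
        unfold mass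
        have : fib F (fun i => i) i = {i} := by
          ext j
          rw [mem_fib, Finset.mem_singleton]
          exact ⟨fun h => h.2, fun h => ⟨h ▸ hi, h⟩⟩
        rw [this, Finset.sum_singleton]
      have e2 : g (res (b ^ N) (x i)) = Z * p i := by
        rw [hpdef]
        field_simp
      rw [e1, e2, Real.log_mul hZ0.ne' (hp.1 i hi).ne']
      ring
    rw [Finset.sum_congr rfl h1, Finset.sum_add_distrib, ← Finset.sum_mul, hp.2, one_mul]
    unfold ent
    ring
  have hpsum : ∑ i ∈ F, p i * Real.log (g (res (b ^ N) (x i))) ≤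
      (K + 1) * Real.log r + ∑ i ∈ F, p i * Real.log (c (s i 0))
        + ∑ j ∈ Finset.range K, ∑ i ∈ F,
          p i * Real.log (mm j (s i j) (ρ j i) (s i (j + 1)))
        + ∑ i ∈ F, p i * Real.log (ψ (τ K) (s i K) (y K i)) := by
    have h1 : ∀ i ∈ F, p i * Real.log (g (res (b ^ N) (x i))) ≤
        p i * ((K + 1) * Real.log r) + p i * Real.log (c (s i 0))
        + ∑ j ∈ Finset.range K, p i * Real.log (mm j (s i j) (ρ j i) (s i (j + 1)))
        + p i * Real.log (ψ (τ K) (s i K) (y K i)) := by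
      intro i hi
      have := mul_le_mul_of_nonneg_left (hpath i hi K le_rfl) (hp.1 i hi).le
      rw [← Finset.mul_sum]
      linarith
    refine (Finset.sum_le_sum h1).trans (le_of_eq ?_)
    rw [Finset.sum_add_distrib, Finset.sum_add_distrib, Finset.sum_add_distrib, ← Finset.sum_mul,
      hp.2, one_mul]
    congr 2
    exact Finset.sum_comm
  rw [hlog] at hpsum
  have hD0 : (0:ℝ) ≤ D := by positivity
  have hfin := mul_le_mul_of_nonneg_left hpsum hD0
  have e1 : ∑ j ∈ Finset.range K, ent F p (ρ j)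
      = ∑ j ∈ Finset.range K, ent F p (Rl b N x (τ j) (τ (j + 1))) := rfl
  rw [← e1]
  nlinarith [hfin, hK, hlast, hfirst]

end Q85.ZR
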