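import Mathlib
import Pool.Agent.Q85.ZR.D

set_option autoImplicit false

/-!
# Averaging over the offset of the levels
-/

namespace Q85.ZR

open Finset Q85.ZE

theorem tele1 (h : ℕ → ℝ) (u : ℕ) : ∀ T : ℕ,
    ∑ t ∈ Finset.range T, (h (t - u) - h (t - (u + 1))) = h (T - 1 - u) - h 0 := by
  intro T
  induction T with
  | zero => simp
  | succ T ih =>
    rw [Finset.sum_range_succ, ih]
    have e1 : T - (u + 1) = T - 1 - u := by omega
    have e2 : T + 1 - 1 - u = T - u := by omega
    rw [e1, e2]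
    ring

theorem tele2 (f : ℕ → ℝ) {lo hi : ℕ} (h : lo ≤ hi) :
    ∑ u ∈ Finset.Ico lo hi, (f u - f (u + 1)) = f lo - f hi := by
  induction hi, h using Nat.le_induction with
  | base => simp
  | succ k hk ih =>
    rw [Finset.sum_Ico_succ_top hk, ih]
    ring

theorem win {h : ℕ → ℝ} {lam : ℝ} {N T : ℕ} (hlam : 0 ≤ lam) (h0 : h 0 = 0) (hTN : T ≤ N)
    (hP : ∀ v ≤ N, h N - h v ≤ ((N:ℝ) - v) * lam) {lo hi : ℕ} (hlh : lo ≤ hi) :
    ∑ u ∈ Finset.Ico lo hi, (h N - ((N:ℝ) - T + 1 + u) * lam) ≤
      ∑ t ∈ Finset.range T, (h (t - lo) - h (t - hi)) := by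
  have e : ∑ t ∈ Finset.range T, (h (t - lo) - h (t - hi))
      = ∑ u ∈ Finset.Ico lo hi, ∑ t ∈ Finset.range T, (h (t - u) - h (t - (u + 1))) := by
    rw [Finset.sum_comm]
    refine Finset.sum_congr rfl fun t _ => ?_
    exact (tele2 (fun u => h (t - u)) hlh).symm
  rw [e]
  refine Finset.sum_le_sum fun u _ => ?_
  rw [tele1, h0, sub_zero]
  rcases lt_or_ge u T with hu | hu
  · have h1 := hP (T - 1 - u) (by omega)
    have h2 : ((T - 1 - u : ℕ) : ℝ) = (T:ℝ) - 1 - u := by
      rw [Nat.cast_sub (by omega), Nat.cast_sub (by omega)]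
      push_cast
      ring
    rw [h2] at h1
    linarith
  · have h1 := hP 0 (by omega)
    have h2 : T - 1 - u = 0 := by omega
    rw [h2, h0]
    rw [h0] at h1
    have h3 : (T:ℝ) ≤ u := by exact_mod_cast hu
    push_cast at h1
    have h4 : ((N:ℝ) - 0) * lam ≤ ((N:ℝ) - T + 1 + u) * lam :=
      mul_le_mul_of_nonneg_right (by linarith) hlam
    linarith

theorem sum_offsets (W : ℕ → ℝ) (m : ℕ) : ∀ J : ℕ,
    ∑ θ ∈ Finset.range m, ∑ j ∈ Finset.range J, W (θ + j * m) = ∑ t ∈ Finset.range (J * m), W t := by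
  intro J
  induction J with
  | zero => simp
  | succ J ih =>
    have : ∀ θ ∈ Finset.range m, ∑ j ∈ Finset.range (J + 1), W (θ + j * m)
        = ∑ j ∈ Finset.range J, W (θ + j * m) + W (J * m + θ) := by
      intro θ _
      rw [Finset.sum_range_succ, add_comm θ (J * m)]
    rw [Finset.sum_congr rfl this, Finset.sum_add_distrib, ih, Nat.succ_mul,
      Finset.sum_range_add]

/-- the levels with offset `θ` -/
def lev (θ m J N : ℕ) : ℕ → ℕ
  | 0 => 0
  | j + 1 => if j ≤ J then θ + j * m else N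

theorem averaged {ι : Type*} {d n b N r m J q Kc : ℕ} (hb : 0 < b) (hm0 : 0 < m)
    (hJN : (J + 1) * m ≤ N) (g : (Fin d → ℤ) → ℝ) (hg : RankLE b N r g) (F : Finset ι)
    (x : ι → Fin d → ℤ) (hpos : ∀ i ∈ F, 0 < g (res (b ^ N) (x i))) (hFne : F.Nonempty)
    (htop : ∀ i ∈ F, ∀ i' ∈ F, X b N x 0 i = X b N x 0 i')
    (hcnt : ∀ v ≤ N, ∀ i ∈ F, (fib F (X b N x v) (X b N x v i)).card ≤ b ^ (N - v))
    (lo hi : ℕ → ℕ) (hlh : ∀ k < q, lo k ≤ hi k) (hhl : ∀ k, k + 1 < q → hi (k + 1) ≤ lo k)
    (hK : ∀ t, t + m ≤ N → ∀ k < q, ∀ i ∈ F,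
      (img (fib F (fun y => (Rl b N x t (t + m) y, X b N x (t - hi k) y))
        (Rl b N x t (t + m) i, X b N x (t - hi k) i)) (X b N x (t - lo k))).card ≤ Kc) :
    m * ((n + 1) * Real.log (∑ i ∈ F, g (res (b ^ N) (x i)))) ≤
      m * Real.log (∑ z ∈ box d (b ^ N), g z ^ (n + 1))
      + m * (((n + 1) * (J + 3) + (J + 2)) * Real.log r) + J * m * q * Real.log Kc
      + Real.log b * (N * max ((m:ℝ) * n - ∑ k ∈ Finset.range q, ((hi k : ℝ) - lo k)) 0
        + ∑ k ∈ Finset.range q, ∑ u ∈ Finset.Ico (lo k) (hi k), ((N:ℝ) - (J * m : ℕ) + 1 + u)) := by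
  set Z := ∑ i ∈ F, g (res (b ^ N) (x i)) with hZ
  have hZ0 : 0 < Z := Finset.sum_pos hpos hFne
  set p : ι → ℝ := fun i => g (res (b ^ N) (x i)) / Z with hpdef
  have hp : Wt F p := by
    refine ⟨fun i hi => div_pos (hpos i hi) hZ0, ?_⟩
    rw [hpdef, ← Finset.sum_div, ← hZ]
    exact div_self hZ0.ne'
  set h : ℕ → ℝ := fun t => ent F p (X b N x t) with hh
  have hb1 : (1:ℝ) ≤ b := by exact_mod_cast hb
  have hlam : 0 ≤ Real.log b := Real.log_nonneg hb1
  have h0 : h 0 = 0 := ent_const hp htop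
  have hid : ∀ v ≤ N, ent F p (fun i => i) ≤ h v + ((N:ℝ) - v) * Real.log b := by
    intro v hv
    have h1 := ent_le_add_log hp (f := X b N x v) (g := fun i : ι => i)
      (fun i _ j _ hij => by rw [show i = j from hij]) (b ^ (N - v)) (fun i hi => by
        refine le_trans (Finset.card_le_card ?_) (hcnt v hv i hi)
        intro a ha
        rw [mem_img] at ha
        obtain ⟨y, hy, rfl⟩ := ha
        exact hy)
    rw [Nat.cast_pow, Real.log_pow, Nat.cast_sub hv] at h1
    exact h1
  have hN : h N = ent F p (fun i => i) := by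
    refine le_antisymm ?_ ?_
    · exact ent_le_of_det hp.1 fun i _ j _ hij => by rw [show i = j from hij]
    · have := hid N le_rfl
      rw [sub_self, zero_mul, add_zero] at this
      exact this
  have hP : ∀ v ≤ N, h N - h v ≤ ((N:ℝ) - v) * Real.log b := by
    intro v hv
    have := hid v hv
    rw [← hN] at this
    linarith
  set W : ℕ → ℝ := fun t => ∑ k ∈ Finset.range q, (h (t - lo k) - h (t - hi k) - Real.log Kc)
    with hW
  -- one offset
  have hone : ∀ θ ∈ Finset.range m, (n + 1) * Real.log Z ≤ n * h N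
      - ∑ j ∈ Finset.range J, W (θ + j * m) + Real.log (∑ z ∈ box d (b ^ N), g z ^ (n + 1))
      + ((n + 1) * (J + 3) + (J + 2)) * Real.log r := by
    intro θ hθ
    rw [Finset.mem_range] at hθ
    have l1 : ∀ j, j ≤ J → θ + j * m ≤ N := by
      intro j hj
      have h1 : j * m ≤ J * m := Nat.mul_le_mul_right m hj
      have h2 : (J + 1) * m = J * m + m := Nat.succ_mul J m
      omega
    have hlev0 : lev θ m J N 0 = 0 := rfl
    have hlevS : ∀ j, j ≤ J → lev θ m J N (j + 1) = θ + j * m := fun j hj => if_pos hj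
    have hlevN : lev θ m J N (J + 2) = N := if_neg (by omega)
    have hmono : ∀ j < J + 2, lev θ m J N j ≤ lev θ m J N (j + 1) := by
      intro j hj
      rcases j with _ | j
      · exact Nat.zero_le _
      · rw [hlevS j (by omega)]
        rcases Nat.lt_or_ge j J with h1 | h1
        · rw [hlevS (j + 1) (by omega), Nat.succ_mul]
          omega
        · have : j = J := by omega
          subst this
          rw [hlevN]
          exact l1 j le_rfl
    have h1 := star (K := J + 2) hb (D := n + 1) (by omega) g hg F x hpos (lev θ m J N) hlev0 hmono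
      hlevN Z hZ p hpdef hp
    have h2 : h N + ∑ j ∈ Finset.range J, W (θ + j * m)
        ≤ ∑ j ∈ Finset.range (J + 2), ent F p (Rl b N x (lev θ m J N j) (lev θ m J N (j + 1))) := by
      have a0 : ∀ t t', t ≤ t' → t' ≤ N → h t' - h t ≤ ent F p (Rl b N x t t') := by
        intro t t' htt ht'
        have := ent_Rl hp htt ht' (x := x) (b := b) 0 1 (fun _ => 0) (fun _ => 0)
          (fun _ hk => absurd hk (Nat.not_lt_zero _)) (fun _ hk => absurd hk (Nat.not_lt_zero _))
          (fun _ hk => absurd hk (Nat.not_lt_zero _))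
        rw [Finset.range_zero, Finset.sum_empty, add_zero] at this
        exact this
      have a1 : ∀ t, t + m ≤ N → h (t + m) - h t + W t ≤ ent F p (Rl b N x t (t + m)) := by
        intro t ht
        exact ent_Rl hp (by omega) ht (x := x) (b := b) q Kc lo hi hlh hhl (hK t ht)
      rw [Finset.sum_range_succ', Finset.sum_range_succ]
      have b0 := a0 0 θ (Nat.zero_le _) (by have := l1 0 (Nat.zero_le _); omega)
      have b1 := a0 (θ + J * m) N (l1 J le_rfl) le_rfl
      have e0 : lev θ m J N (0 + 1) = θ := by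
        rw [hlevS 0 (Nat.zero_le _)]
        omega
      have b2 : ∑ j ∈ Finset.range J, (h (θ + (j + 1) * m) - h (θ + j * m) + W (θ + j * m)) ≤
          ∑ j ∈ Finset.range J, ent F p (Rl b N x (lev θ m J N (j + 1))
            (lev θ m J N (j + 1 + 1))) := by
        refine Finset.sum_le_sum fun j hj => ?_
        rw [Finset.mem_range] at hj
        rw [hlevS j (by omega), hlevS (j + 1) (by omega)]
        have e1 : θ + (j + 1) * m = θ + j * m + m := by
          rw [Nat.succ_mul]
          omega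
        rw [e1]
        refine a1 (θ + j * m) ?_
        rw [← e1]
        exact l1 (j + 1) (by omega)
      rw [Finset.sum_add_distrib, Finset.sum_range_sub (fun j => h (θ + j * m))] at b2
      rw [hlev0, e0, hlevS J le_rfl]
      have e2 : lev θ m J N (J + 1 + 1) = N := hlevN
      rw [e2]
      rw [zero_mul, add_zero] at b2
      rw [h0] at b0
      linarith
    rw [← hN] at h1
    push_cast at h1
    linarith
  have hsum := Finset.sum_le_sum hone
  rw [Finset.sum_const, Finset.card_range, nsmul_eq_mul] at hsum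
  simp only [Finset.sum_add_distrib, Finset.sum_sub_distrib, Finset.sum_const, Finset.card_range,
    nsmul_eq_mul] at hsum
  rw [sum_offsets W m J] at hsum
  -- the windows
  have hJN' : J * m ≤ N := by
    have h2 : (J + 1) * m = J * m + m := Nat.succ_mul J m
    omega
  have hWsum : ∑ k ∈ Finset.range q, ∑ u ∈ Finset.Ico (lo k) (hi k),
        (h N - ((N:ℝ) - (J * m : ℕ) + 1 + u) * Real.log b) - J * m * q * Real.log Kc
      ≤ ∑ t ∈ Finset.range (J * m), W t := by
    simp only [hW]
    rw [Finset.sum_comm]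
    have : ∀ k ∈ Finset.range q, ∑ u ∈ Finset.Ico (lo k) (hi k),
        (h N - ((N:ℝ) - (J * m : ℕ) + 1 + u) * Real.log b) - J * m * Real.log Kc
        ≤ ∑ t ∈ Finset.range (J * m), (h (t - lo k) - h (t - hi k) - Real.log Kc) := by
      intro k hk
      have h1 := win hlam h0 hJN' hP (hlh k (Finset.mem_range.1 hk))
      have h3 : ∑ t ∈ Finset.range (J * m), (h (t - lo k) - h (t - hi k) - Real.log Kc)
          = ∑ t ∈ Finset.range (J * m), (h (t - lo k) - h (t - hi k))
            - J * m * Real.log Kc := by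
        rw [Finset.sum_sub_distrib (fun t => h (t - lo k) - h (t - hi k)), Finset.sum_const,
          Finset.card_range, nsmul_eq_mul]
        push_cast
        rfl
      rw [h3]
      linarith
    have h2 := Finset.sum_le_sum this
    rw [Finset.sum_sub_distrib, Finset.sum_const, Finset.card_range, nsmul_eq_mul] at h2
    refine le_trans (le_of_eq ?_) h2
    ring
  have hexp : ∑ k ∈ Finset.range q, ∑ u ∈ Finset.Ico (lo k) (hi k),
        (h N - ((N:ℝ) - (J * m : ℕ) + 1 + u) * Real.log b)
      = (∑ k ∈ Finset.range q, ((hi k : ℝ) - lo k)) * h N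
        - (∑ k ∈ Finset.range q, ∑ u ∈ Finset.Ico (lo k) (hi k), ((N:ℝ) - (J * m : ℕ) + 1 + u))
          * Real.log b := by
    rw [Finset.sum_mul, Finset.sum_mul, ← Finset.sum_sub_distrib]
    refine Finset.sum_congr rfl fun k hk => ?_
    rw [Finset.sum_sub_distrib, Finset.sum_const, Nat.card_Ico, nsmul_eq_mul, Finset.sum_mul,
      Nat.cast_sub (hlh k (Finset.mem_range.1 hk))]
  rw [hexp] at hWsum
  have hHN : h N ≤ N * Real.log b := by
    have := hP 0 (Nat.zero_le _)
    rw [h0] at this
    push_cast at this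
    linarith
  have hH0 : 0 ≤ h N := ent_nonneg hp _
  set A := ∑ k ∈ Finset.range q, ((hi k : ℝ) - lo k) with hA
  have hmax : ((m:ℝ) * n - A) * h N ≤ max ((m:ℝ) * n - A) 0 * (N * Real.log b) :=
    (mul_le_mul_of_nonneg_right (le_max_left _ _) hH0).trans
      (mul_le_mul_of_nonneg_left hHN (le_max_right _ _))
  nlinarith [hsum, hWsum, hmax]

end Q85.ZR
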