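import Mathlib
import Pool.Agent.Q85.ZR.C

set_option autoImplicit false

/-!
# Small values of the linear form attached to a slope
-/

namespace Q85.ZR

open Finset Q85.ZE

/-- an integer vector as a real vector -/
def cst {d : ℕ} (z : Fin d → ℤ) : Fin d → ℝ := fun i => (z i : ℝ)

/-- the linear form `z₀ + ∑ αₗ zₗ` -/
noncomputable def lf {n : ℕ} (α : Fin n → ℝ) : (Fin (n + 1) → ℝ) →ₗ[ℝ] ℝ :=
  LinearMap.proj 0 + ∑ l : Fin n, α l • LinearMap.proj l.succ

theorem lf_apply {n : ℕ} (α : Fin n → ℝ) (z : Fin (n + 1) → ℝ) :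
    lf α z = z 0 + ∑ l, α l * z l.succ := by
  simp [lf]

/-- the integer vectors with coefficients at most `B` and a value at most `η` -/
def Kset {n : ℕ} (α : Fin n → ℝ) (B : ℕ) (η : ℝ) : Set (Fin (n + 1) → ℤ) :=
  {z | (∀ l : Fin n, |z l.succ| ≤ (B:ℤ)) ∧ |lf α (cst z)| ≤ η}

theorem Kset_finite {n : ℕ} (α : Fin n → ℝ) (B : ℕ) (η : ℝ) : (Kset α B η).Finite := by
  set M : ℤ := max (B:ℤ) ⌈η + ∑ l, |α l| * B⌉ with hM
  refine (Set.finite_Icc (fun _ : Fin (n + 1) => -M) (fun _ => M)).subset ?_
  rintro z ⟨h1, h2⟩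
  have key : ∀ i, |z i| ≤ M := by
    intro i
    refine Fin.cases ?_ (fun l => ?_) i
    · have e : (z 0 : ℝ) = lf α (cst z) - ∑ l, α l * z l.succ := by
        rw [lf_apply]
        simp [cst]
      have h3 : |(z 0 : ℝ)| ≤ η + ∑ l, |α l| * B := by
        rw [e]
        refine (abs_sub _ _).trans (add_le_add h2 ?_)
        refine (Finset.abs_sum_le_sum_abs _ _).trans (Finset.sum_le_sum fun l _ => ?_)
        rw [abs_mul]
        refine mul_le_mul_of_nonneg_left ?_ (abs_nonneg _)
        have := h1 l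
        rw [← Int.cast_abs]
        exact_mod_cast this
      have h4 : |z 0| ≤ ⌈η + ∑ l, |α l| * B⌉ := by
        have h5 : ((|z 0| : ℤ) : ℝ) ≤ η + ∑ l, |α l| * B := by
          rw [Int.cast_abs]
          exact h3
        have h6 := h5.trans (Int.le_ceil _)
        exact_mod_cast h6
      exact h4.trans (le_max_right _ _)
    · exact (h1 l).trans (le_max_left _ _)
  rw [Set.mem_Icc]
  exact ⟨fun i => (abs_le.1 (key i)).1, fun i => (abs_le.1 (key i)).2⟩

/-- the same as a finite set -/
noncomputable def Kf {n : ℕ} (α : Fin n → ℝ) (B : ℕ) (η : ℝ) : Finset (Fin (n + 1) → ℤ) :=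
  (Kset_finite α B η).toFinset

theorem mem_Kf {n : ℕ} {α : Fin n → ℝ} {B : ℕ} {η : ℝ} {z : Fin (n + 1) → ℤ} :
    z ∈ Kf α B η ↔ (∀ l : Fin n, |z l.succ| ≤ (B:ℤ)) ∧ |lf α (cst z)| ≤ η := by
  unfold Kf
  rw [Set.Finite.mem_toFinset]
  rfl

theorem cst_add {d : ℕ} (z w : Fin d → ℤ) : cst (z + w) = cst z + cst w := by
  funext i
  simp [cst]

theorem cst_sub {d : ℕ} (z w : Fin d → ℤ) : cst (z - w) = cst z - cst w := by
  funext i
  simp [cst]

theorem cst_inj {d : ℕ} {z w : Fin d → ℤ} (h : cst z = cst w) : z = w := by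
  funext i
  have := congrFun h i
  simp only [cst] at this
  exact_mod_cast this

theorem zero_mem {n : ℕ} (α : Fin n → ℝ) (B : ℕ) {η : ℝ} (hη : 0 ≤ η) : (0 : Fin (n + 1) → ℤ) ∈ Kf α B η := by
  rw [mem_Kf]
  refine ⟨fun l => by simp, ?_⟩
  have : cst (0 : Fin (n + 1) → ℤ) = 0 := by
    funext i
    simp [cst]
  rw [this, map_zero, abs_zero]
  exact hη

theorem Kf_mono {n : ℕ} (α : Fin n → ℝ) (B : ℕ) {η η' : ℝ} (h : η ≤ η') : Kf α B η ⊆ Kf α B η' := by
  intro z hz
  rw [mem_Kf] at hz ⊢
  exact ⟨hz.1, hz.2.trans h⟩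

/-- doubling -/
theorem Kf_card {n : ℕ} (α : Fin n → ℝ) (B : ℕ) {C : ℕ} (hC : 1 ≤ C) (E : ℕ) {η : ℝ}
    (hη : 0 < η) :
    (Kf α (C * B) (E * η)).card ≤ (2 * C) ^ n * (2 * E + 1) * (Kf α B η).card := by
  classical
  set f : (Fin (n + 1) → ℤ) → (Fin n → ℤ) × ℤ := fun z =>
    (fun l => z l.succ / ((B:ℤ) + 1), ⌊lf α (cst z) / η⌋) with hf
  have h1 := Finset.card_le_mul_card_image (s := Kf α (C * B) (E * η)) (f := f)
    (Kf α B η).card (fun a ha => by
      rw [Finset.mem_image] at ha
      obtain ⟨w, hw, rfl⟩ := ha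
      refine Finset.card_le_card_of_injOn (fun z => z - w) ?_ ?_
      · intro z hz
        rw [Finset.mem_coe, Finset.mem_filter] at hz
        obtain ⟨-, hz⟩ := hz
        simp only [hf, Prod.mk.injEq] at hz
        obtain ⟨hz1, hz2⟩ := hz
        rw [Finset.mem_coe, mem_Kf]
        constructor
        · intro l
          have h2 : z l.succ / ((B:ℤ) + 1) = w l.succ / ((B:ℤ) + 1) := congrFun hz1 l
          have hB : (0:ℤ) < (B:ℤ) + 1 := by positivity
          have a1 := Int.emod_nonneg (z l.succ) hB.ne'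
          have a2 := Int.emod_lt_of_pos (z l.succ) hB
          have a3 := Int.emod_def (z l.succ) ((B:ℤ) + 1)
          have b1 := Int.emod_nonneg (w l.succ) hB.ne'
          have b2 := Int.emod_lt_of_pos (w l.succ) hB
          have b3 := Int.emod_def (w l.succ) ((B:ℤ) + 1)
          rw [h2] at a3
          show |z l.succ - w l.succ| ≤ (B:ℤ)
          rw [abs_le]
          constructor <;> linarith
        · have h2 := Int.abs_sub_lt_one_of_floor_eq_floor hz2
          rw [← sub_div, abs_div, abs_of_pos hη, div_lt_one hη] at h2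
          show |lf α (cst (z - w))| ≤ η
          rw [cst_sub, map_sub]
          exact h2.le
      · intro z _ z' _ h
        have h' : z - w = z' - w := h
        exact sub_left_injective h')
  have h2 : (Finset.image f (Kf α (C * B) (E * η))).card ≤ (2 * C) ^ n * (2 * E + 1) := by
    have hsub : Finset.image f (Kf α (C * B) (E * η)) ⊆
        (Fintype.piFinset fun _ : Fin n => Finset.Ico (-(C:ℤ)) C) ×ˢ
          Finset.Icc (-(E:ℤ)) E := by
      intro a ha
      rw [Finset.mem_image] at ha
      obtain ⟨z, hz, rfl⟩ := ha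
      rw [mem_Kf] at hz
      rw [Finset.mem_product, Fintype.mem_piFinset]
      constructor
      · intro l
        have hB : (0:ℤ) < (B:ℤ) + 1 := by positivity
        have h3 := abs_le.1 (hz.1 l)
        push_cast at h3
        rw [Finset.mem_Ico]
        simp only [hf]
        constructor
        · rw [Int.le_ediv_iff_mul_le hB]
          nlinarith [h3.1, Int.natCast_nonneg C]
        · rw [Int.ediv_lt_iff_lt_mul hB]
          have : (0:ℤ) < C := by exact_mod_cast hC
          nlinarith [h3.2]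
      · simp only [hf]
        rw [Finset.mem_Icc]
        have h3 := abs_le.1 hz.2
        constructor
        · rw [Int.le_floor, le_div_iff₀ hη]
          push_cast
          linarith [h3.1]
        · have : lf α (cst z) / η ≤ (E:ℝ) := by
            rw [div_le_iff₀ hη]
            exact h3.2
          have h4 := (Int.floor_le _).trans this
          exact_mod_cast h4
    refine (Finset.card_le_card hsub).trans (le_of_eq ?_)
    rw [Finset.card_product, Fintype.card_piFinset]
    simp only [Int.card_Ico, Int.card_Icc, Finset.prod_const, Finset.card_univ, Fintype.card_fin]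
    congr 1
    · congr 1
      omega
    · omega
  calc (Kf α (C * B) (E * η)).card ≤ (Kf α B η).card * (Finset.image f _).card := h1
    _ ≤ (Kf α B η).card * ((2 * C) ^ n * (2 * E + 1)) := Nat.mul_le_mul_left _ h2
    _ = _ := by ring

end Q85.ZR
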