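import Mathlib
import Pool.Agent.Q85.ZR.F

set_option autoImplicit false

/-!
# Rounding, gaps and translates
-/

namespace Q85.ZR

open Finset Q85.ZE

theorem round {n : ℕ} (α : Fin n → ℝ) (B : ℕ) {η : ℝ} (hη : 0 ≤ η) {y : Fin (n + 1) → ℤ}
    (hy : cst y ∈ Submodule.span ℝ (cst '' (Kf α B η : Set (Fin (n + 1) → ℤ))))
    (hyB : ∀ l : Fin n, |y l.succ| ≤ (B:ℤ)) (s : ℝ) (hs0 : 0 ≤ s) (hs1 : s ≤ 1) :
    ∃ w : Fin (n + 1) → ℤ, (∀ l : Fin n, |(w l.succ : ℝ)| ≤ (n + 2) * B) ∧
      |lf α (cst w) - s * lf α (cst y)| ≤ (n + 1) * η := by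
  obtain ⟨R, hRle, f, hf, hspan⟩ : ∃ R, R ≤ n + 1 ∧ ∃ f : Fin R → Fin (n + 1) → ℝ,
      (∀ i, f i ∈ cst '' (Kf α B η : Set (Fin (n + 1) → ℤ))) ∧ Submodule.span ℝ (Set.range f)
        = Submodule.span ℝ (cst '' (Kf α B η : Set (Fin (n + 1) → ℤ))) := by
    obtain ⟨f, hf, hspan, -⟩ := Submodule.exists_fun_fin_finrank_span_eq ℝ
      (cst '' (Kf α B η : Set (Fin (n + 1) → ℤ)))
    refine ⟨_, ?_, f, hf, hspan⟩
    have := Submodule.finrank_le (Submodule.span ℝ (cst '' (Kf α B η : Set (Fin (n + 1) → ℤ))))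
    rwa [Module.finrank_fin_fun] at this
  rw [← hspan, Submodule.mem_span_range_iff_exists_fun] at hy
  obtain ⟨c, hc⟩ := hy
  have hf' : ∀ i, ∃ z : Fin (n + 1) → ℤ, z ∈ Kf α B η ∧ cst z = f i := by
    intro i
    obtain ⟨z, hz, hz'⟩ := hf i
    exact ⟨z, hz, hz'⟩
  choose z hz hzf using hf'
  refine ⟨fun a => ∑ i, ⌊s * c i⌋ * z i a, ?_, ?_⟩
  · intro l
    have e1 : (((∑ i, ⌊s * c i⌋ * z i l.succ : ℤ)) : ℝ)
        = s * y l.succ - ∑ i, Int.fract (s * c i) * z i l.succ := by
      have h1 : (y l.succ : ℝ) = ∑ i, c i * z i l.succ := by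
        have := congrFun hc l.succ
        simp only [Finset.sum_apply, Pi.smul_apply, smul_eq_mul] at this
        have h2 : cst y l.succ = (y l.succ : ℝ) := rfl
        rw [← h2, ← this]
        refine Finset.sum_congr rfl fun i _ => ?_
        rw [← hzf i]
        rfl
      rw [h1, Finset.mul_sum, ← Finset.sum_sub_distrib]
      push_cast
      refine Finset.sum_congr rfl fun i _ => ?_
      have := Int.floor_add_fract (s * c i)
      have h3 : (⌊s * c i⌋ : ℝ) = s * c i - Int.fract (s * c i) := by linarith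
      rw [h3]
      ring
    rw [e1]
    have h2 : |s * (y l.succ : ℝ)| ≤ B := by
      rw [abs_mul, abs_of_nonneg hs0]
      have h3 : |(y l.succ : ℝ)| ≤ B := by
        rw [← Int.cast_abs]
        exact_mod_cast hyB l
      calc s * |(y l.succ : ℝ)| ≤ 1 * B := mul_le_mul hs1 h3 (abs_nonneg _) zero_le_one
        _ = B := one_mul _
    have h4 : |∑ i, Int.fract (s * c i) * (z i l.succ : ℝ)| ≤ R * B := by
      refine (Finset.abs_sum_le_sum_abs _ _).trans ?_
      calc ∑ i, |Int.fract (s * c i) * (z i l.succ : ℝ)| ≤ ∑ _i : Fin R, (B:ℝ) := by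
            refine Finset.sum_le_sum fun i _ => ?_
            rw [abs_mul, abs_of_nonneg (Int.fract_nonneg _)]
            have h3 : |(z i l.succ : ℝ)| ≤ B := by
              rw [← Int.cast_abs]
              exact_mod_cast (mem_Kf.1 (hz i)).1 l
            calc Int.fract (s * c i) * |(z i l.succ : ℝ)| ≤ 1 * B :=
                  mul_le_mul (Int.fract_lt_one _).le h3 (abs_nonneg _) zero_le_one
              _ = B := one_mul _
        _ = R * B := by simp
    have h5 : (R:ℝ) ≤ n + 1 := by exact_mod_cast hRle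
    have hB : (0:ℝ) ≤ B := by positivity
    calc |s * (y l.succ : ℝ) - ∑ i, Int.fract (s * c i) * (z i l.succ : ℝ)|
        ≤ |s * (y l.succ : ℝ)| + |∑ i, Int.fract (s * c i) * (z i l.succ : ℝ)| := abs_sub _ _
      _ ≤ B + R * B := add_le_add h2 h4
      _ ≤ (n + 2) * B := by nlinarith
  · have e1 : cst (fun a => ∑ i, ⌊s * c i⌋ * z i a)
        = s • cst y - ∑ i, Int.fract (s * c i) • cst (z i) := by
      rw [← hc, Finset.smul_sum, ← Finset.sum_sub_distrib]
      funext a
      simp only [cst, Finset.sum_apply, Pi.sub_apply, Pi.smul_apply, smul_eq_mul]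
      push_cast
      refine Finset.sum_congr rfl fun i _ => ?_
      have h3 : (⌊s * c i⌋ : ℝ) = s * c i - Int.fract (s * c i) := by
        have := Int.floor_add_fract (s * c i)
        linarith
      rw [h3, ← hzf i]
      simp only [cst]
      ring
    rw [e1, map_sub, map_smul, map_sum, smul_eq_mul]
    have e2 : s * lf α (cst y) - ∑ i, lf α (Int.fract (s * c i) • cst (z i))
        - s * lf α (cst y) = - ∑ i, Int.fract (s * c i) * lf α (cst (z i)) := by
      simp only [map_smul, smul_eq_mul]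
      ring
    rw [e2, abs_neg]
    calc |∑ i, Int.fract (s * c i) * lf α (cst (z i))|
        ≤ ∑ i, |Int.fract (s * c i) * lf α (cst (z i))| := Finset.abs_sum_le_sum_abs _ _
      _ ≤ ∑ _i : Fin R, η := by
          refine Finset.sum_le_sum fun i _ => ?_
          rw [abs_mul, abs_of_nonneg (Int.fract_nonneg _)]
          calc Int.fract (s * c i) * |lf α (cst (z i))| ≤ 1 * η :=
                mul_le_mul (Int.fract_lt_one _).le (mem_Kf.1 (hz i)).2 (abs_nonneg _) zero_le_one
            _ = η := one_mul _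
      _ = R * η := by simp
      _ ≤ (n + 1) * η := mul_le_mul_of_nonneg_right (by exact_mod_cast hRle) hη

/-- **The gap lemma.** -/
theorem gap {n : ℕ} (α : Fin n → ℝ) (B : ℕ) {η ε₀ ε₂ : ℝ} (hη : 0 ≤ η) {y : Fin (n + 1) → ℤ}
    (hy : cst y ∈ Submodule.span ℝ (cst '' (Kf α B η : Set (Fin (n + 1) → ℤ))))
    (hyB : ∀ l : Fin n, |y l.succ| ≤ (B:ℤ)) (M : ℤ) (v : Fin n → ℤ)
    (h0 : ∀ l, |(M:ℝ) * α l - v l| * B ≤ ε₀) (h2 : |(M:ℝ)| * η ≤ ε₂)
    (hε : n * (n + 2) * ε₀ + (n + 1) * ε₂ < 1 / 2) :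
    |(M:ℝ) * lf α (cst y)| ≤ n * (n + 2) * ε₀ + (n + 1) * ε₂ := by
  set ε₃ := n * (n + 2) * ε₀ + (n + 1) * ε₂ with hε₃
  by_contra hcon
  push Not at hcon
  set Y := (M:ℝ) * lf α (cst y) with hY
  have hY0 : 0 ≤ |Y| := abs_nonneg _
  set t := min |Y| (1 / 2) with ht
  have ht0 : 0 ≤ t := le_min hY0 (by norm_num)
  have ht1 : t ≤ 1 / 2 := min_le_right _ _
  have htε : ε₃ < t := lt_min hcon hε
  obtain ⟨s, hs0, hs1, hsY⟩ : ∃ s : ℝ, 0 ≤ s ∧ s ≤ 1 ∧ |s * Y| = t := by
    rcases hY0.eq_or_lt with h | h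
    · refine ⟨0, le_rfl, zero_le_one, ?_⟩
      rw [zero_mul, abs_zero, ht, ← h]
      norm_num
    · refine ⟨t / |Y|, by positivity, ?_, ?_⟩
      · rw [div_le_one h]
        exact min_le_left _ _
      · rw [abs_mul, abs_of_nonneg (by positivity : 0 ≤ t / |Y|)]
        field_simp
  obtain ⟨w, hw1, hw2⟩ := round α B hη hy hyB s hs0 hs1
  set I : ℤ := M * w 0 + ∑ l, w l.succ * v l with hI
  have e1 : |(M:ℝ) * lf α (cst w) - I| ≤ n * (n + 2) * ε₀ := by
    have e2 : (M:ℝ) * lf α (cst w) - I = ∑ l, (w l.succ : ℝ) * ((M:ℝ) * α l - v l) := by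
      rw [lf_apply, hI]
      push_cast
      simp only [mul_sub, Finset.sum_sub_distrib, cst]
      rw [mul_add, Finset.mul_sum]
      have : ∑ l, (M:ℝ) * (α l * w l.succ) = ∑ l, (w l.succ : ℝ) * (M * α l) :=
        Finset.sum_congr rfl fun l _ => by ring
      rw [this]
      ring
    rw [e2]
    calc |∑ l, (w l.succ : ℝ) * ((M:ℝ) * α l - v l)|
        ≤ ∑ l, |(w l.succ : ℝ) * ((M:ℝ) * α l - v l)| := Finset.abs_sum_le_sum_abs _ _
      _ ≤ ∑ _l : Fin n, (n + 2) * ε₀ := by
          refine Finset.sum_le_sum fun l _ => ?_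
          rw [abs_mul]
          calc |(w l.succ : ℝ)| * |(M:ℝ) * α l - v l|
              ≤ ((n + 2) * B) * |(M:ℝ) * α l - v l| :=
                mul_le_mul_of_nonneg_right (hw1 l) (abs_nonneg _)
            _ = (n + 2) * (|(M:ℝ) * α l - v l| * B) := by ring
            _ ≤ (n + 2) * ε₀ := mul_le_mul_of_nonneg_left (h0 l) (by positivity)
      _ = n * (n + 2) * ε₀ := by simp; ring
  have e2 : |(M:ℝ) * lf α (cst w) - s * Y| ≤ (n + 1) * ε₂ := by
    have : (M:ℝ) * lf α (cst w) - s * Y = M * (lf α (cst w) - s * lf α (cst y)) := by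
      rw [hY]
      ring
    rw [this, abs_mul]
    calc |(M:ℝ)| * |lf α (cst w) - s * lf α (cst y)| ≤ |(M:ℝ)| * ((n + 1) * η) :=
          mul_le_mul_of_nonneg_left hw2 (abs_nonneg _)
      _ = (n + 1) * (|(M:ℝ)| * η) := by ring
      _ ≤ (n + 1) * ε₂ := mul_le_mul_of_nonneg_left h2 (by positivity)
  have e3 : |s * Y - I| ≤ ε₃ := by
    have : s * Y - I = ((M:ℝ) * lf α (cst w) - I) - ((M:ℝ) * lf α (cst w) - s * Y) := by ring
    rw [this]
    exact (abs_sub _ _).trans (add_le_add e1 e2)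
  by_cases hI0 : I = 0
  · rw [hI0, Int.cast_zero, sub_zero, hsY] at e3
    linarith
  · have h1 : (1:ℝ) ≤ |(I:ℝ)| := by
      have : (1:ℤ) ≤ |I| := Int.one_le_abs hI0
      exact_mod_cast this
    have h3 := abs_sub_abs_le_abs_sub (I:ℝ) (s * Y)
    rw [abs_sub_comm] at h3
    rw [hsY] at h3
    linarith

/-- translates of `K` -/
theorem translates {n : ℕ} (α : Fin n → ℝ) (B : ℕ) {η : ℝ} (hη : 0 < η) {y : Fin (n + 1) → ℤ}
    (hy : cst y ∈ Submodule.span ℝ (cst '' (Kf α B η : Set (Fin (n + 1) → ℤ))))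
    (hyB : ∀ l : Fin n, |y l.succ| ≤ (B:ℤ)) (J : ℕ)
    (hJ : J * ((2 * n + 5) * η) ≤ |lf α (cst y)|) :
    (J + 1) * (Kf α B η).card ≤ (Kf α ((n + 3) * B) ((J + 1) * ((2 * n + 5) * η))).card := by
  classical
  set Y := lf α (cst y) with hY
  set a : ℝ := (2 * n + 5) * η with ha
  have ha0 : 0 < a := by positivity
  have hw : ∀ j : ℕ, ∃ w : Fin (n + 1) → ℤ, j ≤ J →
      (∀ l : Fin n, |(w l.succ : ℝ)| ≤ (n + 2) * B) ∧
      |lf α (cst w) - SignType.sign Y * (j * a)| ≤ (n + 1) * η := by
    intro j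
    by_cases hj : j ≤ J
    · have hjY : j * a ≤ |Y| := by
        refine le_trans ?_ hJ
        exact mul_le_mul_of_nonneg_right (by exact_mod_cast hj) ha0.le
      obtain ⟨w, hw1, hw2⟩ := round α B hη.le hy hyB (j * a / |Y|) (by positivity)
        (div_le_one_of_le₀ hjY (abs_nonneg _))
      refine ⟨w, fun _ => ⟨hw1, ?_⟩⟩
      rcases eq_or_ne Y 0 with h | h
      · rw [h] at hw2 hjY ⊢
        have : j * a = 0 := le_antisymm (by simpa using hjY) (by positivity)
        rw [this]
        simpa using hw2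
      · have hYp : 0 < |Y| := abs_pos.2 h
        have : j * a / |Y| * Y = SignType.sign Y * (j * a) := by
          have h1 : Y = SignType.sign Y * |Y| := (sign_mul_abs Y).symm
          calc j * a / |Y| * Y = j * a / |Y| * (SignType.sign Y * |Y|) := by rw [← h1]
            _ = SignType.sign Y * (j * a) := by field_simp
        rw [← this]
        exact hw2
    · exact ⟨0, fun h => absurd h hj⟩
  choose w hw using hw
  have h1 : (Finset.range (J + 1) ×ˢ Kf α B η).card = (J + 1) * (Kf α B η).card := by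
    rw [Finset.card_product, Finset.card_range]
  rw [← h1]
  have hval : ∀ j ≤ J, ∀ z ∈ Kf α B η,
      |lf α (cst (w j + z)) - SignType.sign Y * (j * a)| ≤ (n + 2) * η := by
    intro j hj z hz
    have h2 := (hw j hj).2
    have h3 := (mem_Kf.1 hz).2
    rw [cst_add, map_add]
    have : lf α (cst (w j)) + lf α (cst z) - SignType.sign Y * (j * a)
        = (lf α (cst (w j)) - SignType.sign Y * (j * a)) + lf α (cst z) := by ring
    rw [this]
    calc _ ≤ (n + 1) * η + η := (abs_add_le _ _).trans (add_le_add h2 h3)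
      _ = (n + 2) * η := by ring
  have hsgn : |((SignType.sign Y : SignType) : ℝ)| ≤ 1 := by
    rcases lt_trichotomy Y 0 with h | h | h
    · simp [sign_neg h]
    · simp [h]
    · simp [sign_pos h]
  refine Finset.card_le_card_of_injOn (fun q => w q.1 + q.2) ?_ ?_
  · rintro ⟨j, z⟩ hq
    rw [Finset.mem_coe, Finset.mem_product, Finset.mem_range] at hq
    obtain ⟨hj, hz⟩ := hq
    simp only at hj hz
    have hj' : j ≤ J := by omega
    rw [Finset.mem_coe, mem_Kf]
    constructor
    · intro l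
      have h2 := (hw j hj').1 l
      have h3 := (mem_Kf.1 hz).1 l
      have h4 : |((w j l.succ + z l.succ : ℤ) : ℝ)| ≤ ((n + 3) * B : ℕ) := by
        push_cast
        have h5 : |(z l.succ : ℝ)| ≤ B := by
          rw [← Int.cast_abs]
          exact_mod_cast h3
        calc |(w j l.succ : ℝ) + z l.succ| ≤ (n + 2) * B + B :=
              (abs_add_le _ _).trans (add_le_add h2 h5)
          _ = (n + 3) * B := by ring
      rw [← Int.cast_abs] at h4
      show |w j l.succ + z l.succ| ≤ (((n + 3) * B : ℕ) : ℤ)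
      exact_mod_cast h4
    · show |lf α (cst (w j + z))| ≤ (J + 1) * a
      have h2 := hval j hj' z hz
      have h3 : |((SignType.sign Y : SignType) : ℝ) * (j * a)| ≤ j * a := by
        rw [abs_mul, abs_of_nonneg (by positivity : (0:ℝ) ≤ j * a)]
        calc _ ≤ 1 * (j * a) := mul_le_mul_of_nonneg_right hsgn (by positivity)
          _ = j * a := one_mul _
      have h4 : lf α (cst (w j + z)) = (lf α (cst (w j + z)) - SignType.sign Y * (j * a))
          + SignType.sign Y * (j * a) := by ring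
      rw [h4]
      have h5 : (j:ℝ) * a ≤ J * a :=
        mul_le_mul_of_nonneg_right (by exact_mod_cast hj') ha0.le
      calc _ ≤ (n + 2) * η + j * a := (abs_add_le _ _).trans (add_le_add h2 h3)
        _ ≤ (J + 1) * a := by nlinarith
  · rintro ⟨j, z⟩ hq ⟨j', z'⟩ hq' h
    rw [Finset.mem_coe, Finset.mem_product, Finset.mem_range] at hq hq'
    obtain ⟨hj, hz⟩ := hq
    obtain ⟨hj', hz'⟩ := hq'
    simp only at hj hz hj' hz' h
    have h2 := hval j (by omega) z hz
    have h3 := hval j' (by omega) z' hz'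
    rw [h] at h2
    have hjj : j = j' := by
      by_contra hne
      rcases eq_or_ne Y 0 with h0 | h0
      · have hJ0 : (J:ℝ) * a ≤ 0 := by
          rw [h0, abs_zero] at hJ
          exact hJ
        have hJ1 : (J:ℝ) ≤ 0 := by
          by_contra hc
          push Not at hc
          have := mul_pos hc ha0
          linarith
        have hJ2 : J = 0 := by
          have : (J:ℝ) = 0 := le_antisymm hJ1 (by positivity)
          exact_mod_cast this
        omega
      · have hs1 : |((SignType.sign Y : SignType) : ℝ)| = 1 := by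
          rcases lt_or_gt_of_ne h0 with h | h
          · simp [sign_neg h]
          · simp [sign_pos h]
        have h4 : |((SignType.sign Y : SignType) : ℝ) * (j * a)
            - SignType.sign Y * (j' * a)| ≤ 2 * ((n + 2) * η) := by
          have : ((SignType.sign Y : SignType) : ℝ) * (j * a) - SignType.sign Y * (j' * a)
              = (lf α (cst (w j' + z')) - SignType.sign Y * (j' * a))
                - (lf α (cst (w j' + z')) - SignType.sign Y * (j * a)) := by ring
          rw [this]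
          calc _ ≤ (n + 2) * η + (n + 2) * η := (abs_sub _ _).trans (add_le_add h3 h2)
            _ = _ := by ring
        rw [← mul_sub, ← sub_mul, abs_mul, abs_mul, hs1, one_mul, abs_of_pos ha0] at h4
        have h5 : (1:ℝ) ≤ |(j:ℝ) - j'| := by
          have : (1:ℤ) ≤ |(j:ℤ) - j'| := Int.one_le_abs (by omega)
          exact_mod_cast this
        have h6 : a ≤ |(j:ℝ) - j'| * a := by
          calc a = 1 * a := (one_mul a).symm
            _ ≤ _ := mul_le_mul_of_nonneg_right h5 ha0.le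
        rw [ha] at h6 h4
        nlinarith
    subst hjj
    have : z = z' := add_left_cancel h
    rw [this]

end Q85.ZR
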