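import Mathlib
import Pool.Agent.Q85.ZR.G

set_option autoImplicit false

/-!
# The gaps of a slope
-/

namespace Q85.ZR

open Finset Q85.ZE

section

variable {n : ℕ} (α : Fin n → ℝ) (b m N : ℕ)

/-- the integer vectors at the level `u` -/
noncomputable def Ku (u : ℕ) : Finset (Fin (n + 1) → ℤ) := Kf α (b ^ m) (((b:ℝ) ^ u)⁻¹)

/-- their span -/
noncomputable def Vu (u : ℕ) : Submodule ℝ (Fin (n + 1) → ℝ) :=
  Submodule.span ℝ (cst '' (Ku α b m u : Set (Fin (n + 1) → ℤ)))

/-- their rank -/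
noncomputable def rk (u : ℕ) : ℕ := Module.finrank ℝ (Vu α b m u)

/-- some vector of the span has a larger value -/
def Gd (u : ℕ) : Prop := ∃ y : Fin (n + 1) → ℤ, cst y ∈ Vu α b m (u + 1) ∧
  (∀ l : Fin n, |y l.succ| ≤ ((b ^ m : ℕ) : ℤ)) ∧ ((b:ℝ) ^ (u + 1))⁻¹ < |lf α (cst y)|

open scoped Classical in
/-- number of levels with a larger rank -/
noncomputable def eR (R : ℕ) : ℕ := ((Finset.range N).filter fun u => R < rk α b m (u + 1)).card

open scoped Classical in
theorem lo_ex (k : ℕ) : ∃ u, eR α b m N (k + 1) ≤ u ∧ (eR α b m N k ≤ u ∨ Gd α b m u) :=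
  ⟨max (eR α b m N (k + 1)) (eR α b m N k), le_max_left _ _, Or.inl (le_max_right _ _)⟩

open scoped Classical in
/-- the beginning of a gap -/
noncomputable def lo (k : ℕ) : ℕ := Nat.find (lo_ex α b m N k)

variable {α b m N}

theorem inv_anti (hb : 1 ≤ b) {u u' : ℕ} (h : u ≤ u') : ((b:ℝ) ^ u')⁻¹ ≤ ((b:ℝ) ^ u)⁻¹ := by
  have : (1:ℝ) ≤ b := by exact_mod_cast hb
  exact inv_anti₀ (by positivity) (pow_le_pow_right₀ this h)

theorem Ku_mono (hb : 1 ≤ b) {u u' : ℕ} (h : u ≤ u') : Ku α b m u' ⊆ Ku α b m u :=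
  Kf_mono α _ (inv_anti hb h)

theorem Vu_mono (hb : 1 ≤ b) {u u' : ℕ} (h : u ≤ u') : Vu α b m u' ≤ Vu α b m u :=
  Submodule.span_mono (Set.image_mono (Finset.coe_subset.2 (Ku_mono hb h)))

theorem rk_mono (hb : 1 ≤ b) {u u' : ℕ} (h : u ≤ u') : rk α b m u' ≤ rk α b m u :=
  Submodule.finrank_mono (Vu_mono hb h)

theorem rk_le (u : ℕ) : rk α b m u ≤ n + 1 := by
  have := Submodule.finrank_le (Vu α b m u)
  rwa [Module.finrank_fin_fun] at this

/-- initial segments -/
theorem card_initial {P : ℕ → Prop} [DecidablePred P] (hP : ∀ u u', u ≤ u' → P u' → P u) (N : ℕ) :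
    ∀ u < N, P u ↔ u < ((Finset.range N).filter P).card := by
  intro u hu
  constructor
  · intro h
    have h1 : Finset.range (u + 1) ⊆ (Finset.range N).filter P := by
      intro w hw
      rw [Finset.mem_range] at hw
      rw [Finset.mem_filter, Finset.mem_range]
      exact ⟨by omega, hP w u (by omega) h⟩
    have h2 := Finset.card_le_card h1
    rw [Finset.card_range] at h2
    omega
  · intro h
    by_contra hcon
    have h1 : (Finset.range N).filter P ⊆ Finset.range u := by
      intro w hw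
      rw [Finset.mem_filter] at hw
      rw [Finset.mem_range]
      by_contra hc
      exact hcon (hP u w (by omega) hw.2)
    have h2 := Finset.card_le_card h1
    rw [Finset.card_range] at h2
    omega

theorem eR_spec (hb : 1 ≤ b) (R : ℕ) {u : ℕ} (hu : u < N) :
    R < rk α b m (u + 1) ↔ u < eR α b m N R := by
  classical
  unfold eR
  convert card_initial (P := fun u => R < rk α b m (u + 1))
    (fun u u' h h' => h'.trans_le (rk_mono hb (by omega))) N u hu

theorem eR_le (R : ℕ) : eR α b m N R ≤ N := by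
  classical
  unfold eR
  refine (Finset.card_filter_le _ _).trans ?_
  rw [Finset.card_range]

theorem eR_anti (R : ℕ) : eR α b m N (R + 1) ≤ eR α b m N R := by
  classical
  unfold eR
  refine Finset.card_le_card fun u hu => ?_
  rw [Finset.mem_filter] at hu ⊢
  exact ⟨hu.1, by omega⟩

theorem eR_anti' {R R' : ℕ} (h : R ≤ R') : eR α b m N R' ≤ eR α b m N R := by
  induction R', h using Nat.le_induction with
  | base => exact le_rfl
  | succ k hk ih => exact (eR_anti k).trans ih

theorem eR_top : eR α b m N (n + 1) = 0 := by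
  classical
  unfold eR
  rw [Finset.card_eq_zero, Finset.filter_eq_empty_iff]
  intro u _
  have := rk_le (α := α) (b := b) (m := m) (u + 1)
  omega

theorem lo_ge (k : ℕ) : eR α b m N (k + 1) ≤ lo α b m N k := by
  classical
  exact (Nat.find_spec (lo_ex α b m N k)).1

theorem lo_le (k : ℕ) : lo α b m N k ≤ eR α b m N k := by
  classical
  exact Nat.find_min' (lo_ex α b m N k) ⟨eR_anti k, Or.inl le_rfl⟩

theorem lo_gd (k : ℕ) (h : lo α b m N k < eR α b m N k) : Gd α b m (lo α b m N k) := by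
  classical
  rcases (Nat.find_spec (lo_ex α b m N k)).2 with h1 | h1
  · exact absurd h (not_lt.2 h1)
  · exact h1

theorem lo_before (k : ℕ) {u : ℕ} (h1 : eR α b m N (k + 1) ≤ u) (h2 : u < lo α b m N k) :
    ¬ Gd α b m u := by
  classical
  intro h
  exact Nat.find_min (lo_ex α b m N k) h2 ⟨h1, Or.inr h⟩

theorem stretch (hb : 1 ≤ b) (k : ℕ) {u : ℕ} (h1 : eR α b m N (k + 1) ≤ u)
    (h2 : u < eR α b m N k) : rk α b m (u + 1) = k + 1 := by
  have hu : u < N := h2.trans_le (eR_le k)
  have a1 := (eR_spec hb k hu).2 h2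
  have a2 : ¬ k + 1 < rk α b m (u + 1) := fun h => absurd ((eR_spec hb (k + 1) hu).1 h)
    (not_lt.2 h1)
  omega

theorem Vu_eq (hb : 1 ≤ b) (k : ℕ) {u u' : ℕ} (h1 : eR α b m N (k + 1) ≤ u) (h2 : u ≤ u')
    (h3 : u' < eR α b m N k) : Vu α b m (u' + 1) = Vu α b m (u + 1) := by
  refine Submodule.eq_of_le_of_finrank_eq (Vu_mono hb (by omega)) ?_
  have a1 := stretch hb k h1 (by omega : u < eR α b m N k)
  have a2 := stretch hb k (by omega : eR α b m N (k + 1) ≤ u') h3
  unfold rk at a1 a2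
  rw [a1, a2]

/-- the vector which belongs to a gap -/
theorem gap_vec (hb : 1 ≤ b) (k : ℕ) (h : lo α b m N k < eR α b m N k) :
    ∃ y : Fin (n + 1) → ℤ, cst y ∈ Vu α b m (eR α b m N k) ∧
      (∀ l : Fin n, |y l.succ| ≤ ((b ^ m : ℕ) : ℤ)) ∧
      ((b:ℝ) ^ (lo α b m N k + 1))⁻¹ < |lf α (cst y)| := by
  obtain ⟨y, h1, h2, h3⟩ := lo_gd k h
  refine ⟨y, ?_, h2, h3⟩
  have h4 := Vu_eq hb k (lo_ge k) (by omega : lo α b m N k ≤ eR α b m N k - 1) (by omega)
  have h5 : eR α b m N k - 1 + 1 = eR α b m N k := by omega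
  rw [h5] at h4
  rw [h4]
  exact h1

theorem mono_card (hb : 1 ≤ b) {v v' : ℕ} (h : v ≤ v') :
    (Ku α b m v').card ≤ (Ku α b m v).card := Finset.card_le_card (Ku_mono hb h)

theorem drop_card (hb : 1 ≤ b) {v v' : ℕ} (h : v ≤ v') :
    (Ku α b m v).card ≤ 2 ^ n * (2 * b ^ (v' - v) + 1) * (Ku α b m v').card := by
  have hbr : (0:ℝ) < b := by exact_mod_cast hb
  have h1 := Kf_card α (b ^ m) (C := 1) le_rfl (b ^ (v' - v)) (η := ((b:ℝ) ^ v')⁻¹) (by positivity)
  rw [one_mul, mul_one] at h1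
  have e : ((b ^ (v' - v) : ℕ) : ℝ) * ((b:ℝ) ^ v')⁻¹ = ((b:ℝ) ^ v)⁻¹ := by
    have : (b:ℝ) ^ v' = (b:ℝ) ^ (v' - v) * (b:ℝ) ^ v := by
      rw [← pow_add]
      congr 1
      omega
    rw [this]
    push_cast
    field_simp
  rw [e] at h1
  exact h1

theorem card_zero : b ^ (m * n) ≤ (Ku α b m 0).card := by
  have h1 : (ZE.box n (b ^ m)).card = b ^ (m * n) := by
    unfold ZE.box
    rw [Fintype.card_piFinset]
    simp only [Int.card_Ico, sub_zero, Int.toNat_natCast, Finset.prod_const, Finset.card_univ,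
      Fintype.card_fin]
    rw [pow_mul]
  rw [← h1]
  refine Finset.card_le_card_of_injOn
    (fun w => Fin.cons (-⌊∑ l, α l * (w l : ℝ)⌋) w) ?_ ?_
  · intro w hw
    rw [Finset.mem_coe, mem_box] at hw
    rw [Finset.mem_coe]
    unfold Ku
    rw [mem_Kf]
    constructor
    · intro l
      show |w l| ≤ ((b ^ m : ℕ) : ℤ)
      obtain ⟨a1, a2⟩ := hw l
      rw [abs_of_nonneg a1]
      exact a2.le
    · rw [lf_apply]
      have e : cst (Fin.cons (-⌊∑ l, α l * (w l : ℝ)⌋) w : Fin (n + 1) → ℤ) 0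
          + ∑ l, α l * cst (Fin.cons (-⌊∑ l, α l * (w l : ℝ)⌋) w : Fin (n + 1) → ℤ) l.succ
          = Int.fract (∑ l, α l * (w l : ℝ)) := by
        simp only [cst, Fin.cons_zero, Fin.cons_succ, Int.cast_neg]
        have := Int.floor_add_fract (∑ l, α l * (w l : ℝ))
        linarith
      rw [e, pow_zero, inv_one, abs_of_nonneg (Int.fract_nonneg _)]
      exact (Int.fract_lt_one _).le
  · intro w _ w' _ h
    funext l
    have := congrFun h l.succ
    simpa using this

/-- the constants -/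
def C1 (n b : ℕ) : ℕ := 3 * 2 ^ n * (2 ^ n * (2 * b + 1))

/-- one gap -/
theorem window_up (hb : 1 ≤ b) (k : ℕ) :
    (Ku α b m (eR α b m N (k + 1))).card ≤
      C1 n b * b ^ (eR α b m N k - lo α b m N k) * (Ku α b m (eR α b m N k)).card := by
  have h1 : (Ku α b m (eR α b m N (k + 1))).card
      ≤ 2 ^ n * (2 * b + 1) * (Ku α b m (lo α b m N k)).card := by
    rcases (lo_ge (α := α) (b := b) (m := m) (N := N) k).eq_or_lt with h | h
    · rw [h]
      refine Nat.le_mul_of_pos_left _ ?_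
      positivity
    · have h2 := drop_card (α := α) (m := m) hb
        (by omega : eR α b m N (k + 1) ≤ eR α b m N (k + 1) + 1)
      have e : eR α b m N (k + 1) + 1 - eR α b m N (k + 1) = 1 := by omega
      rw [e, pow_one] at h2
      refine h2.trans (Nat.mul_le_mul_left _ (Finset.card_le_card ?_))
      intro z hz
      have hz' := hz
      unfold Ku at hz ⊢
      rw [mem_Kf] at hz ⊢
      refine ⟨hz.1, ?_⟩
      by_contra hcon
      push Not at hcon
      have hlt : lo α b m N k - 1 < lo α b m N k := by omega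
      refine lo_before k (u := lo α b m N k - 1) (by omega) hlt ⟨z, ?_, hz.1, ?_⟩
      · have h3 : lo α b m N k - 1 < eR α b m N k := hlt.trans_le (lo_le k)
        rw [Vu_eq hb k le_rfl (by omega) h3]
        exact Submodule.subset_span ⟨z, hz', rfl⟩
      · have h5 : lo α b m N k - 1 + 1 = lo α b m N k := by omega
        rw [h5]
        exact hcon
  have h2 := drop_card (α := α) (m := m) hb (lo_le (α := α) (b := b) (m := m) (N := N) k)
  set g := eR α b m N k - lo α b m N k with hg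
  have h3 : 2 * b ^ g + 1 ≤ 3 * b ^ g := by
    have : 1 ≤ b ^ g := Nat.one_le_pow _ _ hb
    omega
  calc (Ku α b m (eR α b m N (k + 1))).card
      ≤ 2 ^ n * (2 * b + 1) * (Ku α b m (lo α b m N k)).card := h1
    _ ≤ 2 ^ n * (2 * b + 1) * (2 ^ n * (2 * b ^ g + 1) * (Ku α b m (eR α b m N k)).card) :=
        Nat.mul_le_mul_left _ h2
    _ ≤ 2 ^ n * (2 * b + 1) * (2 ^ n * (3 * b ^ g) * (Ku α b m (eR α b m N k)).card) := by
        gcongr
    _ = _ := by
        unfold C1
        ring

theorem windows_up (hb : 1 ≤ b) : ∀ k : ℕ,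
    (Ku α b m (eR α b m N k)).card ≤ C1 n b ^ k *
      b ^ (∑ j ∈ Finset.range k, (eR α b m N j - lo α b m N j)) * (Ku α b m (eR α b m N 0)).card →
    (Ku α b m (eR α b m N (k + 1))).card ≤ C1 n b ^ (k + 1) *
      b ^ (∑ j ∈ Finset.range (k + 1), (eR α b m N j - lo α b m N j))
        * (Ku α b m (eR α b m N 0)).card := by
  intro k ih
  refine (window_up hb k).trans ?_
  rw [Finset.sum_range_succ, pow_add, pow_succ]
  calc C1 n b * b ^ (eR α b m N k - lo α b m N k) * (Ku α b m (eR α b m N k)).card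
      ≤ C1 n b * b ^ (eR α b m N k - lo α b m N k) * (C1 n b ^ k *
      b ^ (∑ j ∈ Finset.range k, (eR α b m N j - lo α b m N j))
        * (Ku α b m (eR α b m N 0)).card) := Nat.mul_le_mul_left _ ih
    _ = _ := by ring

/-- **the total length of the gaps is large** -/
theorem S1 (hb : 1 ≤ b) : b ^ (m * n) ≤ C1 n b ^ (n + 2) *
      b ^ (∑ j ∈ Finset.range (n + 1), (eR α b m N j - lo α b m N j)) * (Ku α b m N).card := by
  have h1 : ∀ k : ℕ, (Ku α b m (eR α b m N k)).card ≤ C1 n b ^ k *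
      b ^ (∑ j ∈ Finset.range k, (eR α b m N j - lo α b m N j))
        * (Ku α b m (eR α b m N 0)).card := by
    intro k
    induction k with
    | zero => simp
    | succ k ih => exact windows_up hb k ih
  have h2 := h1 (n + 1)
  rw [eR_top] at h2
  have h3 : (Ku α b m (eR α b m N 0)).card ≤ C1 n b * (Ku α b m N).card := by
    have hC : 2 ^ n * (2 * b + 1) ≤ C1 n b := by
      unfold C1
      refine Nat.le_mul_of_pos_left _ ?_
      positivity
    have hN1 : 1 ≤ (Ku α b m N).card := by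
      refine Finset.card_pos.2 ⟨0, zero_mem α _ ?_⟩
      positivity
    rcases (eR_le (α := α) (b := b) (m := m) (N := N) 0).eq_or_lt with h | h
    · rw [h]
      refine Nat.le_mul_of_pos_left _ ?_
      unfold C1
      positivity
    · have h4 := drop_card (α := α) (m := m) hb
        (by omega : eR α b m N 0 ≤ eR α b m N 0 + 1)
      have e : eR α b m N 0 + 1 - eR α b m N 0 = 1 := by omega
      rw [e, pow_one] at h4
      have h5 : rk α b m (eR α b m N 0 + 1) = 0 := by
        by_contra hne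
        exact absurd ((eR_spec hb 0 h).1 (Nat.pos_of_ne_zero hne)) (lt_irrefl _)
      have h6 : Ku α b m (eR α b m N 0 + 1) ⊆ {0} := by
        intro z hz
        unfold rk at h5
        have h7 : Vu α b m (eR α b m N 0 + 1) = ⊥ := Submodule.finrank_eq_zero.1 h5
        have h8 : cst z ∈ Vu α b m (eR α b m N 0 + 1) := Submodule.subset_span ⟨z, hz, rfl⟩
        rw [h7, Submodule.mem_bot] at h8
        rw [Finset.mem_singleton]
        refine cst_inj ?_
        rw [h8]
        funext i
        simp [cst]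
      have h7 := Finset.card_le_card h6
      rw [Finset.card_singleton] at h7
      calc (Ku α b m (eR α b m N 0)).card
          ≤ 2 ^ n * (2 * b + 1) * (Ku α b m (eR α b m N 0 + 1)).card := h4
        _ ≤ 2 ^ n * (2 * b + 1) * 1 := Nat.mul_le_mul_left _ h7
        _ ≤ C1 n b * (Ku α b m N).card := Nat.mul_le_mul hC hN1
  calc b ^ (m * n) ≤ (Ku α b m 0).card := card_zero
    _ ≤ C1 n b ^ (n + 1) * b ^ (∑ j ∈ Finset.range (n + 1), (eR α b m N j - lo α b m N j))
        * (Ku α b m (eR α b m N 0)).card := h2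
    _ ≤ C1 n b ^ (n + 1) * b ^ (∑ j ∈ Finset.range (n + 1), (eR α b m N j - lo α b m N j))
        * (C1 n b * (Ku α b m N).card) := Nat.mul_le_mul_left _ h3
    _ = _ := by ring

/-- the second constant -/
def C2 (n b : ℕ) : ℕ := b * (2 * n + 5) * ((2 * (n + 3)) ^ n * (2 * (2 * n + 6) + 1))

theorem C2_pos (hb : 1 ≤ b) : 1 ≤ C2 n b := by
  unfold C2
  have : 0 < b := hb
  have : 0 < b * (2 * n + 5) * ((2 * (n + 3)) ^ n * (2 * (2 * n + 6) + 1)) := by positivity
  exact this

theorem window_down (hb : 1 ≤ b) (k : ℕ) {v : ℕ} (h1 : lo α b m N k ≤ v)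
    (h2 : v ≤ eR α b m N k) : b ^ (eR α b m N k - v) * (Ku α b m (eR α b m N k)).card ≤
      C2 n b * (Ku α b m v).card := by
  rcases h2.eq_or_lt with h | h
  · rw [h, Nat.sub_self, pow_zero, one_mul]
    exact Nat.le_mul_of_pos_left _ (C2_pos hb)
  obtain ⟨y, hy1, hy2, hy3⟩ := gap_vec hb k (h1.trans_lt h)
  set hi := eR α b m N k with hhi
  have hbr : (1:ℝ) ≤ b := by exact_mod_cast hb
  have hb0 : (0:ℝ) < b := by linarith
  set η : ℝ := ((b:ℝ) ^ hi)⁻¹ with hη
  have hη0 : 0 < η := by positivity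
  set P : ℕ := b ^ (hi - v) with hP
  set J : ℕ := P / (b * (2 * n + 5)) with hJ
  have hPη : (P:ℝ) * η = ((b:ℝ) ^ v)⁻¹ := by
    have : (b:ℝ) ^ hi = (b:ℝ) ^ (hi - v) * (b:ℝ) ^ v := by
      rw [← pow_add]
      congr 1
      omega
    rw [hη, hP, this]
    push_cast
    field_simp
  have hJP : (J:ℝ) * (b * (2 * n + 5)) ≤ P := by
    have := Nat.div_mul_le_self P (b * (2 * n + 5))
    rw [← hJ] at this
    exact_mod_cast this
  have hJη : (J:ℝ) * ((2 * n + 5) * η) ≤ ((b:ℝ) ^ (v + 1))⁻¹ := by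
    have e : ((b:ℝ) ^ (v + 1))⁻¹ = (b:ℝ)⁻¹ * (P * η) := by
      rw [hPη, pow_succ, mul_inv, mul_comm]
    rw [e]
    calc (J:ℝ) * ((2 * n + 5) * η) = (b:ℝ)⁻¹ * (J * (b * (2 * n + 5)) * η) := by field_simp
      _ ≤ (b:ℝ)⁻¹ * (P * η) := by
          refine mul_le_mul_of_nonneg_left ?_ (by positivity)
          exact mul_le_mul_of_nonneg_right hJP hη0.le
  have hJ2 : (J:ℝ) * ((2 * n + 5) * η) ≤ |lf α (cst y)| :=
    (hJη.trans (inv_anti hb (by omega))).trans hy3.le
  have h3 := translates α (b ^ m) hη0 hy1 hy2 J hJ2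
  have h4 : ((J:ℝ) + 1) * ((2 * n + 5) * η) ≤ ((2 * n + 6 : ℕ) : ℝ) * ((b:ℝ) ^ v)⁻¹ := by
    have a1 : η ≤ ((b:ℝ) ^ v)⁻¹ := inv_anti hb h.le
    have a2 : ((b:ℝ) ^ (v + 1))⁻¹ ≤ ((b:ℝ) ^ v)⁻¹ := inv_anti hb (by omega)
    have a3 : (2 * (n:ℝ) + 5) * η ≤ (2 * n + 5) * ((b:ℝ) ^ v)⁻¹ :=
      mul_le_mul_of_nonneg_left a1 (by positivity)
    push_cast
    linarith
  have h5 := Finset.card_le_card (Kf_mono α ((n + 3) * b ^ m) h4)
  have h6 := Kf_card α (b ^ m) (C := n + 3) (by omega) (2 * n + 6) (η := ((b:ℝ) ^ v)⁻¹)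
    (by positivity)
  have h7 : P ≤ b * (2 * n + 5) * (J + 1) := by
    have := Nat.lt_mul_div_succ P (by positivity : 0 < b * (2 * n + 5))
    rw [← hJ] at this
    exact this.le
  calc P * (Ku α b m hi).card ≤ b * (2 * n + 5) * (J + 1) * (Ku α b m hi).card :=
        Nat.mul_le_mul_right _ h7
    _ = b * (2 * n + 5) * ((J + 1) * (Ku α b m hi).card) := by ring
    _ ≤ b * (2 * n + 5) * ((2 * (n + 3)) ^ n * (2 * (2 * n + 6) + 1) * (Ku α b m v).card) :=
        Nat.mul_le_mul_left _ (h3.trans (h5.trans h6))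
    _ = _ := by
        unfold C2
        ring

/-- the length of the gaps above `v` -/
noncomputable def Tl (α : Fin n → ℝ) (b m N k v : ℕ) : ℕ :=
  ∑ j ∈ Finset.range k, (eR α b m N j - max (lo α b m N j) v)

theorem S2_aux (hb : 1 ≤ b) : ∀ k v : ℕ, v ≤ N → eR α b m N k ≤ v →
    b ^ Tl α b m N k v * (Ku α b m N).card ≤ C2 n b ^ k * (Ku α b m v).card := by
  intro k
  induction k with
  | zero =>
    intro v hv _
    unfold Tl
    rw [Finset.range_zero, Finset.sum_empty, pow_zero, pow_zero, one_mul, one_mul]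
    exact mono_card hb hv
  | succ k ih =>
    intro v hv hev
    rcases le_or_gt (eR α b m N k) v with h | h
    · have e : Tl α b m N (k + 1) v = Tl α b m N k v := by
        unfold Tl
        rw [Finset.sum_range_succ]
        have : eR α b m N k - max (lo α b m N k) v = 0 := by omega
        rw [this, add_zero]
      rw [e]
      refine (ih v hv h).trans (Nat.mul_le_mul_right _ ?_)
      exact Nat.pow_le_pow_right (C2_pos hb) (by omega)
    · have e : Tl α b m N (k + 1) v = Tl α b m N k (eR α b m N k)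
          + (eR α b m N k - max (lo α b m N k) v) := by
        unfold Tl
        rw [Finset.sum_range_succ]
        congr 1
        refine Finset.sum_congr rfl fun j hj => ?_
        rw [Finset.mem_range] at hj
        have a1 := lo_ge (α := α) (b := b) (m := m) (N := N) j
        have a2 := eR_anti' (α := α) (b := b) (m := m) (N := N) (by omega : j + 1 ≤ k)
        omega
      have h1 := ih (eR α b m N k) (eR_le k) le_rfl
      have h2 := window_down (α := α) (m := m) (N := N) hb k
        (le_max_left _ v) (max_le (lo_le k) h.le)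
      have h3 := mono_card (α := α) (m := m) hb (le_max_right (lo α b m N k) v)
      rw [e, pow_add]
      calc b ^ Tl α b m N k (eR α b m N k) * b ^ (eR α b m N k - max (lo α b m N k) v)
            * (Ku α b m N).card
          = b ^ (eR α b m N k - max (lo α b m N k) v) *
            (b ^ Tl α b m N k (eR α b m N k) * (Ku α b m N).card) := by ring
        _ ≤ b ^ (eR α b m N k - max (lo α b m N k) v) *
            (C2 n b ^ k * (Ku α b m (eR α b m N k)).card) := Nat.mul_le_mul_left _ h1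
        _ = C2 n b ^ k * (b ^ (eR α b m N k - max (lo α b m N k) v)
              * (Ku α b m (eR α b m N k)).card) := by ring
        _ ≤ C2 n b ^ k * (C2 n b * (Ku α b m (max (lo α b m N k) v)).card) :=
            Nat.mul_le_mul_left _ h2
        _ ≤ C2 n b ^ k * (C2 n b * (Ku α b m v).card) := by gcongr
        _ = _ := by ring

/-- **the gaps above `v` are not longer than the number of vectors permits** -/
theorem S2 (hb : 1 ≤ b) {v : ℕ} (hv : v ≤ N) :
    b ^ Tl α b m N (n + 1) v * (Ku α b m N).card ≤ C2 n b ^ (n + 1) * (Ku α b m v).card :=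
  S2_aux hb (n + 1) v hv (by rw [eR_top]; omega)

end

end Q85.ZR
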