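import Mathlib
import Pool.Agent.Q85.ZR.H

set_option autoImplicit false

/-!
# Small dual vectors
-/

namespace Q85.ZR

open Finset Q85.ZE

open scoped Classical in
/-- the integer points of a subspace in a cube -/
noncomputable def pts {n : ℕ} (W : Submodule ℝ (Fin n → ℝ)) (B : ℕ) : Finset (Fin n → ℤ) :=
  (Fintype.piFinset fun _ => Finset.Icc (-(B:ℤ)) B).filter fun k => cst k ∈ W

theorem mem_pts {n : ℕ} {W : Submodule ℝ (Fin n → ℝ)} {B : ℕ} {k : Fin n → ℤ} :
    k ∈ pts W B ↔ (∀ l, |k l| ≤ (B:ℤ)) ∧ cst k ∈ W := by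
  classical
  unfold pts
  rw [Finset.mem_filter, Fintype.mem_piFinset]
  simp only [Finset.mem_Icc, abs_le]

theorem pts_card (B : ℕ) : ∀ (n : ℕ) (W : Submodule ℝ (Fin n → ℝ)),
    (pts W B).card ≤ (2 * B + 1) ^ Module.finrank ℝ W := by
  classical
  intro n
  induction n with
  | zero =>
    intro W
    have h1 : (pts W B).card ≤ 1 := Finset.card_le_one.2 fun a _ b _ => Subsingleton.elim a b
    exact h1.trans (Nat.one_le_pow _ _ (by omega))
  | succ n ih =>
    intro W
    set π : (Fin (n + 1) → ℝ) →ₗ[ℝ] (Fin n → ℝ) := LinearMap.funLeft ℝ ℝ Fin.succ with hπ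
    have hπa : ∀ w i, π w i = w i.succ := fun w i => rfl
    set W' := W.map π with hW'
    have hmaps : ∀ k ∈ pts W B, (fun i : Fin n => k i.succ) ∈ pts W' B := by
      intro k hk
      rw [mem_pts] at hk ⊢
      refine ⟨fun l => hk.1 _, ?_⟩
      refine ⟨cst k, hk.2, ?_⟩
      funext i
      rfl
    by_cases hker : ∀ w ∈ W, π w = 0 → w = 0
    · have h1 : (pts W B).card ≤ (pts W' B).card := by
        refine Finset.card_le_card_of_injOn (fun k => fun i : Fin n => k i.succ) hmaps ?_
        intro k hk k' hk' h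
        rw [Finset.mem_coe, mem_pts] at hk hk'
        have h2 := hker (cst k - cst k') (W.sub_mem hk.2 hk'.2) (by
          funext i
          rw [hπa]
          have := congrFun h i
          simp only at this
          simp [cst, this])
        exact cst_inj (sub_eq_zero.1 h2)
      refine h1.trans ((ih W').trans (Nat.pow_le_pow_right (by omega) ?_))
      exact Submodule.finrank_map_le π W
    · push Not at hker
      obtain ⟨w, hw, hw0, hwne⟩ := hker
      have h1 := LinearMap.finrank_range_add_finrank_ker (π.domRestrict W)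
      have h2 : LinearMap.range (π.domRestrict W) = W' := LinearMap.range_domRestrict W π
      rw [h2] at h1
      have h3 : 1 ≤ Module.finrank ℝ (LinearMap.ker (π.domRestrict W)) := by
        rw [Nat.one_le_iff_ne_zero]
        intro h4
        rw [Submodule.finrank_eq_zero] at h4
        have h5 : (⟨w, hw⟩ : W) ∈ LinearMap.ker (π.domRestrict W) := by
          rw [LinearMap.mem_ker]
          exact hw0
        rw [h4, Submodule.mem_bot] at h5
        exact hwne (congrArg Subtype.val h5)
      have h4 := Finset.card_le_mul_card_image (s := pts W B)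
        (f := fun k => fun i : Fin n => k i.succ) (2 * B + 1) (fun a _ => by
          have h5 : (Finset.Icc (-(B:ℤ)) B).card = 2 * B + 1 := by
            rw [Int.card_Icc]
            omega
          rw [← h5]
          refine Finset.card_le_card_of_injOn (fun k => k 0) ?_ ?_
          · intro k hk
            rw [Finset.mem_coe, Finset.mem_filter, mem_pts] at hk
            rw [Finset.mem_coe, Finset.mem_Icc]
            exact abs_le.1 (hk.1.1 0)
          · intro k hk k' hk' h
            rw [Finset.mem_coe, Finset.mem_filter] at hk hk'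
            have h6 := hk.2.trans hk'.2.symm
            funext i
            refine Fin.cases h (fun l => ?_) i
            exact congrFun h6 l)
      have h5 : ((pts W B).image (fun k => fun i : Fin n => k i.succ)).card
          ≤ (pts W' B).card := by
        refine Finset.card_le_card fun a ha => ?_
        rw [Finset.mem_image] at ha
        obtain ⟨k, hk, rfl⟩ := ha
        exact hmaps k hk
      calc (pts W B).card ≤ (2 * B + 1) * _ := h4
        _ ≤ (2 * B + 1) * (2 * B + 1) ^ Module.finrank ℝ W' :=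
            Nat.mul_le_mul_left _ (h5.trans (ih W'))
        _ = (2 * B + 1) ^ (Module.finrank ℝ W' + 1) := by rw [pow_succ, mul_comm]
        _ ≤ _ := Nat.pow_le_pow_right (by omega) (by omega)

/-- the dual vectors at the level `v` -/
def Tv {n : ℕ} (α : Fin n → ℝ) (b m v : ℕ) : Set (Fin n → ℤ) :=
  {w | (∀ i, |w i| ≤ ((b ^ m : ℕ) : ℤ)) ∧ ∃ z : ℤ, |(z:ℝ) + ∑ i, α i * w i| ≤ ((b:ℝ) ^ v)⁻¹}

/-- their span -/
noncomputable def Wv {n : ℕ} (α : Fin n → ℝ) (b m v : ℕ) : Submodule ℝ (Fin n → ℝ) :=
  Submodule.span ℝ (cst '' Tv α b m v)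

/-- their rank -/
noncomputable def rp {n : ℕ} (α : Fin n → ℝ) (b m v : ℕ) : ℕ := Module.finrank ℝ (Wv α b m v)

section

variable {n : ℕ} {α : Fin n → ℝ} {b m N : ℕ}

theorem Tv_mono (hb : 1 ≤ b) {v v' : ℕ} (h : v ≤ v') : Tv α b m v' ⊆ Tv α b m v := by
  rintro w ⟨h1, z, h2⟩
  exact ⟨h1, z, h2.trans (inv_anti hb h)⟩

theorem rp_mono (hb : 1 ≤ b) {v v' : ℕ} (h : v ≤ v') : rp α b m v' ≤ rp α b m v :=
  Submodule.finrank_mono (Submodule.span_mono (Set.image_mono (Tv_mono hb h)))

theorem rp_le (v : ℕ) : rp α b m v ≤ n := by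
  have := Submodule.finrank_le (Wv α b m v)
  rwa [Module.finrank_fin_fun] at this

theorem rp_zero (hb : 1 ≤ b) : rp α b m 0 = n := by
  have h1 : Wv α b m 0 = ⊤ := by
    rw [eq_top_iff, ← (Pi.basisFun ℝ (Fin n)).span_eq, Submodule.span_le]
    rintro _ ⟨l, rfl⟩
    refine Submodule.subset_span ⟨Pi.single l 1, ⟨fun i => ?_, ?_⟩, ?_⟩
    · have h2 : (1:ℤ) ≤ ((b ^ m : ℕ) : ℤ) := by exact_mod_cast Nat.one_le_pow _ _ hb
      by_cases hi : i = l
      · subst hi
        simpa using h2
      · rw [Pi.single_eq_of_ne hi, abs_zero]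
        linarith
    · refine ⟨-⌊∑ i, α i * ((Pi.single l 1 : Fin n → ℤ) i : ℝ)⌋, ?_⟩
      have h3 := Int.floor_add_fract (∑ i, α i * ((Pi.single l 1 : Fin n → ℤ) i : ℝ))
      have h4 : ((-⌊∑ i, α i * ((Pi.single l 1 : Fin n → ℤ) i : ℝ)⌋ : ℤ) : ℝ)
          + ∑ i, α i * ((Pi.single l 1 : Fin n → ℤ) i : ℝ)
          = Int.fract (∑ i, α i * ((Pi.single l 1 : Fin n → ℤ) i : ℝ)) := by
        push_cast
        linarith
      rw [h4, pow_zero, inv_one, abs_of_nonneg (Int.fract_nonneg _)]
      exact (Int.fract_lt_one _).le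
    · funext i
      rw [Pi.basisFun_apply]
      by_cases hi : i = l
      · subst hi
        simp [cst]
      · simp [cst, Pi.single_eq_of_ne hi]
  unfold rp
  rw [h1, finrank_top, Module.finrank_fin_fun]

theorem Ku_card_le (hb : 1 ≤ b) (v : ℕ) :
    (Ku α b m v).card ≤ 3 * (2 * b ^ m + 1) ^ rp α b m v := by
  classical
  have hη : ((b:ℝ) ^ v)⁻¹ ≤ 1 := by
    have : (1:ℝ) ≤ b := by exact_mod_cast hb
    exact inv_le_one_of_one_le₀ (one_le_pow₀ this)
  have h1 := Finset.card_le_mul_card_image (s := Ku α b m v)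
    (f := fun z => fun i : Fin n => z i.succ) 3 (fun a _ => by
      set c : ℝ := ∑ i, α i * a i with hc
      have h5 : (Finset.Icc ⌈-c - 1⌉ ⌊-c + 1⌋).card ≤ 3 := by
        rw [Int.card_Icc]
        have e : -c + 1 = (-c - 1) + ((2:ℤ) : ℝ) := by push_cast; ring
        rw [e, Int.floor_add_intCast]
        have := Int.floor_le_ceil (-c - 1)
        omega
      refine le_trans ?_ h5
      refine Finset.card_le_card_of_injOn (fun k => k 0) ?_ ?_
      · intro z hz
        rw [Finset.mem_coe, Finset.mem_filter] at hz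
        obtain ⟨hz1, hz2⟩ := hz
        unfold Ku at hz1
        rw [mem_Kf, lf_apply] at hz1
        have h6 : ∑ l, α l * cst z l.succ = c := by
          rw [hc]
          refine Finset.sum_congr rfl fun i _ => ?_
          rw [← hz2]
          rfl
        rw [h6] at hz1
        have h7 := abs_le.1 (hz1.2.trans hη)
        rw [Finset.mem_coe, Finset.mem_Icc, Int.ceil_le, Int.le_floor]
        simp only [cst] at h7
        constructor <;> linarith [h7.1, h7.2]
      · intro k hk k' hk' h
        rw [Finset.mem_coe, Finset.mem_filter] at hk hk'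
        have h6 := hk.2.trans hk'.2.symm
        funext i
        refine Fin.cases h (fun l => ?_) i
        exact congrFun h6 l)
  have h2 : ((Ku α b m v).image (fun z => fun i : Fin n => z i.succ)).card
      ≤ (pts (Wv α b m v) (b ^ m)).card := by
    refine Finset.card_le_card fun a ha => ?_
    rw [Finset.mem_image] at ha
    obtain ⟨z, hz, rfl⟩ := ha
    unfold Ku at hz
    rw [mem_Kf, lf_apply] at hz
    rw [mem_pts]
    exact ⟨hz.1, Submodule.subset_span ⟨_, ⟨hz.1, z 0, hz.2⟩, rfl⟩⟩
  exact h1.trans (Nat.mul_le_mul_left _ (h2.trans (pts_card _ _ _)))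

open scoped Classical in
/-- the last level where the rank is larger than `l` -/
noncomputable def jl (α : Fin n → ℝ) (b m N l : ℕ) : ℕ :=
  ((Finset.Icc 1 N).filter fun v => l < rp α b m v).card

theorem jl_le (l : ℕ) : jl α b m N l ≤ N := by
  classical
  unfold jl
  refine (Finset.card_filter_le _ _).trans ?_
  rw [Nat.card_Icc]
  omega

theorem jl_rank (hb : 1 ≤ b) {l : ℕ} (hl : l < n) : l < rp α b m (jl α b m N l) := by
  classical
  by_contra hcon
  push Not at hcon
  rcases Nat.eq_zero_or_pos (jl α b m N l) with h | h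
  · rw [h, rp_zero hb] at hcon
    omega
  · have h1 : (Finset.Icc 1 N).filter (fun v => l < rp α b m v)
        ⊆ Finset.Icc 1 (jl α b m N l - 1) := by
      intro v hv
      rw [Finset.mem_filter, Finset.mem_Icc] at hv
      rw [Finset.mem_Icc]
      refine ⟨hv.1.1, ?_⟩
      by_contra hc
      have h2 : jl α b m N l ≤ v := by omega
      have h3 := rp_mono (α := α) (m := m) hb h2
      omega
    have h2 := Finset.card_le_card h1
    rw [Nat.card_Icc] at h2
    have h3 : jl α b m N l = ((Finset.Icc 1 N).filter (fun v => l < rp α b m v)).card := rfl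
    rw [← h3] at h2
    omega

theorem jl_sum : ∑ l : Fin n, jl α b m N l = ∑ v ∈ Finset.Icc 1 N, rp α b m v := by
  classical
  have h1 : ∀ l : Fin n, jl α b m N l = ∑ v ∈ Finset.Icc 1 N, if (l:ℕ) < rp α b m v then 1 else 0 := by
    intro l
    unfold jl
    rw [Finset.card_filter]
  simp only [h1]
  rw [Finset.sum_comm]
  refine Finset.sum_congr rfl fun v _ => ?_
  have h2 := rp_le (α := α) (b := b) (m := m) v
  rw [Fin.sum_univ_eq_sum_range (fun l => if l < rp α b m v then 1 else 0) n,
    ← Finset.card_filter]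
  have h3 : (Finset.range n).filter (fun l => l < rp α b m v) = Finset.range (rp α b m v) := by
    ext l
    rw [Finset.mem_filter, Finset.mem_range, Finset.mem_range]
    omega
  rw [h3, Finset.card_range]

theorem tuple (hb : 1 ≤ b) : ∀ s : ℕ, s ≤ n → ∃ k : Fin s → Fin n → ℤ,
    LinearIndependent ℝ (fun l => cst (k l)) ∧ ∀ l : Fin s, k l ∈ Tv α b m (jl α b m N l) := by
  intro s
  induction s with
  | zero => exact fun _ => ⟨Fin.elim0, linearIndependent_empty_type, fun l => Fin.elim0 l⟩
  | succ s ih =>
    intro hs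
    obtain ⟨k, hk1, hk2⟩ := ih (by omega)
    have h1 : s < rp α b m (jl α b m N s) := jl_rank hb (by omega)
    have h2 : ∃ w ∈ Tv α b m (jl α b m N s), cst w ∉ Submodule.span ℝ (Set.range fun l => cst (k l)) := by
      by_contra hcon
      push Not at hcon
      have h3 : Wv α b m (jl α b m N s) ≤ Submodule.span ℝ (Set.range fun l => cst (k l)) := by
        unfold Wv
        rw [Submodule.span_le]
        rintro _ ⟨w, hw, rfl⟩
        exact hcon w hw
      have h4 := Submodule.finrank_mono h3
      rw [finrank_span_eq_card hk1, Fintype.card_fin] at h4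
      unfold rp at h1
      omega
    obtain ⟨w, hw1, hw2⟩ := h2
    refine ⟨Fin.snoc k w, ?_, ?_⟩
    · have : (fun l => cst ((Fin.snoc k w : Fin (s + 1) → Fin n → ℤ) l))
          = Fin.snoc (fun l => cst (k l)) (cst w) := by
        funext l
        refine Fin.lastCases ?_ (fun i => ?_) l
        · simp
        · simp
      rw [this, linearIndependent_finSnoc]
      exact ⟨hk1, hw2⟩
    · intro l
      refine Fin.lastCases ?_ (fun i => ?_) l
      · simpa using hw1
      · simpa using hk2 i

end

end Q85.ZR
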