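import Mathlib
import Pool.Agent.Q85.ZR.I
import Pool.Agent.Q85.ZE.C

set_option autoImplicit false

/-!
# The blocks of a line: the number of blocks at the end of a gap
-/

namespace Q85.ZR

open Finset Q85.ZE

theorem img_le_mul {ι α β : Type*} (G : Finset ι) (c : ι → α) (g : ι → β) (A K : ℕ)
    (hA : (img G c).card ≤ A) (hK : ∀ y ∈ G, (img (fib G c (c y)) g).card ≤ K) :
    (img G g).card ≤ A * K := by
  classical
  have h1 : img G g ⊆ (img G c).biUnion fun a => img (fib G c a) g := by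
    intro w hw
    obtain ⟨y, hy, rfl⟩ := mem_img.1 hw
    rw [Finset.mem_biUnion]
    exact ⟨c y, mem_img.2 ⟨y, hy, rfl⟩, mem_img.2 ⟨y, mem_fib.2 ⟨hy, rfl⟩, rfl⟩⟩
  refine (Finset.card_le_card h1).trans ((Finset.card_biUnion_le_card_mul _ _ K ?_).trans
    (Nat.mul_le_mul_right _ hA))
  intro a ha
  obtain ⟨y, hy, rfl⟩ := mem_img.1 ha
  exact hK y hy

theorem approx {n q K' L s : ℕ} (hq : 0 < q) (hK' : 0 < K') (P α : Fin n → ℝ)
    {X Z : Fin (n + 1) → ℤ} (hrel : rel q s X = rel q s Z)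
    (hcl : ∀ l, ⌊(K':ℝ) * (P l / s + (blk s X 0 : ℤ) * α l - (blk s X l.succ : ℤ) + L)⌋
      = ⌊(K':ℝ) * (P l / s + (blk s Z 0 : ℤ) * α l - (blk s Z l.succ : ℤ) + L)⌋) (l : Fin n) :
    |((blk (q * s) X 0 - blk (q * s) Z 0 : ℤ) : ℝ) * α l
      - ((blk (q * s) X l.succ - blk (q * s) Z l.succ : ℤ) : ℝ)| < 1 / ((q:ℝ) * K') := by
  have hqr : (0:ℝ) < q := by exact_mod_cast hq
  have hKr : (0:ℝ) < K' := by exact_mod_cast hK'
  have hdiff : ∀ a, blk s X a - blk s Z a = q * (blk (q * s) X a - blk (q * s) Z a) := by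
    intro a
    have h1 := congrFun hrel a
    simp only [rel] at h1
    linarith
  have h2 := Int.abs_sub_lt_one_of_floor_eq_floor (hcl l)
  have h3 : (K':ℝ) * (P l / s + (blk s X 0 : ℤ) * α l - (blk s X l.succ : ℤ) + L) -
      (K':ℝ) * (P l / s + (blk s Z 0 : ℤ) * α l - (blk s Z l.succ : ℤ) + L)
      = (q * K') * (((blk (q * s) X 0 - blk (q * s) Z 0 : ℤ) : ℝ) * α l
        - ((blk (q * s) X l.succ - blk (q * s) Z l.succ : ℤ) : ℝ)) := by
    have e1 : ((blk s X 0 : ℤ) : ℝ) - (blk s Z 0 : ℤ)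
        = q * ((blk (q * s) X 0 - blk (q * s) Z 0 : ℤ) : ℝ) := by
      have := hdiff 0
      exact_mod_cast congrArg (fun z : ℤ => (z:ℝ)) this
    have e2 : ((blk s X l.succ : ℤ) : ℝ) - (blk s Z l.succ : ℤ)
        = q * ((blk (q * s) X l.succ - blk (q * s) Z l.succ : ℤ) : ℝ) := by
      have := hdiff l.succ
      exact_mod_cast congrArg (fun z : ℤ => (z:ℝ)) this
    have e3 : (K':ℝ) * (P l / s + (blk s X 0 : ℤ) * α l - (blk s X l.succ : ℤ) + L) -
      (K':ℝ) * (P l / s + (blk s Z 0 : ℤ) * α l - (blk s Z l.succ : ℤ) + L)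
      = K' * ((((blk s X 0 : ℤ) : ℝ) - (blk s Z 0 : ℤ)) * α l
        - (((blk s X l.succ : ℤ) : ℝ) - (blk s Z l.succ : ℤ))) := by ring
    rw [e3, e1, e2]
    ring
  rw [h3, abs_mul, abs_of_pos (by positivity)] at h2
  rw [lt_div_iff₀ (by positivity)]
  linarith

/-- the subdivision constant -/
def kap (n b : ℕ) : ℕ := 3 * b * (n + 2) ^ 2

/-- the constant for the number of blocks -/
def Kc (n b L : ℕ) : ℕ := ((2 * L + 1) * kap n b) ^ n * kap n b * (2 * L + 5) ^ (n + 1)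

theorem kap_pos {n b : ℕ} (hb : 1 ≤ b) : 0 < kap n b := by
  unfold kap
  have : 0 < b := hb
  positivity

theorem Kc_pos {n b L : ℕ} (hb : 1 ≤ b) : 0 < Kc n b L := by
  unfold Kc
  have := kap_pos (n := n) hb
  positivity

theorem ediv_diff {a c : ℤ} {w : ℤ} {L : ℕ} (hw : 0 < w) (h : |a - c| ≤ (L + 1) * w) :
    |a / w - c / w| ≤ L + 2 := by
  have a1 := Int.emod_nonneg a hw.ne'
  have a2 := Int.emod_lt_of_pos a hw
  have a3 := Int.emod_def a w
  have b1 := Int.emod_nonneg c hw.ne'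
  have b2 := Int.emod_lt_of_pos c hw
  have b3 := Int.emod_def c w
  rw [abs_le] at h ⊢
  have h1 : w * (a / w - c / w) < w * ((L:ℤ) + 2 + 1) := by
    nlinarith [h.2]
  have h2 : w * (-((L:ℤ) + 2) - 1) < w * (a / w - c / w) := by
    nlinarith [h.1]
  have h3 := lt_of_mul_lt_mul_left h1 hw.le
  have h4 := lt_of_mul_lt_mul_left h2 hw.le
  constructor <;> omega

theorem cluster {n b m N L : ℕ} (hb : 1 ≤ b) (P α : Fin n → ℝ) (hL : ∀ l, |α l| ≤ L)
    (F : Finset ℤ) (t : ℕ) (ht : t + m ≤ N) (k : ℕ) (i : ℤ) :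
    (img (fib F (fun y => (Rl b N (pth P α) t (t + m) y,
        X b N (pth P α) (t - eR α b m N k) y))
      (Rl b N (pth P α) t (t + m) i, X b N (pth P α) (t - eR α b m N k) i))
      (X b N (pth P α) (t - lo α b m N k))).card ≤ Kc n b L := by
  set x := pth P α with hx
  set hi := eR α b m N k with hhi
  set lw := lo α b m N k with hlw
  set G := fib F (fun y => (Rl b N x t (t + m) y, X b N x (t - hi) y))
      (Rl b N x t (t + m) i, X b N x (t - hi) i) with hG
  have hb0 : 0 < b := hb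
  have hbr : (1:ℝ) ≤ b := by exact_mod_cast hb
  have hb0r : (0:ℝ) < b := by linarith
  -- trivial case
  by_cases htriv : t - lw = t - hi
  · have h1 : (img G (X b N x (t - lw))).card ≤ 1 := by
      rw [Finset.card_le_one]
      intro a ha a' ha'
      obtain ⟨y, hy, rfl⟩ := mem_img.1 ha
      obtain ⟨z, hz, rfl⟩ := mem_img.1 ha'
      rw [hG, mem_fib] at hy hz
      simp only [Prod.mk.injEq] at hy hz
      rw [htriv, hy.2.2, hz.2.2]
    exact h1.trans (Kc_pos hb)
  have hlh : lw ≤ hi := lo_le k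
  have hlt : lw < hi := by
    rcases hlh.eq_or_lt with h | h
    · rw [h] at htriv
      exact absurd rfl htriv
    · exact h
  have htl : lw ≤ t := by omega
  obtain ⟨y₀, hy1, hy2, hy3⟩ := gap_vec (α := α) (m := m) (N := N) hb k hlt
  set κ := kap n b with hκ
  have hκ0 : 0 < κ := kap_pos hb
  have hκr : (0:ℝ) < κ := by exact_mod_cast hκ0
  set s := b ^ (N - (t + m)) with hs
  have hs0 : 0 < s := pow_pos hb0 _
  have hqs : b ^ (N - t) = b ^ m * s := by
    rw [hs, ← pow_add]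
    congr 1
    omega
  have hm : t + m - t = m := by omega
  -- the classes
  set w₁ : ℕ := b ^ (t - (t - hi)) with hw₁
  set c : ℤ → (Fin n → ℤ) × ℤ := fun y =>
    (fun l => ⌊(κ:ℝ) * (P l / s + (blk s (x y) 0 : ℤ) * α l - (blk s (x y) l.succ : ℤ) + L)⌋,
      ((κ:ℤ) * (X b N x t y 0 - w₁ * X b N x (t - hi) y 0)) / ((b ^ hi : ℕ) : ℤ)) with hc
  have hbhi : (0:ℤ) < ((b ^ hi : ℕ) : ℤ) := by exact_mod_cast pow_pos hb0 _
  have hcard : (img G c).card ≤ ((2 * L + 1) * κ) ^ n * κ := by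
    have hsub : img G c ⊆ (ZE.box n ((2 * L + 1) * κ)) ×ˢ (Finset.Ico (0:ℤ) κ) := by
      intro a ha
      obtain ⟨y, -, rfl⟩ := mem_img.1 ha
      rw [Finset.mem_product]
      constructor
      · rw [mem_box]
        intro l
        obtain ⟨h1, h2⟩ := resid P α hs0 hL y l
        simp only [hc]
        constructor
        · rw [Int.floor_nonneg]
          have : 0 ≤ P l / s + (blk s (pth P α y) 0 : ℤ) * α l
            - (blk s (pth P α y) l.succ : ℤ) + L := by linarith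
          exact mul_nonneg hκr.le this
        · rw [Int.floor_lt]
          push_cast
          have : P l / s + (blk s (pth P α y) 0 : ℤ) * α l - (blk s (pth P α y) l.succ : ℤ) + L
              < 2 * L + 1 := by linarith
          calc (κ:ℝ) * (P l / s + (blk s (pth P α y) 0 : ℤ) * α l
                - (blk s (pth P α y) l.succ : ℤ) + L) < κ * (2 * L + 1) :=
                mul_lt_mul_of_pos_left this hκr
            _ = (2 * L + 1) * κ := by ring
      · simp only [hc]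
        have hw0 : (0:ℤ) < w₁ := by exact_mod_cast pow_pos hb0 _
        have hX : X b N x (t - hi) y 0 = X b N x t y 0 / w₁ := by
          unfold X
          have e : b ^ (N - (t - hi)) = b ^ (N - t) * w₁ := by
            rw [hw₁, ← pow_add]
            congr 1
            omega
          rw [e, ← blk_blk]
          rfl
        have a1 := Int.emod_nonneg (X b N x t y 0) hw0.ne'
        have a2 := Int.emod_lt_of_pos (X b N x t y 0) hw0
        have a3 := Int.emod_def (X b N x t y 0) w₁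
        rw [← hX] at a3
        rw [← a3]
        have hw1 : (w₁:ℤ) ≤ ((b ^ hi : ℕ) : ℤ) := by
          have : w₁ ≤ b ^ hi := Nat.pow_le_pow_right hb0 (by omega)
          exact_mod_cast this
        have hκz : (0:ℤ) < κ := by exact_mod_cast hκ0
        rw [Finset.mem_Ico]
        constructor
        · exact Int.ediv_nonneg (mul_nonneg hκz.le a1) hbhi.le
        · rw [Int.ediv_lt_iff_lt_mul hbhi]
          exact mul_lt_mul_of_pos_left (a2.trans_le hw1) hκz
    refine (Finset.card_le_card hsub).trans (le_of_eq ?_)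
    rw [Finset.card_product]
    unfold ZE.box
    rw [Fintype.card_piFinset]
    simp only [Int.card_Ico, sub_zero, Int.toNat_natCast, Finset.prod_const, Finset.card_univ,
      Fintype.card_fin]
  refine (img_le_mul G c (X b N x (t - lw)) _ ((2 * L + 5) ^ (n + 1)) hcard ?_).trans ?_
  swap
  · unfold Kc
    exact le_rfl
  intro z hz
  -- all points of the class are near to `z`
  have hbox : (Fintype.piFinset fun _ : Fin (n + 1) =>
      Finset.Icc (-((L:ℤ) + 2)) ((L:ℤ) + 2)).card = (2 * L + 5) ^ (n + 1) := by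
    rw [Fintype.card_piFinset]
    simp only [Int.card_Icc, Finset.prod_const, Finset.card_univ, Fintype.card_fin]
    congr 1
    omega
  rw [← hbox]
  refine Finset.card_le_card_of_injOn (fun Z => Z - X b N x (t - lw) z) ?_
    (fun a _ a' _ h => sub_left_injective h)
  intro Z hZ
  rw [Finset.mem_coe, mem_img] at hZ
  obtain ⟨y, hy, rfl⟩ := hZ
  rw [mem_fib] at hy
  obtain ⟨hyG, hyc⟩ := hy
  rw [hG, mem_fib] at hyG hz
  simp only [Prod.mk.injEq] at hyG hz
  have hrel : rel (b ^ m) s (x y) = rel (b ^ m) s (x z) := by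
    have := hyG.2.1.trans hz.2.1.symm
    unfold Rl at this
    rwa [hm] at this
  have hXhi : X b N x (t - hi) y = X b N x (t - hi) z := hyG.2.2.trans hz.2.2.symm
  simp only [hc, Prod.mk.injEq] at hyc
  obtain ⟨hc1, hc2⟩ := hyc
  have happ := approx (L := L) (pow_pos hb0 m) hκ0 P α hrel (fun l => congrFun hc1 l)
  rw [← hqs] at happ
  have eX : ∀ y a, blk (b ^ (N - t)) (x y) a = X b N x t y a := fun _ _ => rfl
  simp only [eX] at happ
  set M : ℤ := X b N x t y 0 - X b N x t z 0 with hM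
  set v : Fin n → ℤ := fun l => X b N x t y l.succ - X b N x t z l.succ with hv
  have happ' : ∀ l, |(M:ℝ) * α l - v l| < 1 / (((b ^ m : ℕ) : ℝ) * κ) := happ
  have hbm : (1:ℝ) ≤ ((b ^ m : ℕ) : ℝ) := by
    push_cast
    exact one_le_pow₀ hbr
  -- the size of `M`
  have hMκ : (κ:ℤ) * |M| < ((b ^ hi : ℕ) : ℤ) := by
    rw [hXhi] at hc2
    have a1 := Int.emod_nonneg ((κ:ℤ) * (X b N x t y 0 - w₁ * X b N x (t - hi) z 0)) hbhi.ne'
    have a2 := Int.emod_lt_of_pos ((κ:ℤ) * (X b N x t y 0 - w₁ * X b N x (t - hi) z 0)) hbhi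
    have a3 := Int.emod_def ((κ:ℤ) * (X b N x t y 0 - w₁ * X b N x (t - hi) z 0))
      ((b ^ hi : ℕ) : ℤ)
    have b1 := Int.emod_nonneg ((κ:ℤ) * (X b N x t z 0 - w₁ * X b N x (t - hi) z 0)) hbhi.ne'
    have b2 := Int.emod_lt_of_pos ((κ:ℤ) * (X b N x t z 0 - w₁ * X b N x (t - hi) z 0)) hbhi
    have b3 := Int.emod_def ((κ:ℤ) * (X b N x t z 0 - w₁ * X b N x (t - hi) z 0))
      ((b ^ hi : ℕ) : ℤ)
    rw [hc2] at a3
    have hκz : (0:ℤ) < κ := by exact_mod_cast hκ0
    have e : (κ:ℤ) * |M| = |(κ:ℤ) * M| := by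
      rw [abs_mul, abs_of_pos hκz]
    rw [e, abs_lt, hM]
    constructor <;> nlinarith
  have hMr : |(M:ℝ)| * ((b:ℝ) ^ hi)⁻¹ ≤ 1 / κ := by
    have h1 : (κ:ℝ) * |(M:ℝ)| < (b:ℝ) ^ hi := by
      have : (((κ:ℤ) * |M| : ℤ) : ℝ) < (((b ^ hi : ℕ) : ℤ) : ℝ) := by exact_mod_cast hMκ
      push_cast at this
      exact this
    rw [← div_eq_mul_inv, div_le_div_iff₀ (by positivity) hκr]
    linarith
  have hε : (n:ℝ) * (n + 2) * (1 / κ) + (n + 1) * (1 / κ) ≤ 1 / (3 * b) := by
    have h1 : (n:ℝ) * (n + 2) * (1 / κ) + (n + 1) * (1 / κ) = (n * (n + 2) + (n + 1)) / κ := by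
      ring
    rw [h1, div_le_div_iff₀ hκr (by positivity), hκ]
    unfold kap
    push_cast
    have hn : (0:ℝ) ≤ n := by positivity
    nlinarith [mul_nonneg hb0r.le hn]
  have h3b : 1 / (3 * (b:ℝ)) ≤ 1 / 3 := by
    apply one_div_le_one_div_of_le <;> linarith
  have hgap := gap α (b ^ m) (η := ((b:ℝ) ^ hi)⁻¹) (ε₀ := 1 / κ) (ε₂ := 1 / κ) (by positivity)
    hy1 hy2 M v (fun l => by
      have h1 := (happ' l).le
      have h2 := mul_le_mul_of_nonneg_right h1 (by linarith : (0:ℝ) ≤ ((b ^ m : ℕ) : ℝ))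
      refine h2.trans (le_of_eq ?_)
      field_simp) hMr (by linarith)
  have hM1 : |(M:ℝ)| ≤ (b:ℝ) ^ lw := by
    rw [abs_mul] at hgap
    have h1 : |(M:ℝ)| * ((b:ℝ) ^ (lw + 1))⁻¹ ≤ 1 / (3 * b) := by
      refine le_trans ?_ (hgap.trans hε)
      exact mul_le_mul_of_nonneg_left hy3.le (abs_nonneg _)
    rw [← div_eq_mul_inv, div_le_div_iff₀ (by positivity) (by positivity), pow_succ] at h1
    have h2 : |(M:ℝ)| * (3 * b) ≤ (b:ℝ) ^ lw * b := by linarith
    have h3 : 0 ≤ |(M:ℝ)| := abs_nonneg _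
    have h4 : |(M:ℝ)| * b ≤ (b:ℝ) ^ lw * b := by nlinarith
    exact le_of_mul_le_mul_right h4 hb0r
  have hw2 : (0:ℤ) < ((b ^ lw : ℕ) : ℤ) := by exact_mod_cast pow_pos hb0 _
  have hbl : (1:ℝ) ≤ (b:ℝ) ^ lw := one_le_pow₀ hbr
  have hdiff : ∀ a, |X b N x t y a - X b N x t z a| ≤ ((L:ℤ) + 1) * ((b ^ lw : ℕ) : ℤ) := by
    intro a
    refine Fin.cases ?_ (fun l => ?_) a
    · have h1 : |((M:ℤ):ℝ)| ≤ (((L:ℤ) + 1) * ((b ^ lw : ℕ) : ℤ) : ℤ) := by
        push_cast
        refine hM1.trans ?_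
        have : (0:ℝ) ≤ L * (b:ℝ) ^ lw := by positivity
        linarith
      rw [← Int.cast_abs] at h1
      exact_mod_cast h1
    · have h1 : |((v l : ℤ) : ℝ)| ≤ (((L:ℤ) + 1) * ((b ^ lw : ℕ) : ℤ) : ℤ) := by
        push_cast
        have e : (v l : ℝ) = (M:ℝ) * α l - ((M:ℝ) * α l - v l) := by ring
        rw [e]
        have h2 := (happ' l).le
        have h3 : 1 / (((b ^ m : ℕ) : ℝ) * κ) ≤ 1 := by
          rw [div_le_one (by positivity)]
          have : (1:ℝ) ≤ κ := by exact_mod_cast hκ0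
          nlinarith
        have h4 : |(M:ℝ) * α l| ≤ L * (b:ℝ) ^ lw := by
          rw [abs_mul, mul_comm]
          exact mul_le_mul (hL l) hM1 (abs_nonneg _) (by positivity)
        calc |(M:ℝ) * α l - ((M:ℝ) * α l - v l)| ≤ |(M:ℝ) * α l| + |(M:ℝ) * α l - v l| :=
              abs_sub _ _
          _ ≤ L * (b:ℝ) ^ lw + 1 := add_le_add h4 (h2.trans h3)
          _ ≤ (L + 1) * (b:ℝ) ^ lw := by linarith
      rw [← Int.cast_abs] at h1
      exact_mod_cast h1
  rw [Finset.mem_coe, Fintype.mem_piFinset]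
  intro a
  have hX : ∀ y, X b N x (t - lw) y a = X b N x t y a / ((b ^ lw : ℕ) : ℤ) := by
    intro y
    unfold X
    have e : b ^ (N - (t - lw)) = b ^ (N - t) * b ^ lw := by
      rw [← pow_add]
      congr 1
      omega
    rw [e, ← blk_blk]
    rfl
  have h1 := ediv_diff hw2 (hdiff a)
  rw [← hX, ← hX] at h1
  rw [Finset.mem_Icc]
  exact abs_le.1 h1

end Q85.ZR
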