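import Mathlib
import Pool.Agent.Q85.ZR.E
import Pool.Agent.Q85.ZR.J

set_option autoImplicit false

/-!
# The inequality for the pieces of a line
-/

namespace Q85.ZR

open Finset Q85.ZE

theorem sum_Ico_id {lw hi N : ℕ} (h : hi ≤ N) :
    ∑ u ∈ Finset.Ico lw hi, u = ∑ v ∈ Finset.Ico 1 N, (hi - max lw v) := by
  have h1 : ∀ u ∈ Finset.Ico lw hi, u = ∑ v ∈ Finset.Ico 1 N, if v ≤ u then 1 else 0 := by
    intro u hu
    rw [Finset.mem_Ico] at hu
    rw [← Finset.card_filter]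
    have : (Finset.Ico 1 N).filter (fun v => v ≤ u) = Finset.Ico 1 (u + 1) := by
      ext v
      rw [Finset.mem_filter, Finset.mem_Ico, Finset.mem_Ico]
      omega
    rw [this, Nat.card_Ico]
    omega
  rw [Finset.sum_congr rfl h1, Finset.sum_comm]
  refine Finset.sum_congr rfl fun v _ => ?_
  rw [← Finset.card_filter]
  have : (Finset.Ico lw hi).filter (fun u => v ≤ u) = Finset.Ico (max lw v) hi := by
    ext u
    rw [Finset.mem_filter, Finset.mem_Ico, Finset.mem_Ico]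
    omega
  rw [this, Nat.card_Ico]

/-- the logarithm of the constant -/
noncomputable def CL (n b L J : ℕ) : ℝ :=
  J * (n + 1) * Real.log (Kc n b L)
    + 2 * (J + 1) * ((n + 2) * Real.log (C1 n b) + (n + 1) * Real.log (C2 n b)
      + (n + 1) * Real.log 3)
    + (J + 2) * ((n + 1) * Real.log (C2 n b) + (n + 1) * Real.log 3) + (J + 1) * n * Real.log b

theorem line_count {n b N : ℕ} (hb : 1 ≤ b) (P α : Fin n → ℝ) (F : Finset ℤ) (v : ℕ) (i : ℤ) :
    (fib F (X b N (pth P α) v) (X b N (pth P α) v i)).card ≤ b ^ (N - v) := by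
  set s : ℕ := b ^ (N - v) with hs
  have hs0 : (0:ℤ) < s := by exact_mod_cast pow_pos hb _
  have h6 : fib F (X b N (pth P α) v) (X b N (pth P α) v i)
      ⊆ Finset.Ico ((s:ℤ) * (i / s)) ((s:ℤ) * (i / s) + s) := by
    intro y hy
    rw [mem_fib] at hy
    have h7 : y / (s:ℤ) = i / s := congrFun hy.2 0
    have h8 := Int.emod_nonneg y hs0.ne'
    have h9 := Int.emod_lt_of_pos y hs0
    have h10 := Int.emod_def y s
    rw [h7] at h10
    rw [Finset.mem_Ico]
    constructor <;> linarith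
  have h7 := Finset.card_le_card h6
  rw [Int.card_Ico, add_sub_cancel_left, Int.toNat_natCast] at h7
  exact h7

theorem line_log {n b N r m J L : ℕ} (hb : 1 ≤ b) (hm0 : 0 < m)
    (hJN : (J + 1) * m ≤ N) (hJN' : N < (J + 1) * (m + 1)) (g : (Fin (n + 1) → ℤ) → ℝ)
    (hg : RankLE b N r g) (P α : Fin n → ℝ) (hL : ∀ l, |α l| ≤ L) (F : Finset ℤ)
    (hpos : ∀ i ∈ F, 0 < g (res (b ^ N) (pth P α i))) (hFne : F.Nonempty)
    (htop : ∀ i ∈ F, ∀ i' ∈ F, blk (b ^ N) (pth P α i) = blk (b ^ N) (pth P α i')) :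
    (n + 1) * Real.log (∑ i ∈ F, g (res (b ^ N) (pth P α i))) ≤
      Real.log (∑ z ∈ ZE.box (n + 1) (b ^ N), g z ^ (n + 1))
      + ((n + 1) * (J + 3) + (J + 2)) * Real.log r + CL n b L J + n * m * Real.log b
      + Real.log b * ((∑ l : Fin n, jl α b m N l : ℕ) : ℝ) := by
  have hb0 : 0 < b := hb
  have hbr : (1:ℝ) ≤ b := by exact_mod_cast hb
  have hlam : 0 ≤ Real.log b := Real.log_nonneg hbr
  set lam := Real.log b with hlamdef
  have havg := averaged (q := n + 1) (Kc := Kc n b L) (n := n) hb0 hm0 hJN g hg F (pth P α) hpos hFne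
    htop (fun v _ i _ => line_count hb P α F v i) (lo α b m N) (eR α b m N)
    (fun k _ => lo_le k) (fun k _ => lo_ge k)
    (fun t ht k _ i _ => cluster hb P α hL F t ht k i)
  -- the numbers of vectors
  set μ : ℕ → ℝ := fun v => Real.log ((Ku α b m v).card : ℝ) with hμ
  have hK1 : ∀ v, 1 ≤ (Ku α b m v).card := fun v =>
    Finset.card_pos.2 ⟨0, zero_mem α _ (by positivity)⟩
  have hK1r : ∀ v, (1:ℝ) ≤ ((Ku α b m v).card : ℝ) := fun v => by exact_mod_cast hK1 v
  have hK0r : ∀ v, (0:ℝ) < ((Ku α b m v).card : ℝ) := fun v => by linarith [hK1r v]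
  have hμ0 : ∀ v, 0 ≤ μ v := fun v => Real.log_nonneg (hK1r v)
  have hC1 : (1:ℝ) ≤ C1 n b := by
    have : 1 ≤ C1 n b := by
      unfold C1
      have : 0 < 3 * 2 ^ n * (2 ^ n * (2 * b + 1)) := by positivity
      exact this
    exact_mod_cast this
  have hC2 : (1:ℝ) ≤ C2 n b := by exact_mod_cast C2_pos hb
  set c1 : ℝ := (n + 2) * Real.log (C1 n b) with hc1
  set c2 : ℝ := (n + 1) * Real.log (C2 n b) with hc2
  have hc10 : 0 ≤ c1 := mul_nonneg (by positivity) (Real.log_nonneg hC1)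
  have hc20 : 0 ≤ c2 := mul_nonneg (by positivity) (Real.log_nonneg hC2)
  have hlog3 : 0 ≤ Real.log 3 := Real.log_nonneg (by norm_num)
  set A : ℝ := ∑ k ∈ Finset.range (n + 1), ((eR α b m N k : ℝ) - lo α b m N k) with hA
  have hAnat : A = ((∑ k ∈ Finset.range (n + 1), (eR α b m N k - lo α b m N k) : ℕ) : ℝ) := by
    rw [hA]
    push_cast
    refine Finset.sum_congr rfl fun k _ => ?_
    rw [Nat.cast_sub (lo_le k)]
  have hA0 : 0 ≤ A := by
    rw [hAnat]
    positivity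
  -- (S1)
  have hS1 : lam * max ((m:ℝ) * n - A) 0 ≤ c1 + μ N := by
    have h1 := S1 (α := α) (m := m) (N := N) hb
    have h2 : ((b:ℝ)) ^ (m * n) ≤ (C1 n b : ℝ) ^ (n + 2) *
        (b:ℝ) ^ (∑ k ∈ Finset.range (n + 1), (eR α b m N k - lo α b m N k))
          * (Ku α b m N).card := by exact_mod_cast h1
    have h3 := Real.log_le_log (by positivity) h2
    rw [Real.log_mul (by positivity) (hK0r N).ne', Real.log_mul (by positivity) (by positivity),
      Real.log_pow, Real.log_pow, Real.log_pow, ← hAnat] at h3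
    push_cast at h3
    rcases le_total ((m:ℝ) * n - A) 0 with h | h
    · rw [max_eq_right h, mul_zero]
      linarith [hμ0 N]
    · rw [max_eq_left h]
      linarith
  -- (S2)
  have hS2 : ∀ v ≤ N, lam * (Tl α b m N (n + 1) v : ℝ) + μ N ≤ c2 + μ v := by
    intro v hv
    have h1 := S2 (α := α) (m := m) (N := N) hb hv
    have h2 : ((b:ℝ)) ^ Tl α b m N (n + 1) v * (Ku α b m N).card
        ≤ (C2 n b : ℝ) ^ (n + 1) * (Ku α b m v).card := by exact_mod_cast h1
    have h3 := Real.log_le_log (mul_pos (by positivity) (hK0r N)) h2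
    rw [Real.log_mul (by positivity) (hK0r N).ne', Real.log_mul (by positivity) (hK0r v).ne',
      Real.log_pow, Real.log_pow] at h3
    push_cast at h3
    linarith
  have hA2 : lam * A ≤ c2 + μ 0 := by
    have h1 := hS2 0 (Nat.zero_le _)
    have h2 : (Tl α b m N (n + 1) 0 : ℝ) = A := by
      rw [hAnat]
      unfold Tl
      congr 1
      refine Finset.sum_congr rfl fun k _ => ?_
      rw [Nat.max_zero]
    rw [h2] at h1
    linarith [hμ0 N]
  -- the sum over the gaps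
  have hsumu : ∑ k ∈ Finset.range (n + 1), ∑ u ∈ Finset.Ico (lo α b m N k) (eR α b m N k),
      ((N:ℝ) - (J * m : ℕ) + 1 + u)
      = ((N:ℝ) - (J * m : ℕ) + 1) * A + ((∑ v ∈ Finset.Ico 1 N, Tl α b m N (n + 1) v : ℕ) : ℝ) := by
    have h1 : ∀ k ∈ Finset.range (n + 1), ∑ u ∈ Finset.Ico (lo α b m N k) (eR α b m N k),
        ((N:ℝ) - (J * m : ℕ) + 1 + u)
        = ((N:ℝ) - (J * m : ℕ) + 1) * ((eR α b m N k : ℝ) - lo α b m N k)
          + ((∑ v ∈ Finset.Ico 1 N, (eR α b m N k - max (lo α b m N k) v) : ℕ) : ℝ) := by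
      intro k _
      rw [Finset.sum_add_distrib, Finset.sum_const, Nat.card_Ico, nsmul_eq_mul,
        Nat.cast_sub (lo_le k), ← sum_Ico_id (eR_le k)]
      push_cast
      ring
    rw [Finset.sum_congr rfl h1, Finset.sum_add_distrib, ← Finset.mul_sum, ← hA]
    congr 1
    rw [← Nat.cast_sum, Finset.sum_comm]
    rfl
  have hN1 : 1 ≤ N := by
    have : 1 ≤ (J + 1) * m := Nat.mul_pos (by omega) hm0
    omega
  have hTsum : lam * ((∑ v ∈ Finset.Ico 1 N, Tl α b m N (n + 1) v : ℕ) : ℝ) ≤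
      ((N:ℝ) - 1) * c2 + ∑ v ∈ Finset.Ico 1 N, μ v - ((N:ℝ) - 1) * μ N := by
    push_cast
    rw [Finset.mul_sum]
    have h1 : ∀ v ∈ Finset.Ico 1 N, lam * (Tl α b m N (n + 1) v : ℝ) ≤ c2 + μ v - μ N := by
      intro v hv
      rw [Finset.mem_Ico] at hv
      have := hS2 v (by omega)
      linarith
    refine (Finset.sum_le_sum h1).trans (le_of_eq ?_)
    rw [Finset.sum_sub_distrib, Finset.sum_add_distrib, Finset.sum_const, Finset.sum_const,
      Nat.card_Ico, nsmul_eq_mul, nsmul_eq_mul, Nat.cast_sub hN1]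
    push_cast
    ring
  have hIcc : ∑ v ∈ Finset.Icc 1 N, μ v = ∑ v ∈ Finset.Ico 1 N, μ v + μ N := by
    rw [← Finset.sum_Ico_succ_top hN1]
    rfl
  -- the numbers of vectors and the ranks
  have hl3 : Real.log ((2 * b ^ m + 1 : ℕ) : ℝ) ≤ Real.log 3 + m * lam := by
    have h1 : ((2 * b ^ m + 1 : ℕ) : ℝ) ≤ 3 * (b:ℝ) ^ m := by
      push_cast
      have : (1:ℝ) ≤ (b:ℝ) ^ m := one_le_pow₀ hbr
      linarith
    have h2 := Real.log_le_log (by positivity) h1
    rw [Real.log_mul (by norm_num) (by positivity), Real.log_pow] at h2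
    exact h2
  have hμr : ∀ v, μ v ≤ Real.log 3 + (rp α b m v : ℝ) * (Real.log 3 + m * lam) := by
    intro v
    have h1 : ((Ku α b m v).card : ℝ) ≤ 3 * ((2 * b ^ m + 1 : ℕ) : ℝ) ^ rp α b m v := by
      exact_mod_cast Ku_card_le hb v
    have h2 := Real.log_le_log (hK0r v) h1
    rw [Real.log_mul (by norm_num) (by positivity), Real.log_pow] at h2
    refine h2.trans ?_
    have := mul_le_mul_of_nonneg_left hl3 (by positivity : (0:ℝ) ≤ (rp α b m v : ℝ))
    linarith
  have hmlam : 0 ≤ (m:ℝ) * lam := mul_nonneg (by positivity) hlam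
  have hμ0' : μ 0 ≤ (n + 1) * Real.log 3 + n * (m * lam) := by
    have h1 := hμr 0
    rw [rp_zero hb] at h1
    linarith
  have hsumμ : ∑ v ∈ Finset.Icc 1 N, μ v ≤ N * ((n + 1) * Real.log 3)
      + m * lam * ((∑ l : Fin n, jl α b m N l : ℕ) : ℝ) := by
    have h1 : ∀ v ∈ Finset.Icc 1 N, μ v ≤ (n + 1) * Real.log 3 + m * lam * (rp α b m v : ℝ) := by
      intro v _
      have h2 := hμr v
      have h3 : (rp α b m v : ℝ) ≤ n := by exact_mod_cast rp_le v
      have h4 := mul_le_mul_of_nonneg_right h3 hlog3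
      linarith
    refine (Finset.sum_le_sum h1).trans (le_of_eq ?_)
    rw [Finset.sum_add_distrib, Finset.sum_const, Nat.card_Icc, nsmul_eq_mul, ← Finset.mul_sum,
      jl_sum]
    rw [Nat.add_sub_cancel, Nat.cast_sum]
  -- the bracket
  set Sj : ℝ := ((∑ l : Fin n, jl α b m N l : ℕ) : ℝ) with hSj
  have hNr : (1:ℝ) ≤ N := by exact_mod_cast hN1
  have hmr : (1:ℝ) ≤ m := by exact_mod_cast hm0
  have hmr0 : (0:ℝ) < m := by linarith
  have hJr : (0:ℝ) ≤ J := by positivity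
  have hNJ : (N:ℝ) ≤ 2 * (J + 1) * m := by
    have h1 : (N:ℝ) ≤ (J + 1) * (m + 1) := by exact_mod_cast hJN'.le
    have h2 : ((J:ℝ) + 1) * (m + 1) ≤ (J + 1) * (2 * m) :=
      mul_le_mul_of_nonneg_left (by linarith) (by positivity)
    linarith
  have hNJ2 : (N:ℝ) - (J * m : ℕ) + 1 ≤ m + J + 1 := by
    have h1 : (N:ℝ) + 1 ≤ (J + 1) * (m + 1) := by exact_mod_cast hJN'
    push_cast
    linarith
  have hNJ3 : 0 ≤ (N:ℝ) - (J * m : ℕ) + 1 := by
    have h1 : ((J + 1) * m : ℝ) ≤ N := by exact_mod_cast hJN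
    push_cast
    linarith
  have hbracket : lam * (N * max ((m:ℝ) * n - A) 0
        + ∑ k ∈ Finset.range (n + 1), ∑ u ∈ Finset.Ico (lo α b m N k) (eR α b m N k),
          ((N:ℝ) - (J * m : ℕ) + 1 + u)) ≤
      N * (c1 + c2) + (m + J + 1) * (c2 + (n + 1) * Real.log 3 + n * (m * lam))
        + N * ((n + 1) * Real.log 3) + m * lam * Sj := by
    rw [hsumu]
    have h1 : lam * (N * max ((m:ℝ) * n - A) 0) ≤ N * (c1 + μ N) := by
      have := mul_le_mul_of_nonneg_left hS1 (by linarith : (0:ℝ) ≤ N)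
      linarith
    have h2 : lam * (((N:ℝ) - (J * m : ℕ) + 1) * A)
        ≤ (m + J + 1) * (c2 + (n + 1) * Real.log 3 + n * (m * lam)) := by
      calc lam * (((N:ℝ) - (J * m : ℕ) + 1) * A) = ((N:ℝ) - (J * m : ℕ) + 1) * (lam * A) := by
            ring
        _ ≤ ((N:ℝ) - (J * m : ℕ) + 1) * (c2 + (n + 1) * Real.log 3 + n * (m * lam)) :=
            mul_le_mul_of_nonneg_left (by linarith) hNJ3
        _ ≤ _ := by
            refine mul_le_mul_of_nonneg_right hNJ2 ?_
            have : 0 ≤ ((n:ℝ) + 1) * Real.log 3 := by positivity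
            have : 0 ≤ (n:ℝ) * (m * lam) := by positivity
            linarith
    have h4 : lam * (N * max ((m:ℝ) * n - A) 0 + (((N:ℝ) - (J * m : ℕ) + 1) * A
        + ((∑ v ∈ Finset.Ico 1 N, Tl α b m N (n + 1) v : ℕ) : ℝ)))
        = lam * (N * max ((m:ℝ) * n - A) 0) + lam * (((N:ℝ) - (J * m : ℕ) + 1) * A)
          + lam * ((∑ v ∈ Finset.Ico 1 N, Tl α b m N (n + 1) v : ℕ) : ℝ) := by ring
    rw [h4]
    nlinarith [h1, h2, hTsum, hsumμ, hIcc, hμ0 N]
  have hmain : (m:ℝ) * ((n + 1) * Real.log (∑ i ∈ F, g (res (b ^ N) (pth P α i)))) ≤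
      m * (Real.log (∑ z ∈ ZE.box (n + 1) (b ^ N), g z ^ (n + 1))
      + ((n + 1) * (J + 3) + (J + 2)) * Real.log r + CL n b L J + n * m * lam + lam * Sj) := by
    refine havg.trans ?_
    have h1 : (J:ℝ) * m * ((n + 1 : ℕ) : ℝ) * Real.log (Kc n b L)
        = m * (J * (n + 1) * Real.log (Kc n b L)) := by
      push_cast
      ring
    have h2 : N * (c1 + c2) + (m + J + 1) * (c2 + (n + 1) * Real.log 3 + n * (m * lam))
        + N * ((n + 1) * Real.log 3) ≤ m * (2 * (J + 1) * (c1 + c2 + (n + 1) * Real.log 3)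
          + (J + 2) * (c2 + (n + 1) * Real.log 3) + (J + 1) * n * lam + n * m * lam) := by
      have a1 : N * (c1 + c2 + (n + 1) * Real.log 3)
          ≤ 2 * (J + 1) * m * (c1 + c2 + (n + 1) * Real.log 3) :=
        mul_le_mul_of_nonneg_right hNJ (by positivity)
      have a2 : ((m:ℝ) + J + 1) ≤ (J + 2) * m := by nlinarith
      have a3 : ((m:ℝ) + J + 1) * (c2 + (n + 1) * Real.log 3)
          ≤ (J + 2) * m * (c2 + (n + 1) * Real.log 3) :=
        mul_le_mul_of_nonneg_right a2 (by positivity)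
      have a4 : ((m:ℝ) + J + 1) * (n * (m * lam)) = m * ((J + 1) * n * lam + n * m * lam) := by
        ring
      nlinarith [a1, a3, a4]
    rw [h1]
    unfold CL
    have h3 := hbracket.trans (add_le_add_left h2 (m * lam * Sj))
    rw [← hc1, ← hc2]
    nlinarith [h3]
  exact le_of_mul_le_mul_left hmain hmr0

end Q85.ZR
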