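import Mathlib
import Pool.Agent.Q85.ZR.K

set_option autoImplicit false

/-!
# The weight of a slope and its integral
-/

namespace Q85.ZR

open Finset Q85.ZE MeasureTheory
open scoped ENNReal

/-- slopes with small values of the linear forms `k l` -/
def Sset (n b L : ℕ) (k : Fin n → Fin n → ℤ) (j : Fin n → ℕ) : Set (Fin n → ℝ) :=
  {α | (∀ i, |α i| ≤ L) ∧ ∀ l, ∃ z : ℤ, |(z:ℝ) + ∑ i, α i * k l i| ≤ ((b:ℝ) ^ j l)⁻¹}

theorem Sset_meas (n b L : ℕ) (k : Fin n → Fin n → ℤ) (j : Fin n → ℕ) :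
    MeasurableSet (Sset n b L k j) := by
  have h1 : Sset n b L k j = {α : Fin n → ℝ | ∀ i, |α i| ≤ (L:ℝ)} ∩
      ⋂ l, ⋃ z : ℤ, {α : Fin n → ℝ | |(z:ℝ) + ∑ i, α i * k l i| ≤ ((b:ℝ) ^ j l)⁻¹} := by
    ext α
    simp only [Sset, Set.mem_ofPred_eq, Set.mem_inter_iff, Set.mem_iInter, Set.mem_iUnion]
  rw [h1]
  refine MeasurableSet.inter ?_ ?_
  · rw [Set.ofPred_forall]
    exact MeasurableSet.iInter fun l =>
      measurableSet_le (continuous_abs.measurable.comp (measurable_pi_apply l)) measurable_const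
  · refine MeasurableSet.iInter fun l => MeasurableSet.iUnion fun z => ?_
    refine measurableSet_le ?_ measurable_const
    refine continuous_abs.measurable.comp ?_
    exact (Finset.measurable_fun_sum _ fun i _ => (measurable_pi_apply i).mul_const _).const_add _

theorem Sset_vol {n b L B : ℕ} (hb : 1 ≤ b) (k : Fin n → Fin n → ℤ) (j : Fin n → ℕ)
    (hk : LinearIndependent ℝ (fun l => cst (k l))) (hkB : ∀ l i, |k l i| ≤ (B:ℤ)) :
    volume (Sset n b L k j) ≤
      ENNReal.ofReal ((2 * (n * L * B + 1) + 1) ^ n * 2 ^ n * ((b:ℝ) ^ (∑ l, j l))⁻¹) := by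
  have hb0 : (0:ℝ) < b := by exact_mod_cast hb
  have hbr : (1:ℝ) ≤ b := by exact_mod_cast hb
  set Mz : Matrix (Fin n) (Fin n) ℤ := Matrix.of k with hMz
  set M : Matrix (Fin n) (Fin n) ℝ := Matrix.of fun l i => (k l i : ℝ) with hM
  have hMrow : LinearIndependent ℝ M.row := hk
  have hunit : IsUnit M := Matrix.linearIndependent_rows_iff_isUnit.1 hMrow
  have hdet0 : M.det ≠ 0 := by
    rw [Matrix.isUnit_iff_isUnit_det] at hunit
    exact hunit.ne_zero
  have hdetz : M.det = ((Mz.det : ℤ) : ℝ) := by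
    have : M = Mz.map (Int.castRingHom ℝ) := by
      ext l i
      rfl
    rw [this]
    exact (RingHom.map_det (Int.castRingHom ℝ) Mz).symm
  have hdet1 : 1 ≤ |M.det| := by
    rw [hdetz]
    have h1 : Mz.det ≠ 0 := by
      intro h
      rw [hdetz, h, Int.cast_zero] at hdet0
      exact hdet0 rfl
    have : (1:ℤ) ≤ |Mz.det| := Int.one_le_abs h1
    exact_mod_cast this
  set f : (Fin n → ℝ) →ₗ[ℝ] (Fin n → ℝ) := Matrix.toLin' M with hf
  have hfdet : LinearMap.det f = M.det := LinearMap.det_toLin' M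
  have hfa : ∀ α l, f α l = ∑ i, α i * k l i := by
    intro α l
    rw [hf, Matrix.toLin'_apply]
    simp only [Matrix.mulVec, dotProduct, hM, Matrix.of_apply]
    exact Finset.sum_congr rfl fun i _ => mul_comm _ _
  set D : ℕ := n * L * B + 1 with hD
  set ZZ : Finset (Fin n → ℤ) := Fintype.piFinset fun _ => Finset.Icc (-(D:ℤ)) D with hZZ
  set U : Set (Fin n → ℝ) := ⋃ z ∈ ZZ, Set.pi Set.univ fun l : Fin n =>
    Set.Icc (-(z l : ℝ) - ((b:ℝ) ^ j l)⁻¹) (-(z l : ℝ) + ((b:ℝ) ^ j l)⁻¹) with hU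
  have hsub : Sset n b L k j ⊆ f ⁻¹' U := by
    rintro α ⟨h1, h2⟩
    choose z hz using h2
    rw [Set.mem_preimage, hU, Set.mem_iUnion₂]
    refine ⟨z, ?_, ?_⟩
    · rw [hZZ, Fintype.mem_piFinset]
      intro l
      have h3 : |∑ i, α i * (k l i : ℝ)| ≤ n * L * B := by
        refine (Finset.abs_sum_le_sum_abs _ _).trans ?_
        calc ∑ i, |α i * (k l i : ℝ)| ≤ ∑ _i : Fin n, (L:ℝ) * B := by
              refine Finset.sum_le_sum fun i _ => ?_
              rw [abs_mul]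
              refine mul_le_mul (h1 i) ?_ (abs_nonneg _) (by positivity)
              rw [← Int.cast_abs]
              exact_mod_cast hkB l i
          _ = n * L * B := by simp; ring
      have h4 : ((b:ℝ) ^ j l)⁻¹ ≤ 1 := inv_le_one_of_one_le₀ (one_le_pow₀ hbr)
      have h5 : |(z l : ℝ)| ≤ D := by
        have e : (z l : ℝ) = ((z l : ℝ) + ∑ i, α i * (k l i : ℝ)) - ∑ i, α i * (k l i : ℝ) := by
          ring
        rw [e, hD]
        push_cast
        refine (abs_sub _ _).trans ?_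
        linarith [hz l]
      rw [← Int.cast_abs] at h5
      have h6 : |z l| ≤ (D:ℤ) := by exact_mod_cast h5
      rw [Finset.mem_Icc]
      exact abs_le.1 h6
    · rw [Set.mem_univ_pi]
      intro l
      have h3 := abs_le.1 (hz l)
      rw [hfa, Set.mem_Icc]
      constructor <;> linarith [h3.1, h3.2]
  have hvolU : volume U ≤ ENNReal.ofReal ((2 * (n * L * B + 1) + 1) ^ n * 2 ^ n
      * ((b:ℝ) ^ (∑ l, j l))⁻¹) := by
    rw [hU]
    refine (measure_biUnion_finset_le _ _).trans ?_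
    have h1 : ∀ z ∈ ZZ, volume (Set.pi Set.univ fun l : Fin n =>
        Set.Icc (-(z l : ℝ) - ((b:ℝ) ^ j l)⁻¹) (-(z l : ℝ) + ((b:ℝ) ^ j l)⁻¹))
        = ENNReal.ofReal (2 ^ n * ((b:ℝ) ^ (∑ l, j l))⁻¹) := by
      intro z _
      rw [volume_pi_pi]
      have h2 : ∀ l : Fin n, volume (Set.Icc (-(z l : ℝ) - ((b:ℝ) ^ j l)⁻¹)
          (-(z l : ℝ) + ((b:ℝ) ^ j l)⁻¹)) = ENNReal.ofReal (2 * ((b:ℝ) ^ j l)⁻¹) := by
        intro l
        rw [Real.volume_Icc]
        congr 1
        ring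
      rw [Finset.prod_congr rfl fun l _ => h2 l, ← ENNReal.ofReal_prod_of_nonneg
        (fun l _ => by positivity)]
      congr 1
      rw [Finset.prod_mul_distrib, Finset.prod_const, Finset.card_univ, Fintype.card_fin,
        Finset.prod_inv_distrib, Finset.prod_pow_eq_pow_sum]
    rw [Finset.sum_congr rfl h1, Finset.sum_const, nsmul_eq_mul]
    have h2 : ZZ.card = (2 * D + 1) ^ n := by
      rw [hZZ, Fintype.card_piFinset]
      simp only [Int.card_Icc, Finset.prod_const, Finset.card_univ, Fintype.card_fin]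
      congr 1
      omega
    rw [h2, ← ENNReal.ofReal_natCast, ← ENNReal.ofReal_mul (by positivity)]
    refine ENNReal.ofReal_le_ofReal (le_of_eq ?_)
    rw [hD]
    push_cast
    ring
  calc volume (Sset n b L k j) ≤ volume (f ⁻¹' U) := measure_mono hsub
    _ = ENNReal.ofReal |(LinearMap.det f)⁻¹| * volume U :=
        Measure.addHaar_preimage_linearMap _ (by rw [hfdet]; exact hdet0) _
    _ ≤ 1 * volume U := by
        refine mul_le_mul_left ?_ _
        rw [hfdet, abs_inv, ← ENNReal.ofReal_one]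
        exact ENNReal.ofReal_le_ofReal (inv_le_one_of_one_le₀ hdet1)
    _ ≤ _ := by
        rw [one_mul]
        exact hvolU

open scoped Classical in
/-- the tuples of linearly independent vectors -/
noncomputable def Tup (n B : ℕ) : Finset (Fin n → Fin n → ℤ) :=
  (Fintype.piFinset fun _ => Fintype.piFinset fun _ => Finset.Icc (-(B:ℤ)) B).filter
    fun k => LinearIndependent ℝ (fun l => cst (k l))

theorem mem_Tup {n B : ℕ} {k : Fin n → Fin n → ℤ} : k ∈ Tup n B ↔
    (∀ l i, |k l i| ≤ (B:ℤ)) ∧ LinearIndependent ℝ (fun l => cst (k l)) := by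
  classical
  unfold Tup
  rw [Finset.mem_filter, Fintype.mem_piFinset]
  simp only [Fintype.mem_piFinset, Finset.mem_Icc, abs_le]

theorem Tup_card (n B : ℕ) : (Tup n B).card ≤ (2 * B + 1) ^ (n * n) := by
  classical
  unfold Tup
  refine (Finset.card_filter_le _ _).trans (le_of_eq ?_)
  rw [Fintype.card_piFinset]
  simp only [Fintype.card_piFinset, Int.card_Icc, Finset.prod_const, Finset.card_univ,
    Fintype.card_fin]
  rw [← pow_mul]
  congr 1
  omega

/-- the weight of a slope -/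
noncomputable def Wgt (n b L m N : ℕ) (α : Fin n → ℝ) : ℝ≥0∞ :=
  ∑ k ∈ Tup n (b ^ m), ∑ j ∈ Fintype.piFinset fun _ : Fin n => Finset.range (N + 1),
    (Sset n b L k j).indicator (fun _ => ENNReal.ofReal ((b:ℝ) ^ (∑ l, j l))) α

theorem Wgt_int {n b L m N : ℕ} (hb : 1 ≤ b) : ∫⁻ α, Wgt n b L m N α ≤
    ENNReal.ofReal (((2 * (b:ℝ) ^ m + 1) ^ (n * n) * (N + 1) ^ n)
      * ((2 * (n * L * (b:ℝ) ^ m + 1) + 1) ^ n * 2 ^ n)) := by
  have hb0 : (0:ℝ) < b := by exact_mod_cast hb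
  unfold Wgt
  rw [lintegral_finsetSum _ fun k _ => Finset.measurable_fun_sum _ fun j _ =>
    measurable_const.indicator (Sset_meas n b L k j)]
  have h1 : ∀ k ∈ Tup n (b ^ m), ∫⁻ α, ∑ j ∈ Fintype.piFinset fun _ : Fin n =>
      Finset.range (N + 1), (Sset n b L k j).indicator
        (fun _ => ENNReal.ofReal ((b:ℝ) ^ (∑ l, j l))) α
      ≤ ENNReal.ofReal ((N + 1) ^ n * ((2 * (n * L * (b:ℝ) ^ m + 1) + 1) ^ n * 2 ^ n)) := by
    intro k hk
    rw [mem_Tup] at hk
    rw [lintegral_finsetSum _ fun j _ => measurable_const.indicator (Sset_meas n b L k j)]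
    have h2 : ∀ j ∈ Fintype.piFinset fun _ : Fin n => Finset.range (N + 1),
        ∫⁻ α, (Sset n b L k j).indicator (fun _ => ENNReal.ofReal ((b:ℝ) ^ (∑ l, j l))) α
        ≤ ENNReal.ofReal ((2 * (n * L * (b:ℝ) ^ m + 1) + 1) ^ n * 2 ^ n) := by
      intro j _
      rw [lintegral_indicator_const (Sset_meas n b L k j)]
      have h3 := Sset_vol (L := L) hb k j hk.2 hk.1
      refine (mul_le_mul_right h3 _).trans (le_of_eq ?_)
      rw [← ENNReal.ofReal_mul (by positivity)]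
      congr 1
      push_cast
      field_simp
    refine (Finset.sum_le_sum h2).trans (le_of_eq ?_)
    rw [Finset.sum_const, Fintype.card_piFinset]
    simp only [Finset.card_range, Finset.prod_const, Finset.card_univ, Fintype.card_fin]
    rw [nsmul_eq_mul, ← ENNReal.ofReal_natCast, ← ENNReal.ofReal_mul (by positivity)]
    push_cast
    rfl
  refine (Finset.sum_le_sum h1).trans ?_
  rw [Finset.sum_const, nsmul_eq_mul, ← ENNReal.ofReal_natCast,
    ← ENNReal.ofReal_mul (by positivity)]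
  apply ENNReal.ofReal_le_ofReal
  have h2 : ((Tup n (b ^ m)).card : ℝ) ≤ (2 * (b:ℝ) ^ m + 1) ^ (n * n) := by
    exact_mod_cast Tup_card n (b ^ m)
  calc ((Tup n (b ^ m)).card : ℝ) * ((N + 1) ^ n * ((2 * (n * L * (b:ℝ) ^ m + 1) + 1) ^ n * 2 ^ n))
      ≤ (2 * (b:ℝ) ^ m + 1) ^ (n * n)
        * ((N + 1) ^ n * ((2 * (n * L * (b:ℝ) ^ m + 1) + 1) ^ n * 2 ^ n)) :=
        mul_le_mul_of_nonneg_right h2 (by positivity)
    _ = _ := by ring

theorem Wgt_ge {n b L m N : ℕ} (hb : 1 ≤ b) (α : Fin n → ℝ) (hL : ∀ l, |α l| ≤ L) :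
    ENNReal.ofReal ((b:ℝ) ^ (∑ l : Fin n, jl α b m N l)) ≤ Wgt n b L m N α := by
  obtain ⟨k, hk1, hk2⟩ := tuple (α := α) (m := m) (N := N) hb n le_rfl
  have hk : k ∈ Tup n (b ^ m) := mem_Tup.2 ⟨fun l i => (hk2 l).1 i, hk1⟩
  have hj : (fun l : Fin n => jl α b m N l) ∈ Fintype.piFinset fun _ : Fin n =>
      Finset.range (N + 1) := by
    rw [Fintype.mem_piFinset]
    intro l
    rw [Finset.mem_range]
    exact Nat.lt_succ_of_le (jl_le _)
  unfold Wgt
  refine le_trans ?_ (Finset.single_le_sum (f := fun k => ∑ j ∈ Fintype.piFinset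
    fun _ : Fin n => Finset.range (N + 1), (Sset n b L k j).indicator
      (fun _ => ENNReal.ofReal ((b:ℝ) ^ (∑ l, j l))) α) (fun _ _ => zero_le) hk)
  refine le_trans ?_ (Finset.single_le_sum (f := fun j => (Sset n b L k j).indicator
      (fun _ => ENNReal.ofReal ((b:ℝ) ^ (∑ l, j l))) α) (fun _ _ => zero_le) hj)
  rw [Set.indicator_of_mem]
  exact ⟨hL, fun l => (hk2 l).2⟩

theorem Wgt_one {n b L m N : ℕ} (hb : 1 ≤ b) (α : Fin n → ℝ) (hL : ∀ l, |α l| ≤ L) :
    1 ≤ Wgt n b L m N α := by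
  refine le_trans ?_ (Wgt_ge hb α hL)
  rw [← ENNReal.ofReal_one]
  apply ENNReal.ofReal_le_ofReal
  have : (1:ℝ) ≤ b := by exact_mod_cast hb
  exact one_le_pow₀ this

theorem Wgt_meas (n b L m N : ℕ) : Measurable (Wgt n b L m N) := by
  unfold Wgt
  exact Finset.measurable_fun_sum _ fun k _ => Finset.measurable_fun_sum _ fun j _ =>
    measurable_const.indicator (Sset_meas n b L k j)

end Q85.ZR
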