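import Mathlib
import Pool.Agent.Q85.ZR.L
import Pool.Agent.Q85.ZE.F

set_option autoImplicit false

/-!
# The inequality for tubes
-/

namespace Q85.ZR

open Finset Q85.ZE MeasureTheory
open scoped ENNReal

/-- the constant of the inequality for a line -/
noncomputable def Lam (n b m N r J L : ℕ) (α : Fin n → ℝ) : ℝ :=
  (r:ℝ) ^ ((n + 1) * (J + 3) + (J + 2)) * Real.exp (CL n b L J) * (b:ℝ) ^ (n * m)
    * (b:ℝ) ^ (∑ l : Fin n, jl α b m N l)

theorem Lam_nonneg (n b m N r J L : ℕ) (α : Fin n → ℝ) : 0 ≤ Lam n b m N r J L α := by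
  unfold Lam
  positivity

theorem line_pow {n b N r m J L : ℕ} (hb : 1 ≤ b) (hm0 : 0 < m) (hr : 1 ≤ r)
    (hJN : (J + 1) * m ≤ N) (hJN' : N < (J + 1) * (m + 1)) (g : (Fin (n + 1) → ℤ) → ℝ)
    (hg : RankLE b N r g) (hg0 : ∀ z, 0 ≤ g z) (P α : Fin n → ℝ) (hL : ∀ l, |α l| ≤ L)
    (F : Finset ℤ)
    (htop : ∀ i ∈ F, ∀ i' ∈ F, blk (b ^ N) (pth P α i) = blk (b ^ N) (pth P α i')) :
    (∑ i ∈ F, g (res (b ^ N) (pth P α i))) ^ (n + 1) ≤
      Lam n b m N r J L α * ∑ z ∈ ZE.box (n + 1) (b ^ N), g z ^ (n + 1) := by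
  classical
  have hb0 : 0 < b := hb
  have hbr : (0:ℝ) < b := by exact_mod_cast hb0
  have hrr : (0:ℝ) < r := by exact_mod_cast hr
  set F' := F.filter fun i => 0 < g (res (b ^ N) (pth P α i)) with hF'
  have hsum : ∑ i ∈ F, g (res (b ^ N) (pth P α i)) = ∑ i ∈ F', g (res (b ^ N) (pth P α i)) := by
    rw [hF', Finset.sum_filter]
    refine Finset.sum_congr rfl fun i _ => ?_
    split_ifs with h
    · rfl
    · exact le_antisymm (not_lt.1 h) (hg0 _)
  have hQ0 : 0 ≤ ∑ z ∈ ZE.box (n + 1) (b ^ N), g z ^ (n + 1) :=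
    Finset.sum_nonneg fun z _ => pow_nonneg (hg0 z) _
  rw [hsum]
  rcases F'.eq_empty_or_nonempty with hE | hE
  · rw [hE, Finset.sum_empty, zero_pow (by omega)]
    exact mul_nonneg (Lam_nonneg _ _ _ _ _ _ _ _) hQ0
  have hpos : ∀ i ∈ F', 0 < g (res (b ^ N) (pth P α i)) := fun i hi => (Finset.mem_filter.1 hi).2
  have h1 := line_log (L := L) hb hm0 hJN hJN' g hg P α hL F' hpos hE
    (fun i hi i' hi' => htop i (Finset.mem_filter.1 hi).1 i' (Finset.mem_filter.1 hi').1)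
  have hS0 : 0 < ∑ i ∈ F', g (res (b ^ N) (pth P α i)) := Finset.sum_pos hpos hE
  have hQ : 0 < ∑ z ∈ ZE.box (n + 1) (b ^ N), g z ^ (n + 1) := by
    obtain ⟨i, hi⟩ := hE
    refine lt_of_lt_of_le (pow_pos (hpos i hi) (n + 1)) ?_
    exact Finset.single_le_sum (f := fun z => g z ^ (n + 1)) (fun z _ => pow_nonneg (hg0 z) _)
      (res_mem (pow_pos hb0 _) _)
  have hLam : 0 < Lam n b m N r J L α := by
    unfold Lam
    positivity
  rw [← Real.log_le_log_iff (by positivity) (by positivity), Real.log_mul hLam.ne' hQ.ne',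
    Real.log_pow]
  have h2 : Real.log (Lam n b m N r J L α) = ((n + 1) * (J + 3) + (J + 2)) * Real.log r
      + CL n b L J + n * m * Real.log b
      + Real.log b * ((∑ l : Fin n, jl α b m N l : ℕ) : ℝ) := by
    unfold Lam
    rw [Real.log_mul (by positivity) (by positivity), Real.log_mul (by positivity) (by positivity),
      Real.log_mul (by positivity) (by positivity), Real.log_exp, Real.log_pow, Real.log_pow,
      Real.log_pow]
    push_cast
    ring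
  rw [h2]
  push_cast at h1 ⊢
  linarith

/-- the function with the values `φ` on the cells of side `s` -/
noncomputable def cellFun {d : ℕ} (s : ℝ) (φ : (Fin d → ℤ) → ℝ) (x : Sp d) : ℝ≥0∞ :=
  ENNReal.ofReal (φ (idx s x))

theorem lint_cell {d : ℕ} {s : ℝ} (hs : 0 < s) (φ : (Fin d → ℤ) → ℝ) (D : ℕ) (v : Fin d → ℤ) :
    ∫⁻ x in cell s v, cellFun s φ x ^ D = ENNReal.ofReal (φ v) ^ D * ENNReal.ofReal (s ^ d) := by
  have h1 : ∫⁻ x in cell s v, cellFun s φ x ^ D = ∫⁻ _ in cell s v, ENNReal.ofReal (φ v) ^ D := by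
    refine setLIntegral_congr_fun (cell_meas s v) fun x hx => ?_
    rw [mem_cell_iff hs] at hx
    simp only [cellFun, hx]
  rw [h1, setLIntegral_const, cell_vol hs]

theorem block_le {d : ℕ} {s : ℝ} (hs : 0 < s) {M : ℕ} (B : Fin d → ℤ) (φ : (Fin d → ℤ) → ℝ)
    (hφ : ∀ v, 0 ≤ φ v) (D : ℕ) :
    ENNReal.ofReal (s ^ d * ∑ z ∈ ZE.box d M, φ (fun l => (M:ℤ) * B l + z l) ^ D)
      ≤ ∫⁻ x, cellFun s φ x ^ D := by
  have h1 : ∫⁻ x in ⋃ z ∈ ZE.box d M, cell s (fun l => (M:ℤ) * B l + z l), cellFun s φ x ^ D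
      ≤ ∫⁻ x, cellFun s φ x ^ D := setLIntegral_le_lintegral _ _
  refine le_trans (le_of_eq ?_) h1
  rw [lintegral_biUnion_finset]
  · rw [Finset.sum_congr rfl fun z _ => lint_cell hs φ D _, ← Finset.sum_mul,
      mul_comm (s ^ d), ENNReal.ofReal_mul (Finset.sum_nonneg fun z _ => pow_nonneg (hφ _) _),
      ENNReal.ofReal_sum_of_nonneg (fun z _ => pow_nonneg (hφ _) _)]
    congr 1
    exact Finset.sum_congr rfl fun z _ => ENNReal.ofReal_pow (hφ _) _
  · intro w _ w' _ hww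
    refine cell_disj hs fun h => hww ?_
    funext l
    have := congrFun h l
    simpa using this
  · exact fun w _ => cell_meas _ _

theorem one_tube_fun {n b N r m J : ℕ} (hb : 1 ≤ b) (hm0 : 0 < m) (hr : 1 ≤ r)
    (hJN : (J + 1) * m ≤ N) (hJN' : N < (J + 1) * (m + 1)) {s : ℝ} (hs : s = ((b:ℝ) ^ N)⁻¹)
    (φ : (Fin (n + 1) → ℤ) → ℝ) (hφ : ∀ v, 0 ≤ φ v)
    (hrank : ∀ B : Fin (n + 1) → ℤ,
      RankLE b N r (fun z => φ (fun l => ((b ^ N : ℕ) : ℤ) * B l + z l)))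
    (c e : Sp (n + 1)) (he : ‖e‖ = 1) (α : Fin n → ℝ) (hα : ∀ l, |α l| ≤ (1:ℕ))
    (hslope : ∀ l : Fin n, e l.succ = α l * e 0) :
    (∫⁻ x in tube (1 / 2) s c e, cellFun s φ x) ^ (n + 1) ≤
      ENNReal.ofReal ((s ^ (n + 1)) ^ n * ((Mc n 1 1 : ℝ) ^ (n + 1) * Lam n b m N r J 1 α))
        * ∫⁻ x, cellFun s φ x ^ (n + 1) := by
  classical
  set T := tube (1 / 2) s c e with hT
  have hb0 : 0 < b := hb
  have hbr : (1:ℝ) ≤ b := by exact_mod_cast hb
  set M : ℕ := b ^ N with hM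
  have hM0 : 0 < M := pow_pos hb0 _
  have hs0 : 0 < s := by rw [hs]; positivity
  have hMs : (M:ℝ) * s = 1 := by
    rw [hs, hM]
    push_cast
    exact mul_inv_cancel₀ (by positivity)
  have hs1 : s ≤ 1 := by
    rw [hs]
    exact inv_le_one_of_one_le₀ (one_le_pow₀ hbr)
  have hℓ : (1 / 2 : ℝ) ≤ (1:ℕ) := by norm_num
  have hρ : s ≤ (1:ℕ) * s := by
    push_cast
    linarith
  set D : ℕ := (2 * 1 + 1) * 1 + 1 with hD
  set P : Fin n → ℝ := fun l => (c l.succ - α l * c 0) / s with hP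
  set Wb : Finset (Fin n → ℤ) := Fintype.piFinset fun _ => Finset.Icc (-(D:ℤ)) (D:ℤ) with hWb
  set Bb : Finset (Fin (n + 1) → ℤ) := Fintype.piFinset fun i =>
    Finset.Icc (⌊c i⌋ - ((2 * 1 + 1 : ℕ) : ℤ)) (⌊c i⌋ + ((2 * 1 + 1 : ℕ) : ℤ)) with hBb
  set Vb : Finset (Fin (n + 1) → ℤ) := Fintype.piFinset fun i =>
    Finset.Icc ((M:ℤ) * (⌊c i⌋ - ((2 * 1 + 1 : ℕ) : ℤ))) ((M:ℤ) * (⌊c i⌋ + ((2 * 1 + 1 : ℕ) : ℤ)) + M)
    with hVb
  set V : Finset (Fin (n + 1) → ℤ) := Vb.filter fun v => (cell s v ∩ T).Nonempty with hV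
  have hVmem : ∀ v, (cell s v ∩ T).Nonempty → v ∈ V ∧ blk M v ∈ Bb ∧
      (fun l : Fin n => v l.succ - ⌊P l + (v 0 : ℤ) * α l⌋) ∈ Wb := by
    rintro v ⟨x, hx1, hx2⟩
    have hxv := (mem_cell_iff hs0).1 hx1
    have h1 : blk M v ∈ Bb := by
      rw [hBb, Fintype.mem_piFinset]
      intro i
      rw [← hxv]
      exact top_block hs1 hℓ hρ hM0 hMs c e he hx2 i
    refine ⟨?_, h1, ?_⟩
    · rw [hV, Finset.mem_filter]
      refine ⟨?_, x, hx1, hx2⟩
      rw [hVb, Fintype.mem_piFinset]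
      intro i
      rw [hBb, Fintype.mem_piFinset] at h1
      have h2 := h1 i
      rw [Finset.mem_Icc] at h2 ⊢
      have hMz : (0:ℤ) < M := by exact_mod_cast hM0
      have a1 := Int.emod_nonneg (v i) hMz.ne'
      have a2 := Int.emod_lt_of_pos (v i) hMz
      have a3 := Int.emod_def (v i) M
      simp only [blk] at h2
      have a4 := mul_le_mul_of_nonneg_left h2.1 hMz.le
      have a5 := mul_le_mul_of_nonneg_left h2.2 hMz.le
      constructor <;> linarith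
    · rw [hWb, Fintype.mem_piFinset]
      intro l
      have := disp (R := 1) le_rfl hs0 hρ c e α hα hslope hx2 l
      rw [hxv] at this
      exact this
  have hcover : T ⊆ ⋃ v ∈ V, cell s v := by
    intro x hx
    rw [Set.mem_iUnion₂]
    exact ⟨idx s x, (hVmem _ ⟨x, (mem_cell_iff hs0).2 rfl, hx⟩).1, (mem_cell_iff hs0).2 rfl⟩
  have hlint : ∫⁻ x in T, cellFun s φ x ≤ ENNReal.ofReal (s ^ (n + 1) * ∑ v ∈ V, φ v) := by
    calc ∫⁻ x in T, cellFun s φ x ≤ ∫⁻ x in ⋃ v ∈ V, cell s v, cellFun s φ x :=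
          lintegral_mono_set hcover
      _ = ENNReal.ofReal (s ^ (n + 1) * ∑ v ∈ V, φ v) := by
          rw [lintegral_biUnion_finset (fun v _ w _ h => cell_disj hs0 h)
            (fun v _ => cell_meas _ _)]
          have h1 : ∀ v ∈ V, ∫⁻ x in cell s v, cellFun s φ x
              = ENNReal.ofReal (φ v) * ENNReal.ofReal (s ^ (n + 1)) := by
            intro v _
            have := lint_cell hs0 φ 1 v
            simp only [pow_one] at this
            exact this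
          rw [Finset.sum_congr rfl h1, ← Finset.sum_mul, mul_comm (s ^ (n + 1)),
            ENNReal.ofReal_mul (Finset.sum_nonneg fun v _ => hφ v),
            ENNReal.ofReal_sum_of_nonneg fun v _ => hφ v]
  -- the classes
  have hWcard : Wb.card = (2 * D + 1) ^ n := by
    rw [hWb, Fintype.card_piFinset]
    simp only [Int.card_Icc, Finset.prod_const, Finset.card_univ, Fintype.card_fin]
    congr 1
  have hBcard : Bb.card = (2 * (2 * 1 + 1) + 1) ^ (n + 1) := by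
    rw [hBb, Fintype.card_piFinset]
    have : ∀ i : Fin (n + 1), (Finset.Icc (⌊c i⌋ - ((2 * 1 + 1 : ℕ) : ℤ))
        (⌊c i⌋ + ((2 * 1 + 1 : ℕ) : ℤ))).card = 2 * (2 * 1 + 1) + 1 := by
      intro i
      rw [Int.card_Icc]
      omega
    rw [Finset.prod_congr rfl fun i _ => this i]
    simp
  have hMcard : (Wb ×ˢ Bb).card = Mc n 1 1 := by
    rw [Finset.card_product, hWcard, hBcard]
    rfl
  have hMc0 : 0 < Mc n 1 1 := by unfold Mc; positivity
  set f : (Fin (n + 1) → ℤ) → (Fin n → ℤ) × (Fin (n + 1) → ℤ) :=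
    fun v => (fun l => v l.succ - ⌊P l + (v 0 : ℤ) * α l⌋, blk M v) with hf
  have hmaps : ∀ v ∈ V, f v ∈ Wb ×ˢ Bb := by
    intro v hv
    rw [hV, Finset.mem_filter] at hv
    have := hVmem v hv.2
    rw [Finset.mem_product]
    exact ⟨this.2.2, this.2.1⟩
  set S : (Fin n → ℤ) × (Fin (n + 1) → ℤ) → ℝ := fun p => ∑ v ∈ V.filter (fun v => f v = p), φ v
    with hS
  have hS0 : ∀ p, 0 ≤ S p := fun p => Finset.sum_nonneg fun v _ => hφ v
  have hsumS : ∑ v ∈ V, φ v = ∑ p ∈ Wb ×ˢ Bb, S p := by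
    rw [hS]
    exact (Finset.sum_fiberwise_of_maps_to hmaps φ).symm
  obtain ⟨p, hp, hpmax⟩ := Finset.exists_max_image (Wb ×ˢ Bb) S
    (Finset.card_pos.1 (by rw [hMcard]; exact hMc0))
  have hsumle : ∑ v ∈ V, φ v ≤ Mc n 1 1 * S p := by
    rw [hsumS]
    calc ∑ p' ∈ Wb ×ˢ Bb, S p' ≤ ∑ _p' ∈ Wb ×ˢ Bb, S p := Finset.sum_le_sum hpmax
      _ = Mc n 1 1 * S p := by rw [Finset.sum_const, hMcard, nsmul_eq_mul]
  -- the class `p` is a piece of a line
  set G := V.filter (fun v => f v = p) with hG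
  set P' : Fin n → ℝ := fun l => P l + p.1 l with hP'
  have hline : ∀ v ∈ G, pth P' α (v 0) = v := by
    intro v hv
    rw [hG, Finset.mem_filter] at hv
    have h1 : (fun l : Fin n => v l.succ - ⌊P l + (v 0 : ℤ) * α l⌋) = p.1 := congrArg Prod.fst hv.2
    funext i
    refine Fin.cases rfl (fun l => ?_) i
    show ⌊P l + (p.1 l : ℝ) + (v 0 : ℤ) * α l⌋ = v l.succ
    have h2 := congrFun h1 l
    have h3 : P l + (p.1 l : ℝ) + (v 0 : ℤ) * α l = P l + (v 0 : ℤ) * α l + (p.1 l : ℤ) := by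
      ring
    rw [h3, Int.floor_add_intCast, ← h2]
    ring
  set F : Finset ℤ := G.image fun v => v 0 with hF
  have hinj : Set.InjOn (fun v : Fin (n + 1) → ℤ => v 0) (G : Set (Fin (n + 1) → ℤ)) := by
    intro v hv w hw h
    have h' : v 0 = w 0 := h
    rw [← hline v hv, ← hline w hw, h']
  have hFmem : ∀ i ∈ F, pth P' α i ∈ G := by
    intro i hi
    rw [hF, Finset.mem_image] at hi
    obtain ⟨v, hv, rfl⟩ := hi
    rw [hline v hv]
    exact hv
  have hblk : ∀ i ∈ F, blk M (pth P' α i) = p.2 := by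
    intro i hi
    have := hFmem i hi
    rw [hG, Finset.mem_filter] at this
    exact congrArg Prod.snd this.2
  set g : (Fin (n + 1) → ℤ) → ℝ := fun z => φ (fun l => ((M:ℕ) : ℤ) * p.2 l + z l) with hg
  have hgres : ∀ i ∈ F, g (res M (pth P' α i)) = φ (pth P' α i) := by
    intro i hi
    simp only [hg]
    congr 1
    funext l
    have h1 := congrFun (hblk i hi) l
    simp only [blk] at h1
    simp only [res]
    rw [← h1]
    exact Int.mul_ediv_add_emod _ _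
  have hSp : S p = ∑ i ∈ F, g (res M (pth P' α i)) := by
    rw [Finset.sum_congr rfl hgres, hF, Finset.sum_image hinj]
    refine Finset.sum_congr rfl fun v hv => ?_
    rw [hline v hv]
  have hlp := line_pow (L := 1) hb hm0 hr hJN hJN' g (hrank p.2) (fun z => hφ _) P' α hα F
    (fun i hi i' hi' => (hblk i hi).trans (hblk i' hi').symm)
  rw [← hSp] at hlp
  set Q : ℝ := ∑ z ∈ ZE.box (n + 1) M, g z ^ (n + 1) with hQ
  have hQ0 : 0 ≤ Q := Finset.sum_nonneg fun z _ => pow_nonneg (hφ _) _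
  have hblock := block_le hs0 (M := M) p.2 φ hφ (n + 1)
  have hsum0 : 0 ≤ ∑ v ∈ V, φ v := Finset.sum_nonneg fun v _ => hφ v
  have hLam := Lam_nonneg n b m N r J 1 α
  calc (∫⁻ x in T, cellFun s φ x) ^ (n + 1)
      ≤ ENNReal.ofReal (s ^ (n + 1) * ∑ v ∈ V, φ v) ^ (n + 1) := pow_le_pow_left' hlint _
    _ = ENNReal.ofReal ((s ^ (n + 1) * ∑ v ∈ V, φ v) ^ (n + 1)) :=
        (ENNReal.ofReal_pow (by positivity) _).symm
    _ ≤ ENNReal.ofReal ((s ^ (n + 1)) ^ n * ((Mc n 1 1 : ℝ) ^ (n + 1) * Lam n b m N r J 1 α)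
          * (s ^ (n + 1) * Q)) := by
        apply ENNReal.ofReal_le_ofReal
        have h1 : (∑ v ∈ V, φ v) ^ (n + 1)
            ≤ (Mc n 1 1 : ℝ) ^ (n + 1) * (Lam n b m N r J 1 α * Q) := by
          calc (∑ v ∈ V, φ v) ^ (n + 1) ≤ (Mc n 1 1 * S p) ^ (n + 1) :=
                pow_le_pow_left₀ hsum0 hsumle _
            _ = (Mc n 1 1 : ℝ) ^ (n + 1) * S p ^ (n + 1) := mul_pow _ _ _
            _ ≤ _ := mul_le_mul_of_nonneg_left hlp (by positivity)
        calc (s ^ (n + 1) * ∑ v ∈ V, φ v) ^ (n + 1)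
            = (s ^ (n + 1)) ^ (n + 1) * (∑ v ∈ V, φ v) ^ (n + 1) := mul_pow _ _ _
          _ ≤ (s ^ (n + 1)) ^ (n + 1)
              * ((Mc n 1 1 : ℝ) ^ (n + 1) * (Lam n b m N r J 1 α * Q)) :=
              mul_le_mul_of_nonneg_left h1 (by positivity)
          _ = _ := by ring
    _ = ENNReal.ofReal ((s ^ (n + 1)) ^ n * ((Mc n 1 1 : ℝ) ^ (n + 1) * Lam n b m N r J 1 α))
          * ENNReal.ofReal (s ^ (n + 1) * Q) := ENNReal.ofReal_mul (by positivity)
    _ ≤ _ := mul_le_mul_right hblock _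

end Q85.ZR
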