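import Mathlib
import Pool.Agent.Q85.ZR.M
import Pool.Agent.Q85.ZE.G

set_option autoImplicit false

/-!
# The maximal function at one direction
-/

namespace Q85.ZR

open Finset Q85.ZE MeasureTheory
open scoped ENNReal

/-- the Kakeya maximal function -/
noncomputable def kakeyaMax {d : ℕ} (f : Sp d → ℝ≥0∞) (δ : ℝ) (e : Sp d) : ℝ≥0∞ :=
  ⨆ a, (volume (tube (1 / 2) δ a e))⁻¹ * ∫⁻ x in tube (1 / 2) δ a e, f x

/-- the constant in the lower bound of the volume of a tube -/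
noncomputable def cvol (d : ℕ) : ℝ := (volume (Metric.ball (0 : Sp d) 1)).toReal / (3 * 2 ^ d)

theorem cvol_pos (d : ℕ) : 0 < cvol d := by
  unfold cvol
  have : 0 < (volume (Metric.ball (0 : Sp d) 1)).toReal := by
    refine ENNReal.toReal_pos ?_ ?_
    · exact (Metric.measure_ball_pos volume _ zero_lt_one).ne'
    · exact measure_ball_lt_top.ne
  positivity

theorem tube_vol_ge {n : ℕ} {δ : ℝ} (h0 : 0 < δ) (h1 : δ ≤ 1) (a e : Sp (n + 1)) (he : ‖e‖ = 1) :
    ENNReal.ofReal (cvol (n + 1) * δ ^ n) ≤ volume (tube (1 / 2) δ a e) := by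
  set m : ℕ := ⌊(1 - δ) / (2 * δ)⌋₊ with hm
  set Ks : Finset ℤ := Finset.Icc (-(m:ℤ)) m with hKs
  have hmle : (m:ℝ) ≤ (1 - δ) / (2 * δ) := Nat.floor_le (div_nonneg (by linarith) (by linarith))
  have hmgt : (1 - δ) / (2 * δ) < m + 1 := Nat.lt_floor_add_one _
  rw [le_div_iff₀ (by positivity)] at hmle
  rw [div_lt_iff₀ (by positivity)] at hmgt
  have hinner : inner ℝ e e = (1:ℝ) := by
    rw [real_inner_self_eq_norm_sq, he]
    norm_num
  have hsub : ⋃ k ∈ Ks, Metric.ball (a + ((k:ℝ) * δ) • e) (δ / 2) ⊆ tube (1 / 2) δ a e := by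
    intro x hx
    rw [Set.mem_iUnion₂] at hx
    obtain ⟨k, hk, hx⟩ := hx
    rw [hKs, Finset.mem_Icc] at hk
    rw [mem_ball_iff_norm] at hx
    set y : Sp (n + 1) := x - (a + ((k:ℝ) * δ) • e) with hy
    have hxa : x - a = ((k:ℝ) * δ) • e + y := by rw [hy]; abel
    have hk' : |(k:ℝ)| ≤ m := by
      rw [← Int.cast_abs]
      have : |k| ≤ (m:ℤ) := abs_le.2 hk
      exact_mod_cast this
    have hie : |inner ℝ e y| ≤ ‖y‖ := by
      have := abs_real_inner_le_norm e y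
      rwa [he, one_mul] at this
    have hin : inner ℝ e (x - a) = (k:ℝ) * δ + inner ℝ e y := by
      rw [hxa, inner_add_right, inner_smul_right, hinner, mul_one]
    constructor
    · rw [hin]
      calc |(k:ℝ) * δ + inner ℝ e y| ≤ |(k:ℝ) * δ| + |inner ℝ e y| := abs_add_le _ _
        _ ≤ m * δ + δ / 2 := by
            refine add_le_add ?_ (hie.trans hx.le)
            rw [abs_mul, abs_of_pos h0]
            exact mul_le_mul_of_nonneg_right hk' h0.le
        _ ≤ 1 / 2 := by linarith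
    · rw [hin]
      have e1 : x - a - ((k:ℝ) * δ + inner ℝ e y) • e = y - (inner ℝ e y) • e := by
        rw [hxa, add_smul]
        abel
      rw [e1]
      calc ‖y - (inner ℝ e y) • e‖ ≤ ‖y‖ + ‖(inner ℝ e y : ℝ) • e‖ := norm_sub_le _ _
        _ ≤ δ / 2 + δ / 2 := by
            refine add_le_add hx.le ?_
            rw [norm_smul, he, mul_one, Real.norm_eq_abs]
            exact hie.trans hx.le
        _ = δ := by ring
  refine le_trans ?_ (measure_mono hsub)
  rw [measure_biUnion_finset]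
  · have h2 : ∀ k ∈ Ks, volume (Metric.ball (a + ((k:ℝ) * δ) • e) (δ / 2))
        = ENNReal.ofReal ((δ / 2) ^ (n + 1) * (volume (Metric.ball (0 : Sp (n + 1)) 1)).toReal) := by
      intro k _
      rw [Measure.addHaar_ball_of_pos _ _ (by positivity : 0 < δ / 2), finrank_euclideanSpace_fin,
        ENNReal.ofReal_mul (by positivity), ENNReal.ofReal_toReal measure_ball_lt_top.ne]
    rw [Finset.sum_congr rfl h2, Finset.sum_const, nsmul_eq_mul]
    have h3 : Ks.card = 2 * m + 1 := by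
      rw [hKs, Int.card_Icc]
      omega
    rw [h3, ← ENNReal.ofReal_natCast, ← ENNReal.ofReal_mul (by positivity)]
    apply ENNReal.ofReal_le_ofReal
    set w := (volume (Metric.ball (0 : Sp (n + 1)) 1)).toReal with hw
    have hw0 : 0 ≤ w := ENNReal.toReal_nonneg
    have h4 : 1 ≤ 3 * δ * ((2 * m + 1 : ℕ) : ℝ) := by
      push_cast
      rcases le_total (1 / 3) δ with h | h
      · have : (0:ℝ) ≤ m := by positivity
        nlinarith
      · nlinarith
    have h5 : cvol (n + 1) * δ ^ n = (δ ^ n * w / (3 * 2 ^ (n + 1))) * 1 := by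
      unfold cvol
      rw [← hw]
      ring
    rw [h5]
    calc (δ ^ n * w / (3 * 2 ^ (n + 1))) * 1
        ≤ (δ ^ n * w / (3 * 2 ^ (n + 1))) * (3 * δ * ((2 * m + 1 : ℕ) : ℝ)) :=
          mul_le_mul_of_nonneg_left h4 (by positivity)
      _ = ((2 * m + 1 : ℕ) : ℝ) * ((δ / 2) ^ (n + 1) * w) := by
          rw [div_pow]
          field_simp
          ring
  · intro k _ k' _ hkk
    rw [Function.onFun, Set.disjoint_left]
    intro x hx hx'
    rw [mem_ball_iff_norm] at hx hx'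
    have h2 : ((k:ℝ) * δ) • e - ((k':ℝ) * δ) • e
        = (x - (a + ((k':ℝ) * δ) • e)) - (x - (a + ((k:ℝ) * δ) • e)) := by abel
    have h3 : ‖((k:ℝ) * δ) • e - ((k':ℝ) * δ) • e‖ < δ := by
      rw [h2]
      calc _ ≤ ‖x - (a + ((k':ℝ) * δ) • e)‖ + ‖x - (a + ((k:ℝ) * δ) • e)‖ := norm_sub_le _ _
        _ < δ / 2 + δ / 2 := add_lt_add hx' hx
        _ = δ := by ring
    rw [← sub_smul, norm_smul, he, mul_one, Real.norm_eq_abs, ← sub_mul, abs_mul,
      abs_of_pos h0] at h3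
    have h4 : (1:ℝ) ≤ |(k:ℝ) - k'| := by
      have : (1:ℤ) ≤ |k - k'| := Int.one_le_abs (sub_ne_zero.2 hkk)
      exact_mod_cast this
    nlinarith
  · exact fun k _ => Metric.isOpen_ball.measurableSet

/-- the constant of the pointwise inequality -/
noncomputable def Cpt (n b m r J : ℕ) : ℝ :=
  ((cvol (n + 1))⁻¹ * Mc n 1 1) ^ (n + 1)
    * ((r:ℝ) ^ ((n + 1) * (J + 3) + (J + 2)) * Real.exp (CL n b 1 J) * (b:ℝ) ^ (n * m))

theorem Cpt_nonneg (n b m r J : ℕ) : 0 ≤ Cpt n b m r J := by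
  unfold Cpt
  have := (cvol_pos (n + 1)).le
  positivity

/-- **The pointwise inequality.** -/
theorem pointwise {n b N r m J : ℕ} (hb : 1 ≤ b) (hm0 : 0 < m) (hr : 1 ≤ r)
    (hJN : (J + 1) * m ≤ N) (hJN' : N < (J + 1) * (m + 1)) {s : ℝ} (hs : s = ((b:ℝ) ^ N)⁻¹)
    (φ : (Fin (n + 1) → ℤ) → ℝ) (hφ : ∀ v, 0 ≤ φ v)
    (hrank : ∀ B : Fin (n + 1) → ℤ,
      RankLE b N r (fun z => φ (fun l => ((b ^ N : ℕ) : ℤ) * B l + z l)))
    (e : Sp (n + 1)) (he : ‖e‖ = 1) (α : Fin n → ℝ) (hα : ∀ l, |α l| ≤ (1:ℕ))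
    (hslope : ∀ l : Fin n, e l.succ = α l * e 0) :
    kakeyaMax (cellFun s φ) s e ^ (n + 1) ≤
      ENNReal.ofReal (Cpt n b m r J) * Wgt n b 1 m N α * ∫⁻ x, cellFun s φ x ^ (n + 1) := by
  have hbr : (1:ℝ) ≤ b := by exact_mod_cast hb
  have hs0 : 0 < s := by rw [hs]; positivity
  have hs1 : s ≤ 1 := by
    rw [hs]
    exact inv_le_one_of_one_le₀ (one_le_pow₀ hbr)
  set I := ∫⁻ x, cellFun s φ x ^ (n + 1) with hI
  have hc := cvol_pos (n + 1)
  have hone : ∀ a, ((volume (tube (1 / 2) s a e))⁻¹ * ∫⁻ x in tube (1 / 2) s a e, cellFun s φ x)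
      ^ (n + 1) ≤ ENNReal.ofReal (Cpt n b m r J) * Wgt n b 1 m N α * I := by
    intro a
    have h1 := one_tube_fun hb hm0 hr hJN hJN' hs φ hφ hrank a e he α hα hslope
    have h2 : (volume (tube (1 / 2) s a e))⁻¹ ≤ ENNReal.ofReal ((cvol (n + 1) * s ^ n)⁻¹) := by
      rw [ENNReal.ofReal_inv_of_pos (by positivity)]
      exact ENNReal.inv_le_inv' (tube_vol_ge hs0 hs1 a e he)
    have h3 := Wgt_ge (m := m) (N := N) (L := 1) hb α hα
    calc ((volume (tube (1 / 2) s a e))⁻¹ * ∫⁻ x in tube (1 / 2) s a e, cellFun s φ x) ^ (n + 1)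
        = ((volume (tube (1 / 2) s a e))⁻¹) ^ (n + 1)
          * (∫⁻ x in tube (1 / 2) s a e, cellFun s φ x) ^ (n + 1) := mul_pow _ _ _
      _ ≤ (ENNReal.ofReal ((cvol (n + 1) * s ^ n)⁻¹)) ^ (n + 1)
          * (ENNReal.ofReal ((s ^ (n + 1)) ^ n * ((Mc n 1 1 : ℝ) ^ (n + 1)
            * Lam n b m N r J 1 α)) * I) := mul_le_mul' (pow_le_pow_left' h2 _) h1
      _ = ENNReal.ofReal (Cpt n b m r J * (b:ℝ) ^ (∑ l : Fin n, jl α b m N l)) * I := by
          rw [← mul_assoc, ← ENNReal.ofReal_pow (by positivity),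
            ← ENNReal.ofReal_mul (by positivity)]
          congr 2
          unfold Cpt Lam
          have e1 : (s ^ (n + 1)) ^ n = (s ^ n) ^ (n + 1) := by
            rw [← pow_mul, ← pow_mul, mul_comm]
          rw [e1, mul_inv, mul_pow, mul_pow, inv_pow (s ^ n)]
          have h4 : (s ^ n) ^ (n + 1) ≠ 0 := by positivity
          field_simp
      _ = ENNReal.ofReal (Cpt n b m r J)
          * ENNReal.ofReal ((b:ℝ) ^ (∑ l : Fin n, jl α b m N l)) * I := by
          rw [ENNReal.ofReal_mul (Cpt_nonneg _ _ _ _ _)]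
      _ ≤ _ := mul_le_mul_left (mul_le_mul_right h3 _) _
  unfold kakeyaMax
  rw [ENNReal.iSup_pow]
  exact iSup_le hone

end Q85.ZR
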