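import Mathlib
import Pool.Agent.Q85.ZR.N

set_option autoImplicit false

/-!
# Permutations of the coordinates
-/

namespace Q85.ZR

open Finset Q85.ZE MeasureTheory
open scoped ENNReal

/-- permutation of the coordinates -/
noncomputable def pm {d : ℕ} (σ : Equiv.Perm (Fin d)) : Sp d ≃ₗᵢ[ℝ] Sp d :=
  LinearIsometryEquiv.piLpCongrLeft 2 ℝ ℝ σ

theorem pm_apply {d : ℕ} (σ : Equiv.Perm (Fin d)) (x : Sp d) (i : Fin d) :
    pm σ x i = x (σ.symm i) := rfl

theorem pm_tube {d : ℕ} (σ : Equiv.Perm (Fin d)) (ℓ ρ : ℝ) (a e : Sp d) :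
    pm σ ⁻¹' tube ℓ ρ (pm σ a) (pm σ e) = tube ℓ ρ a e := by
  ext x
  unfold tube
  rw [Set.mem_preimage]
  simp only [Set.mem_ofPred_eq]
  have h1 : pm σ x - pm σ a = pm σ (x - a) := (map_sub _ _ _).symm
  rw [h1, LinearIsometryEquiv.inner_map_map, ← map_smul, ← map_sub,
    LinearIsometryEquiv.norm_map]

theorem idx_pm {d : ℕ} (σ : Equiv.Perm (Fin d)) (s : ℝ) (x : Sp d) :
    idx s (pm σ x) = fun i => idx s x (σ.symm i) := by
  funext i
  unfold idx
  rw [pm_apply]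

theorem cellFun_pm {d : ℕ} (σ : Equiv.Perm (Fin d)) (s : ℝ) (φ : (Fin d → ℤ) → ℝ) (x : Sp d) :
    cellFun s (fun v => φ fun i => v (σ i)) (pm σ x) = cellFun s φ x := by
  unfold cellFun
  rw [idx_pm]
  simp

theorem kakeya_pm {d : ℕ} (σ : Equiv.Perm (Fin d)) (s : ℝ) (φ : (Fin d → ℤ) → ℝ) (e : Sp d) :
    kakeyaMax (cellFun s φ) s e ≤ kakeyaMax (cellFun s fun v => φ fun i => v (σ i)) s (pm σ e) := by
  unfold kakeyaMax
  refine iSup_le fun a => ?_
  have hmp : MeasurePreserving (pm σ) := LinearIsometryEquiv.measurePreserving (pm σ)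
  have hemb : MeasurableEmbedding (pm σ) := (pm σ).toHomeomorph.measurableEmbedding
  have h1 : volume (tube (1 / 2) s a e) = volume (tube (1 / 2) s (pm σ a) (pm σ e)) := by
    rw [← pm_tube σ (1 / 2) s a e, hmp.measure_preimage (tube_meas _ _ _ _).nullMeasurableSet]
  have h2 : ∫⁻ x in tube (1 / 2) s a e, cellFun s φ x
      = ∫⁻ x in tube (1 / 2) s (pm σ a) (pm σ e), cellFun s (fun v => φ fun i => v (σ i)) x := by
    have h3 := hmp.setLIntegral_comp_preimage_emb hemb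
      (cellFun s fun v => φ fun i => v (σ i)) (tube (1 / 2) s (pm σ a) (pm σ e))
    rw [pm_tube] at h3
    rw [← h3]
    refine lintegral_congr fun x => ?_
    rw [cellFun_pm]
  rw [h1, h2]
  exact le_iSup (fun a => (volume (tube (1 / 2) s a (pm σ e)))⁻¹
    * ∫⁻ x in tube (1 / 2) s a (pm σ e), cellFun s (fun v => φ fun i => v (σ i)) x) (pm σ a)

theorem lint_pm {d : ℕ} (σ : Equiv.Perm (Fin d)) (s : ℝ) (φ : (Fin d → ℤ) → ℝ) (D : ℕ) :
    ∫⁻ x, cellFun s (fun v => φ fun i => v (σ i)) x ^ D = ∫⁻ x, cellFun s φ x ^ D := by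
  have hmp : MeasurePreserving (pm σ) := LinearIsometryEquiv.measurePreserving (pm σ)
  have hemb : MeasurableEmbedding (pm σ) := (pm σ).toHomeomorph.measurableEmbedding
  rw [← hmp.lintegral_comp_emb hemb]
  refine lintegral_congr fun x => ?_
  rw [cellFun_pm]

theorem box_perm {d s : ℕ} (σ : Equiv.Perm (Fin d)) {z : Fin d → ℤ} (hz : z ∈ ZE.box d s) :
    (fun i => z (σ i)) ∈ ZE.box d s := by
  rw [mem_box] at hz ⊢
  exact fun i => hz _

theorem rank_pm {d b N r : ℕ} (σ : Equiv.Perm (Fin d)) (g : (Fin d → ℤ) → ℝ)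
    (hg : RankLE b N r g) : RankLE b N r (fun z => g fun i => z (σ i)) := by
  obtain ⟨ψ, c, m, h1, h2, h3, h4, h5⟩ := hg
  refine ⟨fun j i z => ψ j i fun l => z (σ l), c, fun j i ρ i' => m j i (fun l => ρ (σ l)) i',
    fun j i z => h1 _ _ _, h2, fun j i ρ i' => h3 _ _ _ _, fun z hz => h4 _ (box_perm σ hz), ?_⟩
  intro j hj i ρ hρ z hz
  exact h5 j hj i _ (box_perm σ hρ) _ (box_perm σ hz)

theorem hrank_pm {d b N r : ℕ} (σ : Equiv.Perm (Fin d)) (φ : (Fin d → ℤ) → ℝ)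
    (hrank : ∀ B : Fin d → ℤ,
      RankLE b N r (fun z => φ (fun l => ((b ^ N : ℕ) : ℤ) * B l + z l))) (B : Fin d → ℤ) :
    RankLE b N r (fun z => (fun v : Fin d → ℤ => φ fun i => v (σ i))
      (fun l => ((b ^ N : ℕ) : ℤ) * B l + z l)) :=
  rank_pm σ _ (hrank fun i => B (σ i))

/-- the slopes with respect to the coordinate number `i₀` -/
noncomputable def slope {n : ℕ} (i₀ : Fin (n + 1)) (x : Sp (n + 1)) : Fin n → ℝ :=
  fun l => x (Equiv.swap 0 i₀ l.succ) / x i₀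

/-- the weight of a direction -/
noncomputable def Wd (n b m N : ℕ) (i₀ : Fin (n + 1)) (x : Sp (n + 1)) : ℝ≥0∞ :=
  ({x : Sp (n + 1) | x i₀ ≠ 0 ∧ ∀ l, |x l| ≤ |x i₀|}).indicator
    (fun x => Wgt n b 1 m N (slope i₀ x)) x

theorem pointwise_all {n b N r m J : ℕ} (hb : 1 ≤ b) (hm0 : 0 < m) (hr : 1 ≤ r)
    (hJN : (J + 1) * m ≤ N) (hJN' : N < (J + 1) * (m + 1)) {s : ℝ} (hs : s = ((b:ℝ) ^ N)⁻¹)
    (φ : (Fin (n + 1) → ℤ) → ℝ) (hφ : ∀ v, 0 ≤ φ v)
    (hrank : ∀ B : Fin (n + 1) → ℤ,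
      RankLE b N r (fun z => φ (fun l => ((b ^ N : ℕ) : ℤ) * B l + z l)))
    (e : Sp (n + 1)) (he : ‖e‖ = 1) :
    kakeyaMax (cellFun s φ) s e ^ (n + 1) ≤
      ENNReal.ofReal (Cpt n b m r J) * (∑ i₀, Wd n b m N i₀ e)
        * ∫⁻ x, cellFun s φ x ^ (n + 1) := by
  obtain ⟨i₀, -, hi₀⟩ := Finset.exists_max_image Finset.univ (fun i => |e i|)
    ⟨0, Finset.mem_univ _⟩
  have hne : e i₀ ≠ 0 := by
    intro h
    have h1 : e = 0 := by
      ext i
      have := hi₀ i (Finset.mem_univ _)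
      rw [h, abs_zero] at this
      simpa using le_antisymm this (abs_nonneg _)
    rw [h1, norm_zero] at he
    exact zero_ne_one he
  set σ : Equiv.Perm (Fin (n + 1)) := Equiv.swap 0 i₀ with hσ
  have hσs : σ.symm = σ := Equiv.symm_swap _ _
  have hpm : ∀ i, pm σ e i = e (σ i) := by
    intro i
    rw [pm_apply, hσs]
  have hpos : 0 < |e i₀| := abs_pos.2 hne
  have h1 := pointwise hb hm0 hr hJN hJN' hs (fun v => φ fun i => v (σ i)) (fun v => hφ _)
    (hrank_pm σ φ hrank) (pm σ e) (by rw [LinearIsometryEquiv.norm_map]; exact he) (slope i₀ e)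
    (fun l => by
      unfold slope
      rw [abs_div]
      push_cast
      exact div_le_one_of_le₀ (hi₀ _ (Finset.mem_univ _)) (abs_nonneg _))
    (fun l => by
      rw [hpm, hpm]
      unfold slope
      rw [← hσ]
      have : σ 0 = i₀ := Equiv.swap_apply_left _ _
      rw [this]
      field_simp)
  rw [lint_pm] at h1
  refine (pow_le_pow_left' (kakeya_pm σ s φ e) _).trans (h1.trans ?_)
  refine mul_le_mul_left (mul_le_mul_right ?_ _) _
  refine le_trans (le_of_eq ?_) (Finset.single_le_sum (f := fun i₀ => Wd n b m N i₀ e)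
    (fun _ _ => zero_le) (Finset.mem_univ i₀))
  unfold Wd
  rw [Set.indicator_of_mem]
  exact ⟨hne, fun l => hi₀ l (Finset.mem_univ _)⟩

end Q85.ZR
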