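import Mathlib
import Pool.Agent.Q85.ZR.O

set_option autoImplicit false

/-!
# The integral over the sphere
-/

namespace Q85.ZR

open Finset Q85.ZE MeasureTheory
open scoped ENNReal

theorem sphere_le {n : ℕ} (G : Sp (n + 1) → ℝ≥0∞) (hG : Measurable G)
    (hhom : ∀ (c : ℝ) (x : Sp (n + 1)), 0 < c → G (c • x) = G x) :
    ∫⁻ e : Metric.sphere (0 : Sp (n + 1)) 1, G e ∂(volume : Measure (Sp (n + 1))).toSphere
      ≤ ENNReal.ofReal (n + 1) * ∫⁻ x in Metric.ball (0 : Sp (n + 1)) 1, G x := by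
  set μ : Measure (Sp (n + 1)) := volume with hμ
  have hfin : Module.finrank ℝ (Sp (n + 1)) - 1 = n := by
    rw [finrank_euclideanSpace_fin]
    omega
  have hmp := μ.measurePreserving_homeomorphUnitSphereProd
  rw [hfin] at hmp
  have hemb : MeasurableEmbedding (homeomorphUnitSphereProd (Sp (n + 1))) :=
    Homeomorph.measurableEmbedding _
  set one : Set.Ioi (0:ℝ) := ⟨1, Set.mem_Ioi.2 one_pos⟩ with hone
  have hGs : Measurable fun e : Metric.sphere (0 : Sp (n + 1)) 1 => G e :=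
    hG.comp measurable_subtype_coe
  have h1 := hmp.lintegral_comp_emb hemb
    (fun p => G p.1 * (Set.Iio one).indicator (fun _ => (1:ℝ≥0∞)) p.2)
  have h2 : ∫⁻ p, G p.1 * (Set.Iio one).indicator (fun _ => (1:ℝ≥0∞)) p.2
        ∂(μ.toSphere.prod (Measure.volumeIoiPow n))
      = (∫⁻ e : Metric.sphere (0 : Sp (n + 1)) 1, G e ∂μ.toSphere)
        * ENNReal.ofReal (1 / (n + 1)) := by
    rw [lintegral_prod_mul (f := fun e : Metric.sphere (0 : Sp (n + 1)) 1 => G e)
      (g := (Set.Iio one).indicator (fun _ => (1:ℝ≥0∞))) hGs.aemeasurable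
      (measurable_const.indicator measurableSet_Iio).aemeasurable]
    congr 1
    rw [lintegral_indicator_const measurableSet_Iio, one_mul,
      Measure.volumeIoiPow_apply_Iio]
    simp [hone]
  have h3 : ∫⁻ x, G (homeomorphUnitSphereProd (Sp (n + 1)) x).1 *
        (Set.Iio one).indicator (fun _ => (1:ℝ≥0∞)) (homeomorphUnitSphereProd (Sp (n + 1)) x).2
        ∂(μ.comap (↑))
      ≤ ∫⁻ x in Metric.ball (0 : Sp (n + 1)) 1, G x := by
    have h4 : ∀ x : ({0}ᶜ : Set (Sp (n + 1))), G (homeomorphUnitSphereProd (Sp (n + 1)) x).1 *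
        (Set.Iio one).indicator (fun _ => (1:ℝ≥0∞)) (homeomorphUnitSphereProd (Sp (n + 1)) x).2
        = (fun y => (Metric.ball (0 : Sp (n + 1)) 1).indicator G y) (x : Sp (n + 1)) := by
      intro x
      have hx : 0 < ‖(x : Sp (n + 1))‖ := norm_pos_iff.2 x.2
      have e1 : G (homeomorphUnitSphereProd (Sp (n + 1)) x).1 = G x := by
        rw [homeomorphUnitSphereProd_apply_fst_coe]
        exact hhom _ _ (inv_pos.2 hx)
      rw [e1]
      beta_reduce
      by_cases h : ‖(x : Sp (n + 1))‖ < 1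
      · rw [Set.indicator_of_mem, Set.indicator_of_mem, mul_one]
        · rwa [mem_ball_zero_iff]
        · rw [Set.mem_Iio, ← Subtype.coe_lt_coe, homeomorphUnitSphereProd_apply_snd_coe]
          exact h
      · rw [Set.indicator_of_notMem, Set.indicator_of_notMem, mul_zero]
        · rwa [mem_ball_zero_iff]
        · rw [Set.mem_Iio, ← Subtype.coe_lt_coe, homeomorphUnitSphereProd_apply_snd_coe]
          exact h
    rw [lintegral_congr h4, lintegral_subtype_comap (measurableSet_singleton _).compl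
      (fun y => (Metric.ball (0 : Sp (n + 1)) 1).indicator G y)]
    refine (setLIntegral_le_lintegral _ _).trans (le_of_eq ?_)
    rw [lintegral_indicator measurableSet_ball]
  rw [h1, h2] at h3
  have hn : (0:ℝ) < n + 1 := by positivity
  calc ∫⁻ e : Metric.sphere (0 : Sp (n + 1)) 1, G e ∂μ.toSphere
      = ENNReal.ofReal (n + 1) * ((∫⁻ e : Metric.sphere (0 : Sp (n + 1)) 1, G e ∂μ.toSphere)
        * ENNReal.ofReal (1 / (n + 1))) := by
        rw [mul_comm (∫⁻ e : Metric.sphere (0 : Sp (n + 1)) 1, G e ∂μ.toSphere), ← mul_assoc,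
          ← ENNReal.ofReal_mul hn.le, mul_one_div_cancel hn.ne', ENNReal.ofReal_one, one_mul]
    _ ≤ _ := mul_le_mul_right h3 _

theorem slope_meas {n : ℕ} (i₀ : Fin (n + 1)) : Measurable (slope i₀) := by
  unfold slope
  refine measurable_pi_lambda _ fun l => ?_
  have h1 : ∀ i : Fin (n + 1), Measurable fun x : Sp (n + 1) => x i := fun i =>
    (EuclideanSpace.proj (𝕜 := ℝ) i : Sp (n + 1) →L[ℝ] ℝ).continuous.measurable
  exact (h1 _).div (h1 _)

theorem Wd_meas {n : ℕ} (b m N : ℕ) (i₀ : Fin (n + 1)) : Measurable (Wd n b m N i₀) := by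
  have h1 : ∀ i : Fin (n + 1), Measurable fun x : Sp (n + 1) => x i := fun i =>
    (EuclideanSpace.proj (𝕜 := ℝ) i : Sp (n + 1) →L[ℝ] ℝ).continuous.measurable
  have h2 : MeasurableSet {x : Sp (n + 1) | x i₀ ≠ 0 ∧ ∀ l, |x l| ≤ |x i₀|} := by
    have e : {x : Sp (n + 1) | x i₀ ≠ 0 ∧ ∀ l, |x l| ≤ |x i₀|}
        = {x : Sp (n + 1) | x i₀ = 0}ᶜ ∩ ⋂ l, {x : Sp (n + 1) | |x l| ≤ |x i₀|} := by
      ext x
      simp
    rw [e]
    refine MeasurableSet.inter ?_ (MeasurableSet.iInter fun l => ?_)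
    · exact ((h1 i₀) (measurableSet_singleton 0)).compl
    · exact measurableSet_le (continuous_abs.measurable.comp (h1 l))
        (continuous_abs.measurable.comp (h1 i₀))
  exact ((Wgt_meas n b 1 m N).comp (slope_meas i₀)).indicator h2

theorem Wd_hom {n : ℕ} (b m N : ℕ) (i₀ : Fin (n + 1)) (c : ℝ) (x : Sp (n + 1)) (hc : 0 < c) :
    Wd n b m N i₀ (c • x) = Wd n b m N i₀ x := by
  have h1 : slope i₀ (c • x) = slope i₀ x := by
    funext l
    unfold slope
    simp only [PiLp.smul_apply, smul_eq_mul]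
    exact mul_div_mul_left _ _ hc.ne'
  unfold Wd
  by_cases h : x i₀ ≠ 0 ∧ ∀ l, |x l| ≤ |x i₀|
  · rw [Set.indicator_of_mem (show x ∈ {x : Sp (n + 1) | x i₀ ≠ 0 ∧ ∀ l, |x l| ≤ |x i₀|} from h),
      Set.indicator_of_mem, h1]
    refine ⟨?_, fun l => ?_⟩
    · simp only [PiLp.smul_apply, smul_eq_mul]
      exact mul_ne_zero hc.ne' h.1
    · simp only [PiLp.smul_apply, smul_eq_mul, abs_mul]
      exact mul_le_mul_of_nonneg_left (h.2 l) (abs_nonneg _)
  · rw [Set.indicator_of_notMem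
      (show x ∉ {x : Sp (n + 1) | x i₀ ≠ 0 ∧ ∀ l, |x l| ≤ |x i₀|} from h),
      Set.indicator_of_notMem]
    rintro ⟨h2, h3⟩
    refine h ⟨?_, fun l => ?_⟩
    · simp only [PiLp.smul_apply, smul_eq_mul] at h2
      exact right_ne_zero_of_mul h2
    · have := h3 l
      simp only [PiLp.smul_apply, smul_eq_mul, abs_mul] at this
      exact le_of_mul_le_mul_left this (abs_pos.2 hc.ne')

theorem Wd_swap {n : ℕ} (b m N : ℕ) (i₀ : Fin (n + 1)) (x : Sp (n + 1)) :
    Wd n b m N i₀ x = Wd n b m N 0 (pm (Equiv.swap 0 i₀) x) := by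
  have hσs : (Equiv.swap 0 i₀).symm = Equiv.swap 0 i₀ := Equiv.symm_swap _ _
  have hpm : ∀ i, pm (Equiv.swap 0 i₀) x i = x (Equiv.swap 0 i₀ i) := by
    intro i
    rw [pm_apply, hσs]
  have h0 : pm (Equiv.swap 0 i₀) x 0 = x i₀ := by
    rw [hpm, Equiv.swap_apply_left]
  have h1 : slope 0 (pm (Equiv.swap 0 i₀) x) = slope i₀ x := by
    funext l
    unfold slope
    rw [h0, Equiv.swap_self, Equiv.refl_apply, hpm]
  unfold Wd
  by_cases h : x i₀ ≠ 0 ∧ ∀ l, |x l| ≤ |x i₀|
  · rw [Set.indicator_of_mem (show x ∈ {x : Sp (n + 1) | x i₀ ≠ 0 ∧ ∀ l, |x l| ≤ |x i₀|} from h),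
      Set.indicator_of_mem, h1]
    refine ⟨?_, fun l => ?_⟩
    · rw [h0]
      exact h.1
    · rw [h0, hpm]
      exact h.2 _
  · rw [Set.indicator_of_notMem
      (show x ∉ {x : Sp (n + 1) | x i₀ ≠ 0 ∧ ∀ l, |x l| ≤ |x i₀|} from h),
      Set.indicator_of_notMem]
    rintro ⟨h2, h3⟩
    rw [h0] at h2
    refine h ⟨h2, fun l => ?_⟩
    have := h3 (Equiv.swap 0 i₀ l)
    rwa [h0, hpm, Equiv.swap_apply_self] at this

theorem ball_swap {n : ℕ} (b m N : ℕ) (i₀ : Fin (n + 1)) :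
    ∫⁻ x in Metric.ball (0 : Sp (n + 1)) 1, Wd n b m N i₀ x
      = ∫⁻ x in Metric.ball (0 : Sp (n + 1)) 1, Wd n b m N 0 x := by
  set σ : Equiv.Perm (Fin (n + 1)) := Equiv.swap 0 i₀
  have hmp : MeasurePreserving (pm σ) := LinearIsometryEquiv.measurePreserving (pm σ)
  have hemb : MeasurableEmbedding (pm σ) := (pm σ).toHomeomorph.measurableEmbedding
  have h1 := hmp.setLIntegral_comp_preimage_emb hemb (Wd n b m N 0)
    (Metric.ball (0 : Sp (n + 1)) 1)
  have h2 : pm σ ⁻¹' Metric.ball (0 : Sp (n + 1)) 1 = Metric.ball (0 : Sp (n + 1)) 1 := by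
    ext x
    rw [Set.mem_preimage, mem_ball_zero_iff, mem_ball_zero_iff, LinearIsometryEquiv.norm_map]
  rw [h2] at h1
  rw [← h1]
  exact lintegral_congr fun x => Wd_swap b m N i₀ x

theorem scale_le {n : ℕ} (W : (Fin n → ℝ) → ℝ≥0∞) (hW : Measurable W) {t : ℝ} (h0 : t ≠ 0)
    (h1 : |t| ≤ 1) : ∫⁻ y, W (t⁻¹ • y) ≤ ∫⁻ y, W y := by
  have h2 : Measurable fun y : Fin n → ℝ => t⁻¹ • y := measurable_const_smul _
  rw [← lintegral_map hW h2, Measure.map_addHaar_smul _ (inv_ne_zero h0), lintegral_smul_measure]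
  rw [Module.finrank_fin_fun, inv_pow, inv_inv]
  have h3 : ENNReal.ofReal |t ^ n| ≤ 1 := by
    rw [← ENNReal.ofReal_one]
    apply ENNReal.ofReal_le_ofReal
    rw [abs_pow]
    exact pow_le_one₀ (abs_nonneg _) h1
  calc ENNReal.ofReal |t ^ n| • ∫⁻ y, W y ≤ 1 * ∫⁻ y, W y := mul_le_mul_left h3 _
    _ = _ := one_mul _

theorem ball_le {n : ℕ} (b m N : ℕ) :
    ∫⁻ x in Metric.ball (0 : Sp (n + 1)) 1, Wd n b m N 0 x ≤ 2 * ∫⁻ α, Wgt n b 1 m N α := by
  set F : Sp (n + 1) → ℝ≥0∞ := (Metric.ball (0 : Sp (n + 1)) 1).indicator (Wd n b m N 0) with hF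
  have h1 : ∫⁻ x in Metric.ball (0 : Sp (n + 1)) 1, Wd n b m N 0 x = ∫⁻ x, F x := by
    rw [hF, lintegral_indicator measurableSet_ball]
  rw [h1]
  -- to coordinates
  have e1 : ∫⁻ x, F x = ∫⁻ w : Fin (n + 1) → ℝ, F (WithLp.toLp 2 w) := by
    have hmp := EuclideanSpace.volume_preserving_symm_measurableEquiv_toLp (Fin (n + 1))
    have h2 := hmp.lintegral_comp_emb (MeasurableEquiv.measurableEmbedding _)
      (fun w => F (WithLp.toLp 2 w))
    rw [← h2]
    rfl
  have e2 : ∫⁻ w : Fin (n + 1) → ℝ, F (WithLp.toLp 2 w)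
      = ∫⁻ p : ℝ × (Fin n → ℝ), F (WithLp.toLp 2 (Fin.cons p.1 p.2)) := by
    have hmp := (volume_preserving_piFinSuccAbove (fun _ : Fin (n + 1) => ℝ) 0).symm
    have h2 := hmp.lintegral_comp_emb (MeasurableEquiv.measurableEmbedding _)
      (fun w => F (WithLp.toLp 2 w))
    rw [← h2]
    refine lintegral_congr fun p => ?_
    congr 2
    exact (Fin.insertNth_zero' (β := ℝ) p.1 p.2)
  rw [e1, e2]
  -- bound by a product
  set ind : ℝ → ℝ≥0∞ := (Set.Ioo (-1:ℝ) 1 \ {0}).indicator (fun _ => 1) with hind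
  have hindm : Measurable ind :=
    measurable_const.indicator (measurableSet_Ioo.diff (measurableSet_singleton _))
  have hWm := Wgt_meas n b 1 m N
  have hle : ∀ p : ℝ × (Fin n → ℝ), F (WithLp.toLp 2 (Fin.cons p.1 p.2))
      ≤ ind p.1 * Wgt n b 1 m N (p.1⁻¹ • p.2) := by
    rintro ⟨t, y⟩
    set x : Sp (n + 1) := WithLp.toLp 2 (Fin.cons t y) with hx
    have hx0 : x 0 = t := rfl
    have hxs : ∀ l : Fin n, x l.succ = y l := fun l => rfl
    show F x ≤ ind t * Wgt n b 1 m N (t⁻¹ • y)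
    by_cases hb : x ∈ Metric.ball (0 : Sp (n + 1)) 1
    · rw [hF, Set.indicator_of_mem hb]
      by_cases ht : t = 0
      · unfold Wd
        rw [Set.indicator_of_notMem]
        · exact zero_le
        · rintro ⟨h2, -⟩
          exact h2 (hx0.trans ht)
      · have h2 : t ∈ Set.Ioo (-1:ℝ) 1 \ {0} := by
          rw [mem_ball_zero_iff] at hb
          have h3 := (coord_le x 0).trans_lt hb
          rw [hx0, abs_lt] at h3
          exact ⟨h3, ht⟩
        rw [hind, Set.indicator_of_mem h2, one_mul]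
        have h4 : slope 0 x = t⁻¹ • y := by
          funext l
          unfold slope
          rw [Equiv.swap_self, Equiv.refl_apply, hx0, hxs, Pi.smul_apply, smul_eq_mul,
            div_eq_inv_mul]
        unfold Wd
        rw [← h4]
        exact Set.indicator_le_self _ _ _
    · rw [hF, Set.indicator_of_notMem hb]
      exact zero_le
  have hmeas : Measurable fun p : ℝ × (Fin n → ℝ) =>
      ind p.1 * Wgt n b 1 m N (p.1⁻¹ • p.2) := by
    refine (hindm.comp measurable_fst).mul (hWm.comp ?_)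
    exact (measurable_fst.inv).smul measurable_snd
  refine (lintegral_mono hle).trans ?_
  rw [Measure.volume_eq_prod, lintegral_prod _ hmeas.aemeasurable]
  have h5 : ∀ t : ℝ, ∫⁻ y, ind t * Wgt n b 1 m N (t⁻¹ • y) ≤ ind t * ∫⁻ α, Wgt n b 1 m N α := by
    intro t
    by_cases ht : t ∈ Set.Ioo (-1:ℝ) 1 \ {0}
    · rw [hind, Set.indicator_of_mem ht]
      simp only [one_mul]
      exact scale_le _ hWm ht.2 (abs_lt.2 ht.1).le
    · rw [hind, Set.indicator_of_notMem ht]
      simp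
  refine (lintegral_mono h5).trans ?_
  rw [lintegral_mul_const _ hindm]
  refine mul_le_mul_left ?_ _
  rw [hind, lintegral_indicator_const (measurableSet_Ioo.diff (measurableSet_singleton _)), one_mul]
  refine (measure_mono Set.sdiff_subset).trans (le_of_eq ?_)
  rw [Real.volume_Ioo]
  norm_num

/-- the integral of the weight over the sphere -/
theorem sphere_int {n b m N : ℕ} (i₀ : Fin (n + 1)) :
    ∫⁻ e : Metric.sphere (0 : Sp (n + 1)) 1, Wd n b m N i₀ e
        ∂(volume : Measure (Sp (n + 1))).toSphere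
      ≤ ENNReal.ofReal (n + 1) * (2 * ∫⁻ α, Wgt n b 1 m N α) := by
  refine (sphere_le _ (Wd_meas b m N i₀) fun c x hc => Wd_hom b m N i₀ c x hc).trans ?_
  rw [ball_swap]
  exact mul_le_mul_right (ball_le b m N) _

end Q85.ZR
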