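import Mathlib
import Pool.Agent.Q85.ZR.P

set_option autoImplicit false

/-!
# Choice of the parameters
-/

namespace Q85.ZR

open Finset Q85.ZE MeasureTheory
open scoped ENNReal

/-- the constant which does not depend on the number of levels -/
noncomputable def C0 (n : ℕ) : ℝ :=
  2 * (n + 1) ^ 2 * ((cvol (n + 1))⁻¹ * Mc n 1 1) ^ (n + 1) * 3 ^ (n * n) * (2 * n + 3) ^ n * 2 ^ n

theorem C0_pos (n : ℕ) : 0 < C0 n := by
  unfold C0
  have h1 := cvol_pos (n + 1)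
  have h2 : (0:ℝ) < Mc n 1 1 := by
    have : 0 < Mc n 1 1 := by unfold Mc; positivity
    exact_mod_cast this
  positivity

theorem pre {n b N r m J : ℕ} (hb : 1 ≤ b) (hm0 : 0 < m) (hr : 1 ≤ r)
    (hJN : (J + 1) * m ≤ N) (hJN' : N < (J + 1) * (m + 1)) {s : ℝ} (hs : s = ((b:ℝ) ^ N)⁻¹)
    (φ : (Fin (n + 1) → ℤ) → ℝ) (hφ : ∀ v, 0 ≤ φ v)
    (hrank : ∀ B : Fin (n + 1) → ℤ,
      RankLE b N r (fun z => φ (fun l => ((b ^ N : ℕ) : ℤ) * B l + z l))) :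
    ∫⁻ e : Metric.sphere (0 : Sp (n + 1)) 1, kakeyaMax (cellFun s φ) s (e : Sp (n + 1)) ^ (n + 1)
        ∂(volume : Measure (Sp (n + 1))).toSphere ≤
      ENNReal.ofReal (C0 n * ((r:ℝ) ^ ((n + 1) * (J + 3) + (J + 2)) * Real.exp (CL n b 1 J)
        * (b:ℝ) ^ (m * (n * n + 2 * n)) * (N + 1) ^ n)) * ∫⁻ x, cellFun s φ x ^ (n + 1) := by
  set I := ∫⁻ x, cellFun s φ x ^ (n + 1) with hI
  have hbr : (1:ℝ) ≤ b := by exact_mod_cast hb
  have hbm : (1:ℝ) ≤ (b:ℝ) ^ m := one_le_pow₀ hbr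
  have h1 : ∀ e : Metric.sphere (0 : Sp (n + 1)) 1,
      kakeyaMax (cellFun s φ) s (e : Sp (n + 1)) ^ (n + 1) ≤
        ENNReal.ofReal (Cpt n b m r J) * (∑ i₀, Wd n b m N i₀ (e : Sp (n + 1))) * I := by
    intro e
    exact pointwise_all hb hm0 hr hJN hJN' hs φ hφ hrank e (by
      have := e.2
      rwa [mem_sphere_zero_iff_norm] at this)
  refine (lintegral_mono h1).trans ?_
  have hmeas : ∀ i₀ : Fin (n + 1), Measurable fun e : Metric.sphere (0 : Sp (n + 1)) 1 =>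
      Wd n b m N i₀ (e : Sp (n + 1)) := fun i₀ => (Wd_meas b m N i₀).comp measurable_subtype_coe
  have hmeas2 : Measurable fun e : Metric.sphere (0 : Sp (n + 1)) 1 =>
      ∑ i₀, Wd n b m N i₀ (e : Sp (n + 1)) := Finset.measurable_fun_sum _ fun i₀ _ => hmeas i₀
  rw [lintegral_mul_const _ (hmeas2.const_mul _), lintegral_const_mul _ hmeas2,
    lintegral_finsetSum _ fun i₀ _ => hmeas i₀]
  refine mul_le_mul_left ?_ I
  have h2 : ∑ i₀ : Fin (n + 1), ∫⁻ e : Metric.sphere (0 : Sp (n + 1)) 1,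
        Wd n b m N i₀ (e : Sp (n + 1)) ∂(volume : Measure (Sp (n + 1))).toSphere
      ≤ ENNReal.ofReal (2 * (n + 1) ^ 2 * (3 ^ (n * n) * (2 * n + 3) ^ n * 2 ^ n
        * ((b:ℝ) ^ (m * (n * n + n)) * (N + 1) ^ n))) := by
    calc ∑ i₀ : Fin (n + 1), ∫⁻ e : Metric.sphere (0 : Sp (n + 1)) 1,
        Wd n b m N i₀ (e : Sp (n + 1)) ∂(volume : Measure (Sp (n + 1))).toSphere
        ≤ ∑ _i₀ : Fin (n + 1), ENNReal.ofReal (n + 1) * (2 * ∫⁻ α, Wgt n b 1 m N α) :=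
          Finset.sum_le_sum fun i₀ _ => sphere_int i₀
      _ ≤ ∑ _i₀ : Fin (n + 1), ENNReal.ofReal (n + 1) * (2 * ENNReal.ofReal
            (3 ^ (n * n) * (2 * n + 3) ^ n * 2 ^ n
              * ((b:ℝ) ^ (m * (n * n + n)) * (N + 1) ^ n))) := by
          refine Finset.sum_le_sum fun i₀ _ => mul_le_mul_right (mul_le_mul_right ?_ _) _
          refine (Wgt_int hb).trans (ENNReal.ofReal_le_ofReal ?_)
          have a1 : (2 * (b:ℝ) ^ m + 1) ^ (n * n) ≤ (3 * (b:ℝ) ^ m) ^ (n * n) :=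
            pow_le_pow_left₀ (by positivity) (by linarith) _
          have a2 : (2 * ((n:ℝ) * (1:ℕ) * (b:ℝ) ^ m + 1) + 1) ^ n ≤ ((2 * n + 3) * (b:ℝ) ^ m) ^ n := by
            refine pow_le_pow_left₀ (by positivity) ?_ _
            push_cast
            nlinarith
          calc (2 * (b:ℝ) ^ m + 1) ^ (n * n) * (N + 1) ^ n
                * ((2 * ((n:ℝ) * (1:ℕ) * (b:ℝ) ^ m + 1) + 1) ^ n * 2 ^ n)
              ≤ (3 * (b:ℝ) ^ m) ^ (n * n) * (N + 1) ^ n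
                * (((2 * n + 3) * (b:ℝ) ^ m) ^ n * 2 ^ n) := by gcongr
            _ = _ := by
                rw [mul_pow, mul_pow, ← pow_mul, ← pow_mul, mul_add, pow_add]
                ring
      _ = _ := by
          have e2 : (2:ℝ≥0∞) = ENNReal.ofReal 2 := by simp
          rw [Finset.sum_const, Finset.card_univ, Fintype.card_fin, nsmul_eq_mul, e2,
            ← ENNReal.ofReal_mul (by norm_num), ← ENNReal.ofReal_mul (by positivity),
            ← ENNReal.ofReal_natCast, ← ENNReal.ofReal_mul (by positivity)]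
          congr 1
          push_cast
          ring
  refine (mul_le_mul_right h2 _).trans (le_of_eq ?_)
  rw [← ENNReal.ofReal_mul (Cpt_nonneg _ _ _ _ _)]
  congr 1
  unfold Cpt C0
  have e3 : (b:ℝ) ^ (m * (n * n + 2 * n)) = (b:ℝ) ^ (n * m) * (b:ℝ) ^ (m * (n * n + n)) := by
    rw [← pow_add]
    congr 1
    ring
  rw [e3]
  ring

theorem main (n b : ℕ) (hn : 1 ≤ n) (hb : 2 ≤ b) {ε : ℝ} (hε : 0 < ε) :
    ∃ (C : ℝ) (A : ℕ), 0 < C ∧ ∀ N : ℕ, 1 ≤ N → ∀ s : ℝ, s = ((b:ℝ) ^ N)⁻¹ → ∀ r : ℕ, 1 ≤ r →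
      ∀ φ : (Fin (n + 1) → ℤ) → ℝ, (∀ v, 0 ≤ φ v) →
      (∀ B : Fin (n + 1) → ℤ,
        RankLE b N r (fun z => φ (fun l => ((b ^ N : ℕ) : ℤ) * B l + z l))) →
      ∫⁻ e : Metric.sphere (0 : Sp (n + 1)) 1, kakeyaMax (cellFun s φ) s (e : Sp (n + 1)) ^ (n + 1)
          ∂(volume : Measure (Sp (n + 1))).toSphere ≤
        ENNReal.ofReal (C * s ^ (-ε) * (r:ℝ) ^ A) * ∫⁻ x, cellFun s φ x ^ (n + 1) := by
  have hnr : (1:ℝ) ≤ n := by exact_mod_cast hn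
  have hb1 : 1 ≤ b := by omega
  have hbr : (2:ℝ) ≤ b := by exact_mod_cast hb
  have hb0 : (0:ℝ) < b := by linarith
  have hlam : 0 < Real.log b := Real.log_pos (by linarith)
  set J : ℕ := ⌈2 * ((n:ℝ) * n + 2 * n) / ε⌉₊ with hJ
  have hJ2 : 2 * ((n:ℝ) * n + 2 * n) / ε ≤ J := Nat.le_ceil _
  set c : ℝ := min 1 (ε * Real.log b / (2 * n)) with hc
  have hc0 : 0 < c := lt_min one_pos (by positivity)
  have hc1 : c ≤ 1 := min_le_left _ _
  have hc2 : c ≤ ε * Real.log b / (2 * n) := min_le_right _ _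
  refine ⟨C0 n * (Real.exp (CL n b 1 J) * (c⁻¹) ^ n
    + Real.exp (CL n b 1 0) * (b:ℝ) ^ (J * (n * n + 2 * n)) * (J + 1) ^ n),
    (n + 1) * (J + 3) + (J + 2), ?_, ?_⟩
  · have := C0_pos n
    positivity
  intro N hN s hs r hr φ hφ hrank
  have hrr : (1:ℝ) ≤ r := by exact_mod_cast hr
  have hC0 := C0_pos n
  have hs0 : 0 < s := by rw [hs]; positivity
  have hsx : ∀ x : ℝ, s ^ (-x) = (b:ℝ) ^ (N * x) := by
    intro x
    rw [hs, ← Real.rpow_natCast, ← Real.rpow_neg hb0.le, ← Real.rpow_mul hb0.le]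
    congr 1
    ring
  have hsε : s ^ (-ε) = (b:ℝ) ^ (N * (ε / 2)) * (b:ℝ) ^ (N * (ε / 2)) := by
    rw [hsx, ← Real.rpow_add hb0]
    congr 1
    ring
  rcases le_or_gt (J + 1) N with hJN | hJN
  · set m : ℕ := N / (J + 1) with hm
    have hm0 : 0 < m := Nat.div_pos hJN (by omega)
    have h1 : (J + 1) * m ≤ N := Nat.mul_div_le N (J + 1)
    have h2 : N < (J + 1) * (m + 1) := Nat.lt_mul_div_succ N (by omega)
    refine (pre hb1 hm0 hr h1 h2 hs φ hφ hrank).trans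
      (mul_le_mul_left (ENNReal.ofReal_le_ofReal ?_) _)
    have h3 : (b:ℝ) ^ (m * (n * n + 2 * n)) ≤ (b:ℝ) ^ (N * (ε / 2)) := by
      rw [← Real.rpow_natCast]
      refine Real.rpow_le_rpow_of_exponent_le (by linarith) ?_
      have a1 : ((J:ℝ) + 1) * m ≤ N := by exact_mod_cast h1
      rw [div_le_iff₀ hε] at hJ2
      push_cast
      have a2 : (m:ℝ) * (2 * ((n:ℝ) * n + 2 * n)) ≤ m * (J * ε) :=
        mul_le_mul_of_nonneg_left hJ2 (by positivity)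
      have a3 : (m:ℝ) * (J * ε) ≤ N * ε := by
        have : (m:ℝ) * J ≤ N := by nlinarith [(by positivity : (0:ℝ) ≤ m)]
        calc (m:ℝ) * (J * ε) = (m * J) * ε := by ring
          _ ≤ N * ε := mul_le_mul_of_nonneg_right this hε.le
      linarith
    have h4 : ((N:ℝ) + 1) ^ n ≤ (c⁻¹) ^ n * (b:ℝ) ^ (N * (ε / 2)) := by
      have a1 : (N:ℝ) + 1 ≤ c⁻¹ * Real.exp (c * N) := by
        have := Real.add_one_le_exp (c * N)
        rw [inv_mul_eq_div, le_div_iff₀ hc0]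
        have hN0 : (0:ℝ) ≤ N := by positivity
        nlinarith
      have a2 : Real.exp (c * N) ^ n ≤ (b:ℝ) ^ (N * (ε / 2)) := by
        rw [← Real.exp_nat_mul, Real.rpow_def_of_pos hb0]
        apply Real.exp_le_exp.2
        rw [le_div_iff₀ (by positivity)] at hc2
        have hN0 : (0:ℝ) ≤ N := by positivity
        nlinarith [mul_le_mul_of_nonneg_left hc2 hN0]
      calc ((N:ℝ) + 1) ^ n ≤ (c⁻¹ * Real.exp (c * N)) ^ n := pow_le_pow_left₀ (by positivity) a1 _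
        _ = (c⁻¹) ^ n * Real.exp (c * N) ^ n := mul_pow _ _ _
        _ ≤ _ := mul_le_mul_of_nonneg_left a2 (by positivity)
    calc C0 n * ((r:ℝ) ^ ((n + 1) * (J + 3) + (J + 2)) * Real.exp (CL n b 1 J)
          * (b:ℝ) ^ (m * (n * n + 2 * n)) * (N + 1) ^ n)
        ≤ C0 n * ((r:ℝ) ^ ((n + 1) * (J + 3) + (J + 2)) * Real.exp (CL n b 1 J)
          * (b:ℝ) ^ (N * (ε / 2)) * ((c⁻¹) ^ n * (b:ℝ) ^ (N * (ε / 2)))) := by gcongr
      _ = C0 n * (Real.exp (CL n b 1 J) * (c⁻¹) ^ n) * s ^ (-ε)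
          * (r:ℝ) ^ ((n + 1) * (J + 3) + (J + 2)) := by
          rw [hsε]
          ring
      _ ≤ _ := by
          have : 0 ≤ Real.exp (CL n b 1 0) * (b:ℝ) ^ (J * (n * n + 2 * n)) * ((J:ℝ) + 1) ^ n := by
            positivity
          gcongr
          linarith
  · have h1 : (0 + 1) * N ≤ N := by omega
    have h2 : N < (0 + 1) * (N + 1) := by omega
    refine (pre (J := 0) (m := N) hb1 hN hr h1 h2 hs φ hφ hrank).trans
      (mul_le_mul_left (ENNReal.ofReal_le_ofReal ?_) _)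
    have hNJ : N ≤ J := by omega
    have hNJr : (N:ℝ) ≤ J := by exact_mod_cast hNJ
    have a1 : (r:ℝ) ^ ((n + 1) * (0 + 3) + (0 + 2)) ≤ (r:ℝ) ^ ((n + 1) * (J + 3) + (J + 2)) := by
      refine pow_le_pow_right₀ hrr ?_
      have : (n + 1) * (0 + 3) ≤ (n + 1) * (J + 3) := Nat.mul_le_mul_left _ (by omega)
      omega
    have a2 : (b:ℝ) ^ (N * (n * n + 2 * n)) ≤ (b:ℝ) ^ (J * (n * n + 2 * n)) :=
      pow_le_pow_right₀ (by linarith) (Nat.mul_le_mul_right _ hNJ)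
    have a3 : ((N:ℝ) + 1) ^ n ≤ ((J:ℝ) + 1) ^ n := pow_le_pow_left₀ (by positivity) (by linarith) _
    have a4 : 1 ≤ s ^ (-ε) := by
      rw [hsx]
      exact Real.one_le_rpow (by linarith) (by positivity)
    calc C0 n * ((r:ℝ) ^ ((n + 1) * (0 + 3) + (0 + 2)) * Real.exp (CL n b 1 0)
          * (b:ℝ) ^ (N * (n * n + 2 * n)) * ((N:ℝ) + 1) ^ n)
        ≤ C0 n * ((r:ℝ) ^ ((n + 1) * (J + 3) + (J + 2)) * Real.exp (CL n b 1 0)
          * (b:ℝ) ^ (J * (n * n + 2 * n)) * ((J:ℝ) + 1) ^ n) := by gcongr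
      _ = C0 n * (Real.exp (CL n b 1 0) * (b:ℝ) ^ (J * (n * n + 2 * n)) * ((J:ℝ) + 1) ^ n) * 1
          * (r:ℝ) ^ ((n + 1) * (J + 3) + (J + 2)) := by ring
      _ ≤ C0 n * (Real.exp (CL n b 1 0) * (b:ℝ) ^ (J * (n * n + 2 * n)) * ((J:ℝ) + 1) ^ n)
          * s ^ (-ε) * (r:ℝ) ^ ((n + 1) * (J + 3) + (J + 2)) := by gcongr
      _ ≤ _ := by
          have : 0 ≤ Real.exp (CL n b 1 J) * (c⁻¹) ^ n := by positivity
          gcongr
          linarith

end Q85.ZR
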