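import Mathlib
import Pool.Agent.Q85.ZR.Q

set_option autoImplicit false

/-!
# Sets with few zooms and multiplicative cascades
-/

namespace Q85.ZR

open Finset Q85.ZE MeasureTheory
open scoped ENNReal

theorem cellFun_ind {d : ℕ} {s : ℝ} (hs : 0 < s) (𝒜 : Set (Fin d → ℤ)) :
    cellFun s (𝒜.indicator fun _ => (1:ℝ)) = (cells s 𝒜).indicator (1 : Sp d → ℝ≥0∞) := by
  classical
  funext x
  unfold cellFun
  by_cases h : idx s x ∈ 𝒜
  · rw [Set.indicator_of_mem h, Set.indicator_of_mem ((mem_cells_iff hs).2 h)]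
    simp
  · rw [Set.indicator_of_notMem h,
      Set.indicator_of_notMem (fun h' => h ((mem_cells_iff hs).1 h'))]
    simp

/-- **Few zooms.** -/
theorem rank_zooms {d b N r : ℕ} (hr : 1 ≤ r) (𝒜 : Set (Fin d → ℤ))
    (hZ : ∀ j ≤ N, (Set.range fun u : Fin d → ℤ => zoomF 𝒜 (b ^ (N - j)) u).ncard ≤ r)
    (B : Fin d → ℤ) :
    RankLE b N r (fun z => 𝒜.indicator (fun _ => (1:ℝ))
      (fun l => ((b ^ N : ℕ) : ℤ) * B l + z l)) := by
  classical
  have hfin : ∀ j, (Set.range fun u : Fin d → ℤ => zoomF 𝒜 (b ^ (N - j)) u).Finite := by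
    intro j
    refine ((ZE.box d (b ^ (N - j))).powerset.finite_toSet).subset ?_
    rintro _ ⟨u, rfl⟩
    rw [Finset.mem_coe, Finset.mem_powerset]
    exact fun w hw => (mem_zoomF.1 hw).1
  have hex : ∀ j, ∃ U : Fin r → (Fin d → ℤ), j ≤ N → ∀ u, ∃ i,
      zoomF 𝒜 (b ^ (N - j)) (U i) = zoomF 𝒜 (b ^ (N - j)) u := by
    intro j
    by_cases hj : j ≤ N
    · set S := (hfin j).toFinset with hS
      have hcard : S.card ≤ r := by
        have := hZ j hj
        rwa [Set.ncard_eq_toFinset_card _ (hfin j)] at this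
      have hne : S.Nonempty := ⟨_, by
        rw [hS, Set.Finite.mem_toFinset]
        exact ⟨B, rfl⟩⟩
      have hpos : 0 < S.card := Finset.card_pos.2 hne
      set eqv := S.equivFin
      have hU : ∀ Z : S, ∃ u, zoomF 𝒜 (b ^ (N - j)) u = Z := by
        intro Z
        exact (Set.Finite.mem_toFinset (hfin j)).1 Z.2
      choose U hU using hU
      refine ⟨fun i => if h : (i:ℕ) < S.card then U (eqv.symm ⟨i, h⟩) else B, fun _ u => ?_⟩
      have hu : zoomF 𝒜 (b ^ (N - j)) u ∈ S := by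
        rw [hS, Set.Finite.mem_toFinset]
        exact ⟨u, rfl⟩
      refine ⟨⟨eqv ⟨_, hu⟩, lt_of_lt_of_le (eqv ⟨_, hu⟩).2 hcard⟩, ?_⟩
      beta_reduce
      rw [dif_pos (eqv ⟨_, hu⟩).2, hU]
      simp
    · exact ⟨fun _ => B, fun h => absurd h hj⟩
  choose U hU using hex
  -- the index of a zoom
  have hidx : ∀ j (u : Fin d → ℤ), ∃ i : Fin r, j ≤ N →
      zoomF 𝒜 (b ^ (N - j)) (U j i) = zoomF 𝒜 (b ^ (N - j)) u := by
    intro j u
    by_cases hj : j ≤ N
    · obtain ⟨i, hi⟩ := hU j hj u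
      exact ⟨i, fun _ => hi⟩
    · exact ⟨⟨0, hr⟩, fun h => absurd h hj⟩
  choose ix hix using hidx
  refine ⟨fun j i z => if z ∈ zoomF 𝒜 (b ^ (N - j)) (U j i) then 1 else 0,
    fun i => if i = ix 0 B then 1 else 0,
    fun j i ρ i' => if i' = ix (j + 1) (fun l => (b:ℤ) * U j i l + ρ l) then 1 else 0,
    fun j i z => by positivity, fun i => by positivity, fun j i ρ i' => by positivity, ?_, ?_⟩
  · intro z hz
    simp only [ite_mul, one_mul, zero_mul, Finset.sum_ite_eq', Finset.mem_univ, if_true]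
    rw [hix 0 B (Nat.zero_le _), Nat.sub_zero]
    by_cases h : (fun l => ((b ^ N : ℕ) : ℤ) * B l + z l) ∈ 𝒜
    · rw [Set.indicator_of_mem h, if_pos (mem_zoomF.2 ⟨hz, h⟩)]
    · rw [Set.indicator_of_notMem h, if_neg fun h' => h (mem_zoomF.1 h').2]
  · intro j hj i ρ hρ z hz
    simp only [ite_mul, one_mul, zero_mul, Finset.sum_ite_eq', Finset.mem_univ, if_true]
    rw [hix (j + 1) _ (by omega)]
    have e1 : b ^ (N - j) = b * b ^ (N - (j + 1)) := by
      rw [← pow_succ']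
      congr 1
      omega
    have h1 := child_zoom 𝒜 b (b ^ (N - (j + 1))) (U j i) ρ hρ
    have h2 : (z ∈ zoomF 𝒜 (b ^ (N - (j + 1))) (fun l => (b:ℤ) * U j i l + ρ l)) ↔
        (fun l => ((b ^ (N - (j + 1)) : ℕ) : ℤ) * ρ l + z l) ∈ zoomF 𝒜 (b ^ (N - j)) (U j i) := by
      rw [h1, mem_childF, e1]
      exact ⟨fun h => h.2, fun h => ⟨hz, h⟩⟩
    by_cases h : (fun l => ((b ^ (N - (j + 1)) : ℕ) : ℤ) * ρ l + z l)
        ∈ zoomF 𝒜 (b ^ (N - j)) (U j i)
    · rw [if_pos h, if_pos (h2.2 h)]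
    · rw [if_neg h, if_neg fun h' => h (h2.1 h')]

open scoped Classical in
/-- the multiplicative cascade on the unit cube with the factors `g j`, as a function of the cells of
side `b ^ (-N)`: the factor number `j` is a function of the digits number `j + 1` of the
coordinates -/
noncomputable def cascade {d : ℕ} (b N : ℕ) (g : ℕ → (Fin d → ℤ) → ℝ) (v : Fin d → ℤ) : ℝ :=
  if v ∈ ZE.box d (b ^ N) then ∏ j ∈ Finset.range N, g j fun l => v l / (b:ℤ) ^ (N - (j + 1)) % b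
  else 0

theorem cascade_nonneg {d b N : ℕ} (g : ℕ → (Fin d → ℤ) → ℝ) (hg : ∀ j ρ, 0 ≤ g j ρ)
    (v : Fin d → ℤ) : 0 ≤ cascade b N g v := by
  classical
  unfold cascade
  split_ifs
  · exact Finset.prod_nonneg fun j _ => hg _ _
  · exact le_rfl

theorem rank_cascade {d b N : ℕ} (hb : 0 < b) (g : ℕ → (Fin d → ℤ) → ℝ)
    (hg : ∀ j ρ, 0 ≤ g j ρ) (B : Fin d → ℤ) :
    RankLE b N 1 (fun z => cascade b N g (fun l => ((b ^ N : ℕ) : ℤ) * B l + z l)) := by
  classical
  have hbz : (0:ℤ) < b := by exact_mod_cast hb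
  refine ⟨fun j _ z => ∏ k ∈ Finset.Ico j N, g k fun l => z l / (b:ℤ) ^ (N - (k + 1)) % b,
    fun _ => if B = 0 then 1 else 0, fun j _ ρ _ => g j ρ,
    fun j i z => Finset.prod_nonneg fun k _ => hg _ _, fun i => by positivity,
    fun j i ρ i' => hg _ _, ?_, ?_⟩
  · intro z hz
    rw [Fin.sum_univ_one]
    beta_reduce
    by_cases hB : B = 0
    · subst hB
      have e : (fun l => ((b ^ N : ℕ) : ℤ) * (0 : Fin d → ℤ) l + z l) = z := by
        funext l
        simp
      unfold cascade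
      rw [e, if_pos hz, if_pos rfl, one_mul, Finset.range_eq_Ico]
    · have hnot : (fun l => ((b ^ N : ℕ) : ℤ) * B l + z l) ∉ ZE.box d (b ^ N) := by
        intro h
        refine hB (funext fun l => ?_)
        rw [mem_box] at h hz
        obtain ⟨a1, a2⟩ := h l
        obtain ⟨b1, b2⟩ := hz l
        have hM : (0:ℤ) < ((b ^ N : ℕ) : ℤ) := by exact_mod_cast pow_pos hb _
        have c1 : ((b ^ N : ℕ) : ℤ) * B l < ((b ^ N : ℕ) : ℤ) * 1 := by linarith
        have c2 : ((b ^ N : ℕ) : ℤ) * (-1) < ((b ^ N : ℕ) : ℤ) * B l := by linarith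
        have d1 := lt_of_mul_lt_mul_left c1 hM.le
        have d2 := lt_of_mul_lt_mul_left c2 hM.le
        show B l = 0
        omega
      unfold cascade
      rw [if_neg hnot, if_neg hB, zero_mul]
  · intro j hj i ρ hρ z hz
    rw [Fin.sum_univ_one]
    beta_reduce
    rw [Finset.prod_eq_prod_Ico_succ_bot hj]
    have hM : (0:ℤ) < (b:ℤ) ^ (N - (j + 1)) := pow_pos hbz _
    congr 1
    · congr 1
      funext l
      rw [mem_box] at hρ hz
      obtain ⟨a1, a2⟩ := hρ l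
      obtain ⟨b1, b2⟩ := hz l
      push_cast at b2 ⊢
      rw [add_comm, Int.add_mul_ediv_left _ _ hM.ne', Int.ediv_eq_zero_of_lt b1 b2, zero_add,
        Int.emod_eq_of_lt a1 a2]
    · refine Finset.prod_congr rfl fun k hk => ?_
      rw [Finset.mem_Ico] at hk
      congr 1
      funext l
      have hk0 : (0:ℤ) < (b:ℤ) ^ (N - (k + 1)) := pow_pos hbz _
      have e1 : ((b ^ (N - (j + 1)) : ℕ) : ℤ) * ρ l
          = (b:ℤ) ^ (N - (k + 1)) * ((b:ℤ) ^ (k - j - 1) * b * ρ l) := by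
        have : N - (j + 1) = (N - (k + 1)) + (k - j - 1) + 1 := by omega
        rw [this]
        push_cast
        ring
      rw [e1, add_comm, Int.add_mul_ediv_left _ _ hk0.ne']
      have e2 : (b:ℤ) ^ (k - j - 1) * b * ρ l = b * ((b:ℤ) ^ (k - j - 1) * ρ l) := by ring
      rw [e2, Int.add_mul_emod_self_left]

/-- the integral over the unit sphere of the power `d` of the maximal function -/
noncomputable def maxInt {d : ℕ} (f : Sp d → ℝ≥0∞) (δ : ℝ) : ℝ≥0∞ :=
  ∫⁻ e : Metric.sphere (0 : Sp d) 1, kakeyaMax f δ (e : Sp d) ^ d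
    ∂(volume : Measure (Sp d)).toSphere

/-- nonnegative, and of multiscale rank at most `r` on each unit cube -/
def LowRank {d : ℕ} (b N r : ℕ) (φ : (Fin d → ℤ) → ℝ) : Prop :=
  (∀ v, 0 ≤ φ v) ∧ ∀ B : Fin d → ℤ,
    RankLE b N r (fun z => φ (fun l => ((b ^ N : ℕ) : ℤ) * B l + z l))

/-- at most `r` different zooms at each level -/
def FewZooms {d : ℕ} (b N r : ℕ) (𝒜 : Set (Fin d → ℤ)) : Prop :=
  ∀ j ≤ N, (Set.range fun u : Fin d → ℤ => zoomF 𝒜 (b ^ (N - j)) u).ncard ≤ r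

end Q85.ZR
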